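import Pool.Agent.Lib.MP_b6f35e_al.WH.F1

/-!
# Hive 30, line P, module F1V: abstract systems of logarithms  (MP_b6f35e_al)

`LogSys R V P` : additive maps `L C : R[C]ˣ → (C → V)` for the finite commutative groups `C`
(properties only for `P (Nat.card C)`), natural for injections, compatible with restriction to
subgroups, with torsion kernel.  `LogSys.main`: if the push forwards of `L (x_j)` to the conjugacy
classes of `G` sum to zero, then the sum of the classes of the units `x_j` of `R[C_j]` in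
`colim K_1(R[H])` is torsion.
-/

set_option autoImplicit false

noncomputable section

namespace Pool.Agent.Lib.MPb6f35e.WH

universe u v w t

/-- A system of logarithms with values in an abelian group `V`, for the finite commutative groups
whose order satisfies `P`. -/
structure LogSys (R : Type u) [CommRing R] (V : Type w) [AddCommGroup V] (P : ℕ → Prop) where
  /-- the logarithm -/
  L : ∀ (C : Type v) [CommGroup C] [Finite C], Additive (MonoidAlgebra R C)ˣ →+ (C → V)
  map : ∀ (C C' : Type v) [CommGroup C] [CommGroup C'] [Finite C] [Finite C']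
    (_ : P (Nat.card C)) (_ : P (Nat.card C')) (f : C →* C') (_ : Function.Injective f)
    (x : (MonoidAlgebra R C)ˣ) (c : C),
    L C' (Additive.ofMul (F1.mU R f x)) (f c) = L C (Additive.ofMul x) c
  map_not : ∀ (C C' : Type v) [CommGroup C] [CommGroup C'] [Finite C] [Finite C']
    (_ : P (Nat.card C)) (_ : P (Nat.card C')) (f : C →* C') (_ : Function.Injective f)
    (x : (MonoidAlgebra R C)ˣ), ∀ c' ∉ Set.range f,
    L C' (Additive.ofMul (F1.mU R f x)) c' = 0
  norm : ∀ (C : Type v) [CommGroup C] [Finite C] (_ : P (Nat.card C)) (D : Subgroup C)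
    (x : (MonoidAlgebra R C)ˣ), ∃ y : (MonoidAlgebra R D)ˣ, ∀ d : D,
    L D (Additive.ofMul y) d = D.index • L C (Additive.ofMul x) d
  inj : ∀ (C : Type v) [CommGroup C] [Finite C] (_ : P (Nat.card C))
    (x : (MonoidAlgebra R C)ˣ) (_ : ∀ c, L C (Additive.ofMul x) c = 0), IsOfFinOrder x

namespace F1V

open F1

variable {R : Type u} [CommRing R] {V : Type w} [AddCommGroup V] {P : ℕ → Prop}
  {G : Type v} [Group G]

/-- The units, additively. -/
abbrev A (R : Type u) [CommRing R] (C : Type v) [Group C] : Type (max u v) :=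
  Additive (MonoidAlgebra R C)ˣ

/-- functoriality -/
def aM {C C' : Type v} [Group C] [Group C'] (f : C →* C') : A R C →+ A R C' :=
  (mU R f).toAdditive

lemma L_aM (S : LogSys.{u, v, w} R V P) {C C' : Type v} [CommGroup C] [CommGroup C'] [Finite C]
    [Finite C'] (h1 : P (Nat.card C)) (h2 : P (Nat.card C')) (f : C →* C')
    (hf : Function.Injective f) (x : A R C) (c : C) :
    S.L C' (aM f x) (f c) = S.L C x c :=
  S.map C C' h1 h2 f hf x.toMul c

lemma L_aM_not (S : LogSys.{u, v, w} R V P) {C C' : Type v} [CommGroup C] [CommGroup C']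
    [Finite C] [Finite C'] (h1 : P (Nat.card C)) (h2 : P (Nat.card C')) (f : C →* C')
    (hf : Function.Injective f) (x : A R C) (c' : C') (h : c' ∉ Set.range f) :
    S.L C' (aM f x) c' = 0 :=
  S.map_not C C' h1 h2 f hf x.toMul c' h

lemma L_norm (S : LogSys.{u, v, w} R V P) {C : Type v} [CommGroup C] [Finite C]
    (h1 : P (Nat.card C)) (D : Subgroup C) (x : A R C) :
    ∃ y : A R D, ∀ d : D, S.L D y d = D.index • S.L C x d := by
  obtain ⟨y, hy⟩ := S.norm C h1 D x.toMul
  exact ⟨Additive.ofMul y, hy⟩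

lemma L_inj (S : LogSys.{u, v, w} R V P) {C : Type v} [CommGroup C] [Finite C]
    (h1 : P (Nat.card C)) (x : A R C) (h : ∀ c, S.L C x c = 0) :
    ∃ (n : ℕ) (_ : 0 < n), n • x = 0 := by
  have h2 := S.inj C h1 x.toMul h
  obtain ⟨n, hn, h3⟩ := isOfFinOrder_iff_pow_eq_one.1 h2
  exact ⟨n, hn, congrArg Additive.ofMul h3⟩

/-- The class in the colimit. -/
lemma th_aM {C C' : Type v} [Group C] [Finite C] [Group C'] [Finite C'] (φ : C →* G)
    (φ' : C' →* G) (f : C →* C') (g : G) (h : ∀ c, φ' (f c) = g * φ c * g⁻¹) (x : A R C) :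
    th φ' (aM f x) = th φ x :=
  th_rel φ φ' f g h x.toMul

/-! ### the part of a logarithm supported on the generators -/

open Classical in
lemma L_sub (S : LogSys.{u, v, w} R V P) {C : Type v} [CommGroup C] [Finite C]
    (h1 : P (Nat.card C)) (D : Subgroup C) (h2 : P (Nat.card D)) (x : A R D) (c : C) :
    S.L C (aM D.subtype x) c = if h : c ∈ D then S.L D x ⟨c, h⟩ else 0 := by
  split_ifs with h
  · exact L_aM S h2 h1 D.subtype D.subtype_injective x ⟨c, h⟩
  · apply L_aM_not S h2 h1 D.subtype D.subtype_injective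
    rintro ⟨d, rfl⟩
    exact h d.2

open Classical in
lemma L_sub_gen (S : LogSys.{u, v, w} R V P) {C : Type v} [CommGroup C] [Finite C]
    (h1 : P (Nat.card C)) (D : Subgroup C) (h2 : P (Nat.card D))
    (x : A R C) (N : ℕ) (z : A R D)
    (hz : ∀ d : D, S.L D z d = if Subgroup.zpowers d = ⊤ then N • S.L C x d else 0) (c : C) :
    S.L C (aM D.subtype z) c = if D = Subgroup.zpowers c then N • S.L C x c else 0 := by
  rw [L_sub S h1 D h2]
  by_cases h : c ∈ D
  · rw [dif_pos h, hz, zpowers_sub D c h]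
  · rw [dif_neg h, if_neg]
    rintro rfl
    exact h (Subgroup.mem_zpowers c)

open Classical in
theorem gen (S : LogSys.{u, v, w} R V P) (hP : ∀ m n : ℕ, m ∣ n → P n → P m) (n : ℕ) :
    ∀ (C : Type v) [CommGroup C] [Finite C] (_ : P (Nat.card C)) (_ : Nat.card C = n) (x : A R C),
    ∃ (M : ℕ) (_ : 0 < M) (z : A R C), ∀ c, S.L C z c =
      if Subgroup.zpowers c = ⊤ then M • S.L C x c else 0 := by
  induction n using Nat.strong_induction_on with
  | _ n ih =>
    intro C _ _ hC hn x
    have hsub : ∀ D : Subgroup C, P (Nat.card D) := fun D =>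
      hP _ _ (Subgroup.card_subgroup_dvd_card D) hC
    have key : ∀ D : Subgroup C, ∃ (N : ℕ) (_ : 0 < N) (z : A R D), D ≠ ⊤ → ∀ d : D,
        S.L D z d = if Subgroup.zpowers d = ⊤ then N • S.L C x d else 0 := by
      intro D
      by_cases hD : D = ⊤
      · exact ⟨1, one_pos, 0, fun h => absurd hD h⟩
      · obtain ⟨y, hy⟩ := L_norm S hC D x
        have hlt : Nat.card D < n := by
          rw [← hn]
          refine lt_of_le_of_ne (Subgroup.card_le_card_group D) ?_
          intro h
          exact hD (Subgroup.eq_top_of_card_eq D h)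
        obtain ⟨M, hM, z, hz⟩ := ih _ hlt D (hsub D) rfl y
        have hidx : 0 < D.index := Nat.pos_of_ne_zero Subgroup.index_ne_zero_of_finite
        refine ⟨M * D.index, Nat.mul_pos hM hidx, z, fun _ d => ?_⟩
        rw [hz, hy]
        split_ifs
        · rw [mul_smul]
        · rfl
    choose N hN z hz using key
    have : Fintype (Subgroup C) := Fintype.ofFinite _
    refine ⟨∏ D, N D, Finset.prod_pos fun D _ => hN D,
      (∏ D, N D) • x - ∑ D ∈ Finset.univ.filter (fun D : Subgroup C => D ≠ ⊤),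
        ((∏ D, N D) / N D) • aM D.subtype (z D), fun c => ?_⟩
    rw [map_sub, map_nsmul, map_sum, Pi.sub_apply, Pi.smul_apply, Finset.sum_apply]
    have h1 : ∀ D ∈ Finset.univ.filter (fun D : Subgroup C => D ≠ ⊤),
        S.L C (((∏ D, N D) / N D) • aM D.subtype (z D)) c =
          if D = Subgroup.zpowers c then (∏ D, N D) • S.L C x c else 0 := by
      intro D hD
      have hD' : D ≠ ⊤ := (Finset.mem_filter.1 hD).2
      rw [map_nsmul, Pi.smul_apply, L_sub_gen S hC D (hsub D) x (N D) (z D) (hz D hD') c]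
      split_ifs with h
      · rw [← mul_smul,
          Nat.div_mul_cancel (Finset.dvd_prod_of_mem _ (Finset.mem_univ D))]
      · rw [smul_zero]
    rw [Finset.sum_congr rfl h1]
    by_cases hc : Subgroup.zpowers c = ⊤
    · rw [if_pos hc, Finset.sum_eq_zero, sub_zero]
      intro D hD
      have hD' : D ≠ ⊤ := (Finset.mem_filter.1 hD).2
      rw [if_neg]
      rw [hc]
      exact hD'
    · rw [if_neg hc, Finset.sum_eq_single (Subgroup.zpowers c), if_pos rfl, sub_self]
      · intro D _ hD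
        rw [if_neg hD]
      · intro h
        exact absurd (Finset.mem_filter.2 ⟨Finset.mem_univ (Subgroup.zpowers c), hc⟩) h

open Classical in
/-- Decomposition along the subgroups, up to torsion. -/
theorem dec (S : LogSys.{u, v, w} R V P) (hP : ∀ m n : ℕ, m ∣ n → P n → P m)
    (C : Type v) [CommGroup C] [Finite C] [Fintype (Subgroup C)] (hC : P (Nat.card C))
    (x : A R C) :
    ∃ (M : ℕ) (_ : 0 < M) (z : ∀ D : Subgroup C, A R D),
      (∀ (D : Subgroup C) (d : D), S.L D (z D) d =
        if Subgroup.zpowers d = ⊤ then M • S.L C x d else 0) ∧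
      M • x = ∑ D, aM D.subtype (z D) := by
  have hsub : ∀ D : Subgroup C, P (Nat.card D) := fun D =>
    hP _ _ (Subgroup.card_subgroup_dvd_card D) hC
  have key : ∀ D : Subgroup C, ∃ (N : ℕ) (_ : 0 < N) (z : A R D), ∀ d : D,
      S.L D z d = if Subgroup.zpowers d = ⊤ then N • S.L C x d else 0 := by
    intro D
    obtain ⟨y, hy⟩ := L_norm S hC D x
    obtain ⟨M, hM, z, hz⟩ := gen S hP _ D (hsub D) rfl y
    have hidx : 0 < D.index := Nat.pos_of_ne_zero Subgroup.index_ne_zero_of_finite
    refine ⟨M * D.index, Nat.mul_pos hM hidx, z, fun d => ?_⟩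
    rw [hz, hy]
    split_ifs
    · rw [mul_smul]
    · rfl
  choose N hN z hz using key
  have hz' : ∀ (D : Subgroup C) (d : D),
      S.L D (((∏ D, N D) / N D) • z D) d =
        if Subgroup.zpowers d = ⊤ then (∏ D, N D) • S.L C x d else 0 := by
    intro D d
    rw [map_nsmul, Pi.smul_apply, hz]
    split_ifs with h
    · rw [← mul_smul, Nat.div_mul_cancel (Finset.dvd_prod_of_mem _ (Finset.mem_univ D))]
    · rw [smul_zero]
  have hdiff : ∀ c, S.L C ((∏ D, N D) • x - ∑ D, aM D.subtype (((∏ D, N D) / N D) • z D)) c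
      = 0 := by
    intro c
    rw [map_sub, map_nsmul, map_sum, Pi.sub_apply, Pi.smul_apply, Finset.sum_apply]
    have h1 : ∀ D ∈ (Finset.univ : Finset (Subgroup C)),
        S.L C (aM D.subtype (((∏ D, N D) / N D) • z D)) c =
          if D = Subgroup.zpowers c then (∏ D, N D) • S.L C x c else 0 :=
      fun D _ => L_sub_gen S hC D (hsub D) x _ _ (hz' D) c
    rw [Finset.sum_congr rfl h1, Finset.sum_ite_eq', if_pos (Finset.mem_univ _), sub_self]
  obtain ⟨n, hn, h0⟩ := L_inj S hC _ hdiff
  refine ⟨n * ∏ D, N D, Nat.mul_pos hn (Finset.prod_pos fun D _ => hN D),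
    fun D => n • ((∏ D, N D) / N D) • z D, fun D d => ?_, ?_⟩
  · rw [map_nsmul, Pi.smul_apply, hz']
    split_ifs with h
    · rw [mul_smul]
    · rw [smul_zero]
  · rw [nsmul_sub, sub_eq_zero] at h0
    rw [mul_nsmul', h0, ← Finset.sum_nsmul]
    exact Finset.sum_congr rfl fun D _ => (map_nsmul (aM D.subtype) n _).symm

/-- The value of the sum of logarithms at the class `κ`. -/
def cl [DecidableEq (ConjClasses G)] {C : Type v} [Group C] [Fintype C] (φ : C →* G)
    (κ : ConjClasses G) (f : C → V) : V :=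
  ∑ c : C, if ConjClasses.mk (φ c) = κ then f c else 0

open Classical in
lemma sum_cj {C D : Type v} [Group C] [Fintype C] [Group D] [Finite D] (φ : C →* G) (ψ : D →* G)
    [Fintype (Cj φ ψ)]
    (hφ : Function.Injective φ) (hψ : Function.Injective ψ) (F : C → V)
    (hF : ∀ c, Subgroup.zpowers c ≠ ⊤ → F c = 0) (d : D) (hd : Subgroup.zpowers d = ⊤) :
    ∑ f : Cj φ ψ, F (f.1.symm d) = cl φ (ConjClasses.mk (ψ d)) F := by
  unfold cl
  apply Finset.sum_of_injOn (fun f : Cj φ ψ => f.1.symm d)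
  · intro f _ f' _ h
    exact cj_ext φ ψ d hd f f' h
  · intro f _
    exact Finset.mem_coe.2 (Finset.mem_univ _)
  · intro c _ hc
    split_ifs with h
    · apply hF
      intro hgen
      obtain ⟨f, hf⟩ := cj_exists φ ψ hφ hψ c d hgen hd h
      exact hc ⟨f, Finset.mem_coe.2 (Finset.mem_univ _), hf⟩
    · rfl
  · intro f _
    rw [if_pos]
    rw [cj_mk φ ψ f, MulEquiv.apply_symm_apply]

open Classical in
/-- The orbit argument. -/
theorem orb (S : LogSys.{u, v, w} R V P) {J : Type t}
    (C : J → Type v) [∀ j, CommGroup (C j)] [∀ j, Fintype (C j)] (hC : ∀ j, P (Nat.card (C j)))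
    (φ : ∀ j, C j →* G)
    (hφ : ∀ j, Function.Injective (φ j)) (z : ∀ j, A R (C j))
    (hz : ∀ j (c : C j), Subgroup.zpowers c ≠ ⊤ → S.L (C j) (z j) c = 0) (s : Finset J) :
    (∀ κ : ConjClasses G, ∑ j ∈ s, cl (φ j) κ (S.L (C j) (z j)) = 0) →
    ∃ (n : ℕ) (_ : 0 < n), n • ∑ j ∈ s, th (φ j) (z j) = 0 := by
  induction s using Finset.strongInduction with
  | _ s ih =>
    intro hs
    rcases s.eq_empty_or_nonempty with rfl | ⟨j₀, hj₀⟩
    · exact ⟨1, one_pos, by simp⟩
    have : ∀ j, Fintype (Cj (φ j) (φ j₀)) := fun j => Fintype.ofFinite _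
    -- the product over all isomorphisms
    have hw0 : ∀ d, S.L (C j₀) (∑ j ∈ s, ∑ f : Cj (φ j) (φ j₀), aM f.1.toMonoidHom (z j)) d
        = 0 := by
      intro d
      rw [map_sum, Finset.sum_apply]
      have h1 : ∀ j ∈ s, S.L (C j₀) (∑ f : Cj (φ j) (φ j₀), aM f.1.toMonoidHom (z j)) d =
          ∑ f : Cj (φ j) (φ j₀), S.L (C j) (z j) (f.1.symm d) := by
        intro j _
        rw [map_sum, Finset.sum_apply]
        refine Finset.sum_congr rfl fun f _ => ?_
        have h2 := L_aM S (hC j) (hC j₀) f.1.toMonoidHom f.1.injective (z j) (f.1.symm d)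
        have h3 : f.1.toMonoidHom (f.1.symm d) = d := f.1.apply_symm_apply d
        rw [h3] at h2
        exact h2
      rw [Finset.sum_congr rfl h1]
      by_cases hd : Subgroup.zpowers d = ⊤
      · rw [← hs (ConjClasses.mk (φ j₀ d))]
        exact Finset.sum_congr rfl fun j _ =>
          sum_cj (φ j) (φ j₀) (hφ j) (hφ j₀) _ (hz j) d hd
      · apply Finset.sum_eq_zero
        intro j _
        apply Finset.sum_eq_zero
        intro f _
        apply hz
        intro h
        apply hd
        rw [← zpowers_equiv f.1.symm d]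
        exact h
    obtain ⟨n₀, hn₀, hw⟩ := L_inj S (hC j₀) _ hw0
    -- the relation
    have hrel : n₀ • ∑ j ∈ s, Nat.card (Cj (φ j) (φ j₀)) • th (φ j) (z j) = 0 := by
      have h1 := congrArg (th (φ j₀)) hw
      rw [map_zero, map_nsmul, map_sum] at h1
      rw [← h1]
      congr 1
      refine Finset.sum_congr rfl fun j _ => ?_
      rw [map_sum]
      have h2 : ∀ f ∈ (Finset.univ : Finset (Cj (φ j) (φ j₀))),
          th (φ j₀) (aM f.1.toMonoidHom (z j)) = th (φ j) (z j) := by
        intro f _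
        obtain ⟨g, hg⟩ := f.2
        exact th_aM (φ j) (φ j₀) f.1.toMonoidHom g hg (z j)
      rw [Finset.sum_congr rfl h2, Finset.sum_const, Finset.card_univ, Nat.card_eq_fintype_card]
    -- the class of `j₀`
    set I := s.filter (fun j => Nonempty (Cj (φ j) (φ j₀))) with hI
    set s' := s.filter (fun j => ¬ Nonempty (Cj (φ j) (φ j₀))) with hs'
    have hN : 0 < Nat.card (Cj (φ j₀) (φ j₀)) := by
      have : Nonempty (Cj (φ j₀) (φ j₀)) := ⟨⟨MulEquiv.refl _, 1, by simp⟩⟩
      exact Nat.card_pos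
    have hIrel : n₀ • Nat.card (Cj (φ j₀) (φ j₀)) • ∑ j ∈ I, th (φ j) (z j) = 0 := by
      rw [← hrel, ← Finset.sum_filter_add_sum_filter_not s
        (fun j => Nonempty (Cj (φ j) (φ j₀))) (fun j => Nat.card (Cj (φ j) (φ j₀)) •
          th (φ j) (z j))]
      have h1 : ∑ j ∈ s.filter (fun j => ¬ Nonempty (Cj (φ j) (φ j₀))),
          Nat.card (Cj (φ j) (φ j₀)) • th (φ j) (z j) = 0 := by
        apply Finset.sum_eq_zero
        intro j hj
        have h2 := (Finset.mem_filter.1 hj).2
        rw [not_nonempty_iff] at h2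
        rw [Nat.card_of_isEmpty, zero_smul]
      rw [h1, add_zero, Finset.smul_sum]
      congr 1
      refine Finset.sum_congr rfl fun j hj => ?_
      obtain ⟨f⟩ := (Finset.mem_filter.1 hj).2
      rw [cj_card (φ j) (φ j₀) f]
    have hlt : s' ⊂ s := by
      rw [Finset.ssubset_iff_of_subset (Finset.filter_subset _ _)]
      refine ⟨j₀, hj₀, fun h => ?_⟩
      exact (Finset.mem_filter.1 h).2 ⟨⟨MulEquiv.refl _, 1, by simp⟩⟩
    have hs'' : ∀ κ : ConjClasses G,
        ∑ j ∈ s', cl (φ j) κ (S.L (C j) (z j)) = 0 := by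
      intro κ
      by_cases hκ : ∃ d : C j₀, Subgroup.zpowers d = ⊤ ∧ ConjClasses.mk (φ j₀ d) = κ
      · obtain ⟨d, hd, rfl⟩ := hκ
        apply Finset.sum_eq_zero
        intro j hj
        apply Finset.sum_eq_zero
        intro c _
        split_ifs with h
        · apply hz
          intro hc
          obtain ⟨f, -⟩ := cj_exists (φ j) (φ j₀) (hφ j) (hφ j₀) c d hc hd h
          exact (Finset.mem_filter.1 hj).2 ⟨f⟩
        · rfl
      · have h1 := hs κ
        rw [← Finset.sum_filter_add_sum_filter_not s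
          (fun j => Nonempty (Cj (φ j) (φ j₀)))] at h1
        have h2 : ∑ j ∈ s.filter (fun j => Nonempty (Cj (φ j) (φ j₀))),
            cl (φ j) κ (S.L (C j) (z j)) = 0 := by
          apply Finset.sum_eq_zero
          intro j hj
          obtain ⟨f⟩ := (Finset.mem_filter.1 hj).2
          apply Finset.sum_eq_zero
          intro c _
          split_ifs with h
          · apply hz
            intro hc
            apply hκ
            refine ⟨f.1 c, (zpowers_equiv f.1 c).2 hc, ?_⟩
            rw [← cj_mk (φ j) (φ j₀) f c, h]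
          · rfl
        rw [h2, zero_add] at h1
        exact h1
    obtain ⟨n, hn, hn2⟩ := ih s' hlt hs''
    refine ⟨(n₀ * Nat.card (Cj (φ j₀) (φ j₀))) * n, Nat.mul_pos (Nat.mul_pos hn₀ hN) hn, ?_⟩
    rw [← Finset.sum_filter_add_sum_filter_not s (fun j => Nonempty (Cj (φ j) (φ j₀))), smul_add]
    have e1 : (n₀ * Nat.card (Cj (φ j₀) (φ j₀)) * n) • ∑ j ∈ I, th (φ j) (z j) = 0 := by
      rw [mul_comm, mul_smul, mul_smul, hIrel, smul_zero]
    have e2 : (n₀ * Nat.card (Cj (φ j₀) (φ j₀)) * n) • ∑ j ∈ s', th (φ j) (z j) = 0 := by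
      rw [mul_smul, hn2, smul_zero]
    rw [e1, e2, add_zero]

open Classical in
lemma cl_sum {C : Type v} [Group C] [Fintype C] (φ : C →* G) (κ : ConjClasses G) {α : Type*}
    (s : Finset α) (F : α → C → V) : cl φ κ (∑ a ∈ s, F a) = ∑ a ∈ s, cl φ κ (F a) := by
  unfold cl
  rw [Finset.sum_comm]
  refine Finset.sum_congr rfl fun c _ => ?_
  rw [Finset.sum_apply]
  split_ifs
  · rfl
  · rw [Finset.sum_const_zero]

open Classical in
lemma cl_nsmul {C : Type v} [Group C] [Fintype C] (φ : C →* G) (κ : ConjClasses G) (n : ℕ)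
    (F : C → V) : cl φ κ (n • F) = n • cl φ κ F := by
  unfold cl
  rw [Finset.smul_sum]
  refine Finset.sum_congr rfl fun c _ => ?_
  rw [Pi.smul_apply]
  split_ifs
  · rfl
  · rw [smul_zero]

open Classical in
lemma cl_aM (S : LogSys.{u, v, w} R V P) {C D : Type v} [CommGroup C] [Fintype C]
    [CommGroup D] [Fintype D] (h1 : P (Nat.card C)) (h2 : P (Nat.card D)) (φ : C →* G)
    (f : D →* C) (hf : Function.Injective f)
    (κ : ConjClasses G) (z : A R D) :
    cl (φ.comp f) κ (S.L D z) = cl φ κ (S.L C (aM f z)) := by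
  unfold cl
  apply Finset.sum_of_injOn f
  · exact hf.injOn
  · intro d _
    exact Finset.mem_coe.2 (Finset.mem_univ _)
  · intro c _ hc
    rw [L_aM_not S h2 h1 f hf, ite_self]
    rintro ⟨d, hd⟩
    exact hc ⟨d, Finset.mem_coe.2 (Finset.mem_univ _), hd⟩
  · intro d _
    rw [L_aM S h2 h1 f hf]
    rfl

open Classical in
theorem main (S : LogSys.{u, v, w} R V P) (hP : ∀ m n : ℕ, m ∣ n → P n → P m)
    {m : ℕ} (C : Fin m → Type v) [∀ j, CommGroup (C j)] [∀ j, Fintype (C j)]
    (hC : ∀ j, P (Nat.card (C j)))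
    (φ : ∀ j, C j →* G) (hφ : ∀ j, Function.Injective (φ j)) (x : ∀ j, A R (C j))
    (hx : ∀ κ : ConjClasses G, ∑ j, cl (φ j) κ (S.L (C j) (x j)) = 0) :
    ∃ (n : ℕ) (_ : 0 < n), n • ∑ j, th (φ j) (x j) = 0 := by
  have : ∀ j, Fintype (Subgroup (C j)) := fun j => Fintype.ofFinite _
  choose M hM z hz hdec using fun j => dec S hP (C j) (hC j) (x j)
  set N := ∏ j, M j with hN
  have hNpos : 0 < N := Finset.prod_pos fun j _ => hM j
  have hdiv : ∀ j, N / M j * M j = N := fun j =>
    Nat.div_mul_cancel (Finset.dvd_prod_of_mem _ (Finset.mem_univ j))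
  let C' : (Σ j, Subgroup (C j)) → Type v := fun a => a.2
  let φ' : ∀ a, C' a →* G := fun a => (φ a.1).comp a.2.subtype
  let z' : ∀ a, A R (C' a) := fun a => (N / M a.1) • z a.1 a.2
  let iG : ∀ a, CommGroup (C' a) := fun a => inferInstanceAs (CommGroup a.2)
  let iF : ∀ a, Fintype (C' a) := fun a => Fintype.ofFinite _
  have hC' : ∀ a, P (Nat.card (C' a)) := fun a =>
    hP _ _ (Subgroup.card_subgroup_dvd_card a.2) (hC a.1)
  have hsum : ∀ j, ∑ D : Subgroup (C j), aM D.subtype (z' ⟨j, D⟩) = N • x j := by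
    intro j
    have h1 : ∀ D ∈ (Finset.univ : Finset (Subgroup (C j))),
        aM D.subtype (z' ⟨j, D⟩) = (N / M j) • aM D.subtype (z j D) := by
      intro D _
      exact map_nsmul (aM D.subtype) (N / M j) (z j D)
    rw [Finset.sum_congr rfl h1, Finset.sum_nsmul, ← hdec j, ← mul_nsmul', hdiv]
  have hA : ∀ a (c : C' a), Subgroup.zpowers c ≠ ⊤ → S.L (C' a) (z' a) c = 0 := by
    rintro ⟨j, D⟩ d hd
    show S.L D ((N / M j) • z j D) d = 0
    rw [map_nsmul, Pi.smul_apply, hz, if_neg hd, smul_zero]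
  have hB : ∀ κ : ConjClasses G, ∑ a ∈ Finset.univ, cl (φ' a) κ (S.L (C' a) (z' a)) = 0 := by
    intro κ
    rw [Fintype.sum_sigma]
    have h1 : ∀ j ∈ (Finset.univ : Finset (Fin m)),
        ∑ D : Subgroup (C j), cl (φ' ⟨j, D⟩) κ (S.L (C' ⟨j, D⟩) (z' ⟨j, D⟩)) =
          N • cl (φ j) κ (S.L (C j) (x j)) := by
      intro j _
      rw [← cl_nsmul, ← map_nsmul, ← hsum j, map_sum, cl_sum]
      refine Finset.sum_congr rfl fun D _ => ?_
      let _ : Fintype D := iF ⟨j, D⟩
      exact cl_aM S (hC j) (hC' ⟨j, D⟩) (φ j) D.subtype D.subtype_injective κ (z' ⟨j, D⟩)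
    rw [Finset.sum_congr rfl h1, ← Finset.smul_sum, hx, smul_zero]
  obtain ⟨n, hn, h⟩ := orb (G := G) S C' hC' φ'
    (fun a => (hφ a.1).comp a.2.subtype_injective) z' hA Finset.univ hB
  refine ⟨n * N, Nat.mul_pos hn hNpos, ?_⟩
  rw [mul_nsmul', Finset.smul_sum, ← h]
  congr 1
  rw [Fintype.sum_sigma]
  refine Finset.sum_congr rfl fun j _ => ?_
  rw [← map_nsmul, ← hsum j, map_sum]
  refine Finset.sum_congr rfl fun D _ => ?_
  exact th_aM _ _ D.subtype 1 (fun c => by simp [φ']) (z' ⟨j, D⟩)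

end F1V

/-- The push forward of a `V`-valued function along `φ` to the conjugacy classes. -/
def pushV {V : Type w} [AddCommGroup V] {C : Type u} {G : Type v} [Group C] [Fintype C] [Group G]
    (φ : C →* G) (f : C → V) : ConjClasses G →₀ V :=
  ∑ c : C, Finsupp.single (ConjClasses.mk (φ c)) (f c)

open Classical in
/-- Module F1V, for finite commutative subgroups: the vanishing of the sum of the logarithms implies
that the sum of the units is torsion in the colimit. -/
theorem LogSys.torsion {R : Type u} [CommRing R] {V : Type w} [AddCommGroup V] {P : ℕ → Prop}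
    (S : LogSys.{u, v, w} R V P) (hP : ∀ m n : ℕ, m ∣ n → P n → P m)
    {G : Type v} [Group G] {m : ℕ} (C : Fin m → FinSub G)
    (hC : ∀ j, IsCyclic (C j).1) [∀ j, Fintype (C j).1]
    (hCP : ∀ j, P (Nat.card (C j).1)) (x : ∀ j, (MonoidAlgebra R (C j).1)ˣ)
    (hsum : let _ : ∀ j, CommGroup (C j).1 := fun j => (hC j).commGroup
      ∑ j, pushV (C j).1.subtype (S.L (C j).1 (Additive.ofMul (x j))) = 0) :
    IsOfFinAddOrder (∑ j, ColimK1.ofSub (R := R) (C j) (K1.unit (x j))) := by
  let iG : ∀ j, CommGroup (C j).1 := fun j => (hC j).commGroup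
  have hF : ∀ j, Finite (C j).1 := fun j => (C j).2
  have hA : ∀ κ : ConjClasses G, ∑ j, F1V.cl (C j).1.subtype κ
      (S.L (C j).1 (Additive.ofMul (x j))) = 0 := by
    intro κ
    have h1 := congrArg (fun F : ConjClasses G →₀ V => F κ) hsum
    simp only [Finsupp.coe_zero, Pi.zero_apply, Finsupp.finsetSum_apply] at h1
    rw [← h1]
    refine Finset.sum_congr rfl fun j _ => ?_
    unfold pushV F1V.cl
    rw [Finsupp.finsetSum_apply]
    refine Finset.sum_congr rfl fun c _ => ?_
    rw [Finsupp.single_apply]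
  obtain ⟨n, hn, h⟩ := F1V.main (G := G) S hP (fun j => ((C j).1 : Type v)) hCP
    (fun j => (C j).1.subtype) (fun j => (C j).1.subtype_injective)
    (fun j => Additive.ofMul (x j)) hA
  rw [isOfFinAddOrder_iff_nsmul_eq_zero]
  refine ⟨n, hn, ?_⟩
  rw [← h]
  congr 1
  refine Finset.sum_congr rfl fun j _ => ?_
  exact (F1.th_subtype (C j) (x j)).symm

end Pool.Agent.Lib.MPb6f35e.WH
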