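import Pool.Agent.Lib.MP_b6f35e_al.P.Gen
import Pool.Agent.Lib.MP_b6f35e_al.P.F1V
import Pool.Agent.Lib.MP_b6f35e_al.WH.F2

/-!
# Module Fin of P (hive 30, MP_b6f35e_al): assembly in characteristic `p`
-/

set_option autoImplicit false

noncomputable section

namespace Pool.Agent.Lib.MPb6f35e.P

open WH WH.Desc WH.F2

universe u v w

/-- LOG (helper90): logarithms for finitely generated coefficient domains of characteristic `p`,
and the relation. -/
def SpecLogP : Prop :=
  ∀ (p : ℕ) [Fact p.Prime] (R : Type u) [CommRing R] [IsDomain R] [CharP R p]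
    [Algebra.FiniteType ℤ R],
    ∃ (V : Type w) (_ : AddCommGroup V) (S : LogSys.{u, v, w} R V (fun n => n.Coprime p)),
      ∀ (G : Type v) [Group G] (m : ℕ) (C : Fin m → Type v) [∀ i, CommGroup (C i)]
        [∀ i, Fintype (C i)] (_ : ∀ i, (Nat.card (C i)).Coprime p) (φ : ∀ i, C i →* G)
        (x : ∀ i, (MonoidAlgebra R (C i))ˣ)
        (_ : IsOfFinAddOrder (QuotientAddGroup.mk' (trivialUnits R G)
          (∑ i, K1.unit (F1.mU R (φ i) (x i))) : Wh R G)),
        ∑ i, WH.pushV (φ i) (S.L (C i) (Additive.ofMul (x i))) = 0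

theorem mainP_of (hGen : SpecGenP.{u, v}) (hLog : SpecLogP.{u, v, w}) : SpecMainP.{u, v} := by
  intro p _ R _ _ G _ x hx
  haveI := FinQuotP.dom (p := p) (R := R)
  haveI := FinQuotP.char (p := p) (R := R)
  obtain ⟨m, hm, k, C, hC, hCp, y, hy⟩ := hGen p R G x
  haveI : ∀ j, Finite (C j).1 := fun j => (C j).2
  letI : ∀ j, Fintype (C j).1 := fun j => Fintype.ofFinite _
  have h1 : IsOfFinAddOrder (QuotientAddGroup.mk' (trivialUnits R G)
      (∑ j, K1.unit (Units.map (MonoidAlgebra.mapDomainRingHom R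
        (C j).1.subtype).toMonoidHom (y j))) : Wh R G) := by
    rw [← toWh_sum, ← hy, map_nsmul]
    exact hx.nsmul
  obtain ⟨S, z, hz, hz'⟩ := specDSC R G k (fun j => (C j).1) (fun j => (C j).1.subtype) y h1
  haveI : CharP (Adj R S) p := RingHom.charP (adjVal R S) Subtype.val_injective p
  haveI : Algebra.FiniteType ℤ (Adj R S) := (Subalgebra.fg_iff_finiteType _).mp ⟨S, rfl⟩
  letI : ∀ j, CommGroup (C j).1 := fun j => @IsCyclic.commGroup _ _ (hC j)
  obtain ⟨V, _, T, hT⟩ := hLog p (Adj R S)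
  have h2 := hT G k (fun j => (C j).1) hCp (fun j => (C j).1.subtype) z hz'
  have h3 : IsOfFinAddOrder (∑ j, ColimK1.ofSub (R := Adj R S) (C j) (K1.unit (z j))) :=
    T.torsion (fun m n hmn hn => Nat.Coprime.coprime_dvd_left hmn hn) C hC hCp z h2
  have h6 : IsOfFinAddOrder (mapR (adjVal R S) G
      (∑ j, ColimK1.ofSub (R := Adj R S) (C j) (K1.unit (z j)))) :=
    AddMonoidHom.isOfFinAddOrder _ h3
  have h7 : mapR (adjVal R S) G (∑ j, ColimK1.ofSub (R := Adj R S) (C j) (K1.unit (z j))) =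
      m • x := by
    rw [hy, map_sum]
    refine Finset.sum_congr rfl (fun j _ => ?_)
    rw [mapR_ofSub, Desc.map_unit]
    congr 2
    exact hz j
  rw [h7] at h6
  exact fin_of_nsmul hm h6

end Pool.Agent.Lib.MPb6f35e.P
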