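import Mathlib

/-!
# Matrix points (hive 30, MP_b6f35e_al, line P: fields of characteristic p)

`K` is the algebraic closure of `F_p`, `C` a finite commutative group of order prime to `p`, `R` a
finitely generated domain of characteristic `p`, `x` a unit of `R[C]` of infinite order.  Then there
are a character `χ : C → K^*`, a number `d ≥ 1` and a ring homomorphism `h : R → M_d(K((t)))` with
`Σ_c χ(c) h(x_c) = t`.
-/

set_option autoImplicit false

noncomputable section

namespace Pool.Agent.Lib.MPb6f35e.WH.P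

universe u v w z

open Finset

section ev

variable {R : Type u} [CommRing R] {C : Type v} [CommGroup C] {B : Type w} [Ring B]

/-- the ring homomorphism `R[C] → B` given by `h : R → B` and `χ : C → B`, if the images commute -/
def ev (h : R →+* B) (χ : C →* B) (hc : ∀ r c, Commute (h r) (χ c)) : MonoidAlgebra R C →+* B :=
  MonoidAlgebra.liftNCRingHom h χ hc

lemma ev_single (h : R →+* B) (χ : C →* B) (hc : ∀ r c, Commute (h r) (χ c)) (c : C) (r : R) :
    ev h χ hc (MonoidAlgebra.single c r) = h r * χ c := by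
  show MonoidAlgebra.liftNC (h : R →+ B) χ (MonoidAlgebra.single c r) = _
  exact MonoidAlgebra.liftNC_single _ _ _ _

lemma ev_apply [Fintype C] (h : R →+* B) (χ : C →* B) (hc : ∀ r c, Commute (h r) (χ c))
    (y : MonoidAlgebra R C) : ev h χ hc y = ∑ c, h (y.coeff c) * χ c := by
  induction y using MonoidAlgebra.induction_linear with
  | zero => simp
  | add a b ha hb =>
    rw [map_add, ha, hb, ← Finset.sum_add_distrib]
    refine Finset.sum_congr rfl fun c _ => ?_
    rw [MonoidAlgebra.coeff_add, Finsupp.add_apply, map_add, add_mul]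
  | single g r =>
    classical
    rw [ev_single, Finset.sum_eq_single g]
    · rw [MonoidAlgebra.coeff_single, Finsupp.single_eq_same]
    · intro c _ hcg
      rw [MonoidAlgebra.coeff_single, Finsupp.single_eq_of_ne hcg, map_zero, zero_mul]
    · intro h0
      exact absurd (mem_univ _) h0

end ev

section fourier

variable {R : Type u} [CommRing R] {C : Type v} [CommGroup C] [Finite C] {K : Type z} [Field K]
  [IsAlgClosed K] {Ω : Type w} [Field Ω] (e : K →+* Ω) (ι : R →+* Ω)

/-- the character with values in `Ω` -/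
def chm (χ : C →* Kˣ) : C →* Ω := (e : K →* Ω).comp ((Units.coeHom K).comp χ)

omit [Finite C] [IsAlgClosed K] in
lemma chm_apply (χ : C →* Kˣ) (c : C) : chm e χ c = e (χ c : K) := rfl

/-- Fourier inversion -/
lemma coeff_eq_zero (hC : (Nat.card C : K) ≠ 0) (y : MonoidAlgebra R C)
    (hy : ∀ χ : C →* Kˣ, ev ι (chm e χ) (fun _ _ => Commute.all _ _) y = 0) (c₀ : C) :
    ι (y.coeff c₀) = 0 := by
  classical
  have : Fintype C := Fintype.ofFinite C
  have hexp : (Monoid.exponent C : K) ≠ 0 := by
    intro h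
    apply hC
    obtain ⟨k, hk⟩ := Group.exponent_dvd_nat_card (G := C)
    rw [hk, Nat.cast_mul, h, zero_mul]
  have : NeZero (Monoid.exponent C : K) := ⟨hexp⟩
  have hroots : HasEnoughRootsOfUnity K (Monoid.exponent C) := inferInstance
  have hfin : Finite (C →* Kˣ) := (CommGroup.monoidHom_mulEquiv_of_hasEnoughRootsOfUnity C K).some.toEquiv.symm.finite_iff.1 inferInstance
  have : Fintype (C →* Kˣ) := Fintype.ofFinite _
  have hcard : Fintype.card (C →* Kˣ) = Nat.card C := by
    rw [← Nat.card_eq_fintype_card, CommGroup.card_monoidHom_of_hasEnoughRootsOfUnity]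
  -- orthogonality
  have horth : ∀ c : C, c ≠ 1 → ∑ χ : C →* Kˣ, (χ c : K) = 0 := by
    intro c hc
    obtain ⟨φ, hφ⟩ := CommGroup.exists_apply_ne_one_of_hasEnoughRootsOfUnity C K hc
    let f : (C →* Kˣ) →* K := (Units.coeHom K).comp
      { toFun := fun χ => χ c, map_one' := rfl, map_mul' := fun _ _ => rfl }
    have hf : f ≠ 1 := by
      intro h
      apply hφ
      have h1 := DFunLike.congr_fun h φ
      exact Units.ext h1
    exact sum_hom_units_eq_zero f hf
  have h1 : ∑ χ : C →* Kˣ, e (χ c₀⁻¹ : K) * ev ι (chm e χ) (fun _ _ => Commute.all _ _) y = 0 :=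
    Finset.sum_eq_zero fun χ _ => by rw [hy, mul_zero]
  have h2 : ∑ χ : C →* Kˣ, e (χ c₀⁻¹ : K) * ev ι (chm e χ) (fun _ _ => Commute.all _ _) y =
      ∑ c : C, ι (y.coeff c) * e (∑ χ : C →* Kˣ, (χ (c * c₀⁻¹) : K)) := by
    simp only [ev_apply, Finset.mul_sum, map_sum]
    rw [Finset.sum_comm]
    refine Finset.sum_congr rfl fun c _ => Finset.sum_congr rfl fun χ _ => ?_
    rw [chm_apply, map_mul, Units.val_mul, map_mul]
    ring
  rw [h2, Finset.sum_eq_single c₀] at h1
  · rw [mul_inv_cancel] at h1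
    simp only [map_one, Units.val_one, Finset.sum_const, Finset.card_univ, nsmul_eq_mul, mul_one]
      at h1
    rw [hcard, map_natCast] at h1
    rcases mul_eq_zero.1 h1 with h3 | h3
    · exact h3
    · exfalso
      apply hC
      apply e.injective
      rw [map_natCast, h3, map_zero]
  · intro c _ hc
    rw [horth, map_zero, mul_zero]
    intro h
    exact hc (mul_inv_eq_one.1 h)
  · intro h
    exact absurd (mem_univ _) h

end fourier

section laurent

/-- polynomials as Laurent series -/
def Lp (K : Type u) [Field K] : Polynomial K →+* LaurentSeries K :=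
  (HahnSeries.ofPowerSeries ℤ K).comp Polynomial.coeToPowerSeries.ringHom

lemma Lp_injective (K : Type u) [Field K] : Function.Injective (Lp K) := by
  intro a b h
  exact Polynomial.coe_injective K (HahnSeries.ofPowerSeries_injective h)

/-- rational functions as Laurent series -/
def Lr (K : Type u) [Field K] : RatFunc K →+* LaurentSeries K :=
  IsFractionRing.lift (A := Polynomial K) (Lp_injective K)

lemma Lr_algebraMap (K : Type u) [Field K] (q : Polynomial K) :
    Lr K (algebraMap (Polynomial K) (RatFunc K) q) = Lp K q :=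
  IsFractionRing.lift_algebraMap (Lp_injective K) q

lemma Lr_X (K : Type u) [Field K] :
    Lr K RatFunc.X = (HahnSeries.single (1 : ℤ) (1 : K) : LaurentSeries K) := by
  rw [← RatFunc.algebraMap_X, Lr_algebraMap]
  show HahnSeries.ofPowerSeries ℤ K ((Polynomial.X : Polynomial K) : PowerSeries K) = _
  rw [Polynomial.coe_X, PowerSeries.coe_X]

lemma Lr_C (K : Type u) [Field K] (k : K) :
    Lr K (RatFunc.C k) = (HahnSeries.C k : LaurentSeries K) := by
  rw [← RatFunc.algebraMap_C, Lr_algebraMap]
  show HahnSeries.ofPowerSeries ℤ K ((Polynomial.C k : Polynomial K) : PowerSeries K) = _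
  rw [Polynomial.coe_C, PowerSeries.coe_C]

end laurent

section tor

variable {p : ℕ} [Fact p.Prime]

/-- a nonzero element of a field which is algebraic over `F_p` has finite order -/
lemma exists_pow_eq_one {Ω : Type w} [Field Ω] [Algebra (ZMod p) Ω] (a : Ω) (ha : a ≠ 0)
    (h : IsAlgebraic (ZMod p) a) : ∃ n : ℕ, 0 < n ∧ a ^ n = 1 := by
  have hint : IsIntegral (ZMod p) a := h.isIntegral
  have hfd : FiniteDimensional (ZMod p) (IntermediateField.adjoin (ZMod p) {a}) :=
    IntermediateField.adjoin.finiteDimensional hint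
  have hfin : Finite (IntermediateField.adjoin (ZMod p) {a}) :=
    Module.finite_of_finite (ZMod p)
  let b : (IntermediateField.adjoin (ZMod p) {a}) :=
    ⟨a, IntermediateField.mem_adjoin_simple_self (ZMod p) a⟩
  have hb : b ≠ 0 := fun h => ha (congrArg Subtype.val h)
  obtain ⟨n, hn, h1⟩ := (isOfFinOrder_of_finite (Units.mk0 b hb)).exists_pow_eq_one
  refine ⟨n, hn, ?_⟩
  have h2 := congrArg (fun u : (IntermediateField.adjoin (ZMod p) {a})ˣ => ((u : IntermediateField.adjoin (ZMod p) {a}) : Ω)) h1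
  simpa using h2

end tor

section point

variable {p : ℕ} [Fact p.Prime]

/-- the algebraic closure of `F_p` -/
abbrev KK (p : ℕ) [Fact p.Prime] : Type := AlgebraicClosure (ZMod p)

/-- a character is transcendental at a unit of infinite order -/
lemma exists_transcendental {R : Type u} [CommRing R] {C : Type v} [CommGroup C] [Finite C]
    (hC : Nat.Coprime p (Nat.card C)) {Ω : Type w} [Field Ω] [Algebra (ZMod p) Ω]
    (e : KK p →+* Ω) (ι : R →+* Ω) (hι : Function.Injective ι) (x : (MonoidAlgebra R C)ˣ)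
    (hx : ¬ IsOfFinOrder x) :
    ∃ χ : C →* (KK p)ˣ, ¬ IsAlgebraic (ZMod p)
      (ev ι (chm e χ) (fun _ _ => Commute.all _ _) (x : MonoidAlgebra R C)) := by
  classical
  by_contra hcon
  push Not at hcon
  have hCK : (Nat.card C : KK p) ≠ 0 := by
    intro h
    rw [CharP.cast_eq_zero_iff (KK p) p] at h
    exact (Nat.Prime.coprime_iff_not_dvd (Fact.out : p.Prime)).1 hC h
  have : Fintype C := Fintype.ofFinite C
  have hexp : (Monoid.exponent C : KK p) ≠ 0 := by
    intro h
    apply hCK
    obtain ⟨k, hk⟩ := Group.exponent_dvd_nat_card (G := C)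
    rw [hk, Nat.cast_mul, h, zero_mul]
  have : NeZero (Monoid.exponent C : KK p) := ⟨hexp⟩
  have hroots : HasEnoughRootsOfUnity (KK p) (Monoid.exponent C) := inferInstance
  have hfin : Finite (C →* (KK p)ˣ) := (CommGroup.monoidHom_mulEquiv_of_hasEnoughRootsOfUnity C
    (KK p)).some.toEquiv.symm.finite_iff.1 inferInstance
  have : Fintype (C →* (KK p)ˣ) := Fintype.ofFinite _
  have h1 : ∀ χ : C →* (KK p)ˣ, ∃ n : ℕ, 0 < n ∧
      (ev ι (chm e χ) (fun _ _ => Commute.all _ _) (x : MonoidAlgebra R C)) ^ n = 1 := by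
    intro χ
    apply exists_pow_eq_one _ _ (hcon χ)
    exact (x.isUnit.map (ev ι (chm e χ) (fun _ _ => Commute.all _ _))).ne_zero
  choose n hn hn1 using h1
  apply hx
  rw [isOfFinOrder_iff_pow_eq_one]
  refine ⟨∏ χ, n χ, Finset.prod_pos fun χ _ => hn χ, ?_⟩
  apply Units.ext
  rw [Units.val_pow_eq_pow_val, Units.val_one, ← sub_eq_zero]
  have h2 := coeff_eq_zero e ι hCK ((x : MonoidAlgebra R C) ^ (∏ χ, n χ) - 1) (by
    intro χ
    obtain ⟨k, hk⟩ := Finset.dvd_prod_of_mem n (Finset.mem_univ χ)
    rw [map_sub, map_pow, map_one, hk, pow_mul, hn1, one_pow, sub_self])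
  apply MonoidAlgebra.coeffAddEquiv.injective
  ext c
  exact hι ((h2 c).trans (map_zero ι).symm)

/-- the matrix point, factoring through a field -/
theorem exists_point' {R : Type u} [CommRing R] [IsDomain R] [CharP R p] [Algebra.FiniteType ℤ R]
    {C : Type v} [CommGroup C] [Fintype C] (hC : Nat.Coprime p (Nat.card C))
    (x : (MonoidAlgebra R C)ˣ) (hx : ¬ IsOfFinOrder x) :
    ∃ (d : ℕ) (_ : 0 < d) (χ : C →* (KK p)ˣ) (L : Type) (_ : Field L) (h₁ : R →+* L)
      (h₂ : L →+* Matrix (Fin d) (Fin d) (LaurentSeries (KK p))),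
      ∑ c : C, (HahnSeries.C (χ c : KK p) : LaurentSeries (KK p)) •
        (h₂.comp h₁) ((x : MonoidAlgebra R C).coeff c) =
      (HahnSeries.single (1 : ℤ) (1 : KK p) : LaurentSeries (KK p)) •
        (1 : Matrix (Fin d) (Fin d) (LaurentSeries (KK p))) := by
  classical
  let Ω := AlgebraicClosure (FractionRing R)
  have hchar : CharP Ω p := by
    have : CharP (FractionRing R) p := charP_of_injective_algebraMap
      (IsFractionRing.injective R (FractionRing R)) p
    exact charP_of_injective_algebraMap (algebraMap (FractionRing R) Ω).injective p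
  let _ : Algebra (ZMod p) Ω := ZMod.algebra Ω p
  let ι : R →+* Ω := (algebraMap (FractionRing R) Ω).comp (algebraMap R (FractionRing R))
  have hι : Function.Injective ι :=
    (algebraMap (FractionRing R) Ω).injective.comp (IsFractionRing.injective R (FractionRing R))
  let eA : KK p →ₐ[ZMod p] Ω := IsAlgClosed.lift
  let e : KK p →+* Ω := eA.toRingHom
  obtain ⟨χ, hχ⟩ := exists_transcendental hC e ι hι x hx
  set a : Ω := ev ι (chm e χ) (fun _ _ => Commute.all _ _) (x : MonoidAlgebra R C) with ha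
  let _ : Algebra (KK p) Ω := e.toAlgebra
  have : IsScalarTower (ZMod p) (KK p) Ω := IsScalarTower.of_algebraMap_eq fun z =>
    (eA.commutes z).symm
  have hta : Function.Injective (Polynomial.aeval (R := KK p) a) := by
    rw [← transcendental_iff_injective]
    intro h
    exact hχ (h.restrictScalars (ZMod p))
  have hta' : Function.Injective ((Polynomial.aeval (R := KK p) a).toRingHom) := hta
  let g : RatFunc (KK p) →+* Ω := IsFractionRing.lift (A := Polynomial (KK p)) hta'
  have hgp : ∀ q : Polynomial (KK p), g (algebraMap (Polynomial (KK p)) (RatFunc (KK p)) q) =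
      Polynomial.aeval (R := KK p) a q := fun q =>
    IsFractionRing.lift_algebraMap hta' q
  have hgC : ∀ k : KK p, g (RatFunc.C k) = e k := by
    intro k
    rw [← RatFunc.algebraMap_C, hgp, Polynomial.aeval_C]
    rfl
  have hgX : g RatFunc.X = a := by
    rw [← RatFunc.algebraMap_X, hgp, Polynomial.aeval_X]
  let _ : Algebra (RatFunc (KK p)) Ω := g.toAlgebra
  obtain ⟨S, hS⟩ := (Algebra.FiniteType.out : (⊤ : Subalgebra ℤ R).FG)
  let B : Subalgebra (RatFunc (KK p)) Ω :=
    Algebra.adjoin (RatFunc (KK p)) ((S.image ι : Finset Ω) : Set Ω)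
  have hBf : Algebra.FiniteType (RatFunc (KK p)) B :=
    (Subalgebra.fg_iff_finiteType B).1 (Subalgebra.fg_adjoin_finset _)
  have hιB : ∀ r : R, ι r ∈ B := by
    intro r
    have hr : r ∈ Algebra.adjoin ℤ (S : Set R) := by rw [hS]; trivial
    induction hr using Algebra.adjoin_induction with
    | mem y hy =>
      apply Algebra.subset_adjoin
      exact Finset.mem_coe.2 (Finset.mem_image_of_mem ι (Finset.mem_coe.1 hy))
    | algebraMap z =>
      rw [eq_intCast (algebraMap ℤ R) z, map_intCast]
      exact intCast_mem B z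
    | add y z _ _ hy hz => rw [map_add]; exact B.add_mem hy hz
    | mul y z _ _ hy hz => rw [map_mul]; exact B.mul_mem hy hz
  obtain ⟨m, hm⟩ := Ideal.exists_maximal B
  let _ := Ideal.Quotient.field m
  have hfin : Module.Finite (RatFunc (KK p)) (B ⧸ m) :=
    finite_of_finite_type_of_isJacobsonRing (RatFunc (KK p)) (B ⧸ m)
  let b := Module.finBasis (RatFunc (KK p)) (B ⧸ m)
  let h0 : R →+* B := ι.codRestrict B hιB
  let L : RatFunc (KK p) →+* LaurentSeries (KK p) := Lr (KK p)
  have hsmall : Small.{0} (B ⧸ m) := small_of_injective (Algebra.leftMulMatrix_injective b)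
  let h₁ : R →+* Shrink.{0} (B ⧸ m) :=
    (Shrink.ringEquiv (B ⧸ m)).symm.toRingHom.comp ((Ideal.Quotient.mk m).comp h0)
  let h₂ : Shrink.{0} (B ⧸ m) →+* Matrix (Fin (Module.finrank (RatFunc (KK p)) (B ⧸ m)))
      (Fin (Module.finrank (RatFunc (KK p)) (B ⧸ m))) (LaurentSeries (KK p)) :=
    (L.mapMatrix.comp (Algebra.leftMulMatrix b).toRingHom).comp
      (Shrink.ringEquiv (B ⧸ m)).toRingHom
  let h : R →+* Matrix (Fin (Module.finrank (RatFunc (KK p)) (B ⧸ m)))
      (Fin (Module.finrank (RatFunc (KK p)) (B ⧸ m))) (LaurentSeries (KK p)) :=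
    L.mapMatrix.comp ((Algebra.leftMulMatrix b).toRingHom.comp ((Ideal.Quotient.mk m).comp h0))
  have hh : h₂.comp h₁ = h := by
    ext1 r
    show (L.mapMatrix.comp (Algebra.leftMulMatrix b).toRingHom)
      (Shrink.ringEquiv (B ⧸ m) ((Shrink.ringEquiv (B ⧸ m)).symm (Ideal.Quotient.mk m (h0 r)))) = _
    rw [RingEquiv.apply_symm_apply]
    rfl
  refine ⟨_, Module.finrank_pos, χ, Shrink.{0} (B ⧸ m), inferInstance, h₁, h₂, ?_⟩
  rw [hh]
  have hC' : ∀ k : KK p, (HahnSeries.C k : LaurentSeries (KK p)) = L (RatFunc.C k) :=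
    fun k => (Lr_C (KK p) k).symm
  have hX' : (HahnSeries.single (1 : ℤ) (1 : KK p) : LaurentSeries (KK p)) = L RatFunc.X :=
    (Lr_X (KK p)).symm
  have hs : ∀ (k : RatFunc (KK p)) (A : Matrix (Fin (Module.finrank (RatFunc (KK p)) (B ⧸ m)))
      (Fin (Module.finrank (RatFunc (KK p)) (B ⧸ m))) (RatFunc (KK p))),
      L k • L.mapMatrix A = L.mapMatrix (k • A) := by
    intro k A
    ext i j
    simp [Matrix.smul_apply]
  have key : ∑ c : C, (RatFunc.C (χ c : KK p)) • h0 ((x : MonoidAlgebra R C).coeff c) =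
      (RatFunc.X : RatFunc (KK p)) • (1 : B) := by
    apply Subtype.ext
    rw [AddSubmonoidClass.coe_finsetSum]
    show ∑ c : C, g (RatFunc.C (χ c : KK p)) * ι ((x : MonoidAlgebra R C).coeff c) =
      g RatFunc.X * 1
    rw [hgX, mul_one, ha, ev_apply]
    refine Finset.sum_congr rfl fun c _ => ?_
    rw [hgC, chm_apply, mul_comm]
  have key2 : ∀ c : C, (HahnSeries.C (χ c : KK p) : LaurentSeries (KK p)) •
      h ((x : MonoidAlgebra R C).coeff c) = L.mapMatrix (Algebra.leftMulMatrix b
        (Ideal.Quotient.mk m ((RatFunc.C (χ c : KK p)) • h0 ((x : MonoidAlgebra R C).coeff c)))) := by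
    intro c
    rw [hC']
    show L _ • L.mapMatrix _ = _
    rw [hs]
    congr 1
    exact (map_smul (Algebra.leftMulMatrix b) (RatFunc.C (χ c : KK p))
      (Ideal.Quotient.mk m (h0 ((x : MonoidAlgebra R C).coeff c)))).symm
  rw [Finset.sum_congr rfl fun c _ => key2 c, ← map_sum, ← map_sum, ← map_sum, key, hX']
  have h9 : (Ideal.Quotient.mk m ((RatFunc.X : RatFunc (KK p)) • (1 : B))) =
      (RatFunc.X : RatFunc (KK p)) • (1 : B ⧸ m) := rfl
  rw [h9, map_smul, map_one, ← hs, map_one]

/-- the matrix point -/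
theorem exists_point {R : Type u} [CommRing R] [IsDomain R] [CharP R p] [Algebra.FiniteType ℤ R]
    {C : Type v} [CommGroup C] [Fintype C] (hC : Nat.Coprime p (Nat.card C))
    (x : (MonoidAlgebra R C)ˣ) (hx : ¬ IsOfFinOrder x) :
    ∃ (d : ℕ) (_ : 0 < d) (χ : C →* (KK p)ˣ)
      (h : R →+* Matrix (Fin d) (Fin d) (LaurentSeries (KK p))),
      ∑ c : C, (HahnSeries.C (χ c : KK p) : LaurentSeries (KK p)) •
        h ((x : MonoidAlgebra R C).coeff c) =
      (HahnSeries.single (1 : ℤ) (1 : KK p) : LaurentSeries (KK p)) •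
        (1 : Matrix (Fin d) (Fin d) (LaurentSeries (KK p))) := by
  obtain ⟨d, hd, χ, L, _, h₁, h₂, h⟩ := exists_point' hC x hx
  exact ⟨d, hd, χ, h₂.comp h₁, h⟩

end point

end Pool.Agent.Lib.MPb6f35e.WH.P
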