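import Pool.Agent.Lib.MP_b6f35e_al.P.PA
import Mathlib.RingTheory.WittVector.Complete
import Mathlib.RingTheory.WittVector.Domain
import Mathlib.RingTheory.WittVector.Teichmuller
import Mathlib.RingTheory.LaurentSeries

/-!
# Hive 30, line P, module RDM (MP_b6f35e_al)

The residue data `rd` for `T = M_δ(W((s)))`, `E = M_δ(K((s)))`, `M = W`, where `W` are the Witt
vectors of the perfect field `K` of characteristic `p`, `θ = s d/ds` on the entries, `ε` the
coefficient of `s^0` of the trace; the Teichmüller lift of the characters; the scalar matrix `s`.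
-/

set_option autoImplicit false

noncomputable section

namespace Pool.Agent.Lib.MPb6f35e.WH

namespace RDM

open WittVector PA

universe u v w

/-! ### Laurent series -/

section laurent

variable {A : Type u} {B : Type v} [CommRing A] [CommRing B]

/-- coefficientwise map -/
def mapL (f : A →+* B) : LaurentSeries A →+* LaurentSeries B where
  toFun x := x.map f
  map_one' := by
    ext i
    rw [HahnSeries.map_coeff, HahnSeries.coeff_one, HahnSeries.coeff_one]
    split_ifs
    · exact map_one f
    · exact map_zero f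
  map_mul' x y := HahnSeries.map_mul (f : A →ₙ+* B)
  map_zero' := by
    ext i
    exact map_zero f
  map_add' x y := by
    ext i
    exact map_add f _ _

@[simp] lemma mapL_coeff (f : A →+* B) (x : LaurentSeries A) (i : ℤ) :
    (mapL f x).coeff i = f (x.coeff i) := rfl

/-- `s d/ds` -/
def der : LaurentSeries A →+ LaurentSeries A where
  toFun x := { coeff := fun i => i • x.coeff i
               isPWO_support' := x.isPWO_support'.mono fun i hi h => hi (by simp [h]) }
  map_zero' := by
    ext i
    show i • (0 : LaurentSeries A).coeff i = 0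
    simp
  map_add' x y := by
    ext i
    show i • (x + y).coeff i = i • x.coeff i + i • y.coeff i
    rw [HahnSeries.coeff_add, smul_add]

@[simp] lemma der_coeff (x : LaurentSeries A) (i : ℤ) : (der x).coeff i = i • x.coeff i := rfl

lemma der_support (x : LaurentSeries A) : (der x).support ⊆ x.support := fun i hi h => hi (by
  show i • x.coeff i = 0
  rw [h, smul_zero])

lemma der_mul (x y : LaurentSeries A) : der (x * y) = der x * y + x * der y := by
  ext a
  rw [der_coeff, HahnSeries.coeff_add, HahnSeries.coeff_mul,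
    HahnSeries.coeff_mul_left' x.isPWO_support (der_support x),
    HahnSeries.coeff_mul_right' y.isPWO_support (der_support y), Finset.smul_sum,
    ← Finset.sum_add_distrib]
  refine Finset.sum_congr rfl fun ij hij => ?_
  have h1 : ij.1 + ij.2 = a := (Finset.mem_antidiagonal.1 hij).2.2
  rw [der_coeff, der_coeff, ← h1, add_smul, smul_mul_assoc, mul_smul_comm]

end laurent

/-! ### Witt vectors -/

section witt

variable (p : ℕ) [hp : Fact p.Prime] (K : Type u) [Field K] [CharP K p]

lemma natCast_ne_zero (n : ℕ) (hn : n ≠ 0) : (n : WittVector p K) ≠ 0 := by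
  obtain ⟨a, m, hm, rfl⟩ := Nat.exists_eq_pow_mul_and_not_dvd hn p hp.out.ne_one
  rw [Nat.cast_mul, Nat.cast_pow]
  refine mul_ne_zero (pow_ne_zero _ (WittVector.p_nonzero p K)) fun h => ?_
  have h1 := congrArg (WittVector.constantCoeff (p := p) (R := K)) h
  rw [map_natCast, map_zero, CharP.cast_eq_zero_iff K p] at h1
  exact hm h1

lemma tf (n : ℕ) (hn : n ≠ 0) (y : WittVector p K) (h : n • y = 0) : y = 0 := by
  rw [nsmul_eq_mul] at h
  exact (mul_eq_zero.1 h).resolve_left (natCast_ne_zero p K n hn)

variable [PerfectRing K p]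

lemma exists_dv (x : WittVector p K) (h : WittVector.constantCoeff x = 0) :
    ∃ y : WittVector p K, x = p • y := by
  have h1 : x ∈ RingHom.ker (WittVector.constantCoeff (p := p) (R := K)) := h
  rw [WittVector.ker_constantCoeff, Ideal.mem_span_singleton] at h1
  obtain ⟨y, hy⟩ := h1
  exact ⟨y, by rw [hy, nsmul_eq_mul]⟩

open Classical in
/-- division by `p` -/
def dv (x : WittVector p K) : WittVector p K :=
  if h : WittVector.constantCoeff x = 0 then (exists_dv p K x h).choose else 0

lemma dv_spec (x : WittVector p K) (h : WittVector.constantCoeff x = 0) : x = p • dv p K x := by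
  unfold dv
  rw [dif_pos h]
  exact (exists_dv p K x h).choose_spec

lemma dv_zero : dv p K 0 = 0 :=
  tf p K p hp.out.ne_zero _ (dv_spec p K 0 (map_zero _)).symm

omit [CharP K p] [PerfectRing K p] in
lemma cg_iff (m : ℕ) (x y : WittVector p K) :
    Cg p m x y ↔ x - y ∈ (Ideal.span {(p : WittVector p K)}) ^ m • (⊤ : Ideal (WittVector p K)) := by
  rw [smul_eq_mul, Ideal.mul_top, Ideal.span_singleton_pow, Ideal.mem_span_singleton]
  constructor
  · rintro ⟨z, hz⟩
    exact ⟨z, by rw [hz, nsmul_eq_mul, Nat.cast_pow]⟩
  · rintro ⟨z, hz⟩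
    exact ⟨z, by rw [hz, nsmul_eq_mul, Nat.cast_pow]⟩

lemma sep (y : WittVector p K) (h : ∀ m, Cg p m y 0) : y = 0 := by
  apply (WittVector.isAdicCompleteIdealSpanP (p := p) (k := K)).toIsHausdorff.haus y
  intro n
  rw [SModEq.sub_mem]
  exact (cg_iff p K n y 0).1 (h n)

lemma compl (f : ℕ → WittVector p K) (h : ∀ m, Cg p m (f (m + 1)) (f m)) :
    ∃ y, ∀ m, Cg p m y (f m) := by
  have h1 : ∀ m n : ℕ, m ≤ n → Cg p m (f n) (f m) := by
    intro m n hmn
    induction n, hmn using Nat.le_induction with
    | base => exact Cg.refl _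
    | succ n hmn ih => exact ((h n).mono hmn).trans ih
  obtain ⟨L, hL⟩ := (WittVector.isAdicCompleteIdealSpanP (p := p) (k := K)).toIsPrecomplete.prec
    (f := f) (fun {m n} hmn => by
      rw [SModEq.sub_mem]
      exact (cg_iff p K m _ _).1 (h1 m n hmn).symm)
  refine ⟨L, fun m => Cg.symm ?_⟩
  rw [cg_iff, ← SModEq.sub_mem]
  exact hL m

end witt

/-! ### The residue data -/

section data

variable (p : ℕ) [hp : Fact p.Prime] (K : Type u) [Field K] [CharP K p] [PerfectRing K p]
  (δ : Type) [Fintype δ] [DecidableEq δ]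

/-- `M_δ(W((s)))` -/
abbrev TT : Type u := Matrix δ δ (LaurentSeries (WittVector p K))

/-- `M_δ(K((s)))` -/
abbrev EE : Type u := Matrix δ δ (LaurentSeries K)

/-- the residue of the trace -/
def res : TT p K δ →+ WittVector p K :=
  { toFun := fun x => (Matrix.trace x).coeff 0
    map_zero' := by simp
    map_add' := fun x y => by rw [Matrix.trace_add, HahnSeries.coeff_add] }

/-- The residue data. -/
def rd : RD p (TT p K δ) (EE K δ) (WittVector p K) where
  π := (mapL (WittVector.constantCoeff (p := p) (R := K))).mapMatrix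
  surj := by
    intro Y
    refine ⟨Matrix.of fun i j =>
      { coeff := fun n => WittVector.teichmuller p ((Y i j).coeff n)
        isPWO_support' := (Y i j).isPWO_support.mono fun n hn h => hn (by
          show WittVector.teichmuller p ((Y i j).coeff n) = 0
          rw [h, WittVector.teichmuller_zero]) }, ?_⟩
    ext1 i j
    ext n
    exact WittVector.teichmuller_coeff_zero p _
  ker := by
    intro t ht
    refine ⟨Matrix.of fun i j =>
      { coeff := fun n => dv p K ((t i j).coeff n)
        isPWO_support' := (t i j).isPWO_support.mono fun n hn h => hn (by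
          show dv p K ((t i j).coeff n) = 0
          rw [h, dv_zero]) }, ?_⟩
    ext1 i j
    ext1
    funext n
    show (t i j).coeff n = p • dv p K ((t i j).coeff n)
    apply dv_spec
    exact congrArg (fun f : LaurentSeries K => f.coeff n) (congrFun (congrFun ht i) j)
  θ := (der (A := WittVector p K)).mapMatrix (m := δ) (n := δ)
  leib := by
    intro a b
    ext1 i j
    show der ((a * b) i j) = (a.map der * b) i j + (a * b.map der) i j
    rw [Matrix.mul_apply, Matrix.mul_apply, Matrix.mul_apply, map_sum, ← Finset.sum_add_distrib]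
    exact Finset.sum_congr rfl fun k _ => der_mul _ _
  ε := res p K δ
  tr := by
    intro a b
    show (Matrix.trace (a * b)).coeff 0 = (Matrix.trace (b * a)).coeff 0
    rw [Matrix.trace_mul_comm]
  εθ := by
    intro t
    show (Matrix.trace (t.map der)).coeff 0 = 0
    have h1 : Matrix.trace (t.map der) = der (Matrix.trace t) := by
      rw [Matrix.trace, Matrix.trace, map_sum]
      rfl
    rw [h1, der_coeff, zero_smul]
  tf := tf p K
  sep := sep p K
  compl := compl p K

/-! ### The Teichmüller lift of a character -/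

variable {C : Type v} [Group C]

/-- the character with values in the constants of `M_δ(K((s)))` -/
def chE (χ : C →* Kˣ) : C →* EE K δ :=
  (((Matrix.scalar δ).comp (HahnSeries.C : K →+* LaurentSeries K)).toMonoidHom).comp
    ((Units.coeHom K).comp χ)

/-- the Teichmüller lift -/
def chT (χ : C →* Kˣ) : C →* TT p K δ :=
  (((Matrix.scalar δ).comp (HahnSeries.C : WittVector p K →+* LaurentSeries (WittVector p K))
    ).toMonoidHom).comp ((WittVector.teichmuller p).comp ((Units.coeHom K).comp χ))

omit [CharP K p] [PerfectRing K p] in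
lemma chT_apply (χ : C →* Kˣ) (c : C) : chT p K δ χ c =
    Matrix.scalar δ (HahnSeries.C (WittVector.teichmuller p (χ c : K))) := rfl

omit hp [CharP K p] [PerfectRing K p] in
lemma chE_apply (χ : C →* Kˣ) (c : C) : chE K δ χ c =
    Matrix.scalar δ (HahnSeries.C (χ c : K)) := rfl

omit [CharP K p] [PerfectRing K p] in
lemma chT_comm (χ : C →* Kˣ) (c : C) (t : TT p K δ) : Commute t (chT p K δ χ c) :=
  (Matrix.scalar_commute _ (fun _ => Commute.all _ _) t).symm

omit hp [CharP K p] [PerfectRing K p] in
lemma chE_comm (χ : C →* Kˣ) (c : C) (t : EE K δ) : Commute t (chE K δ χ c) :=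
  (Matrix.scalar_commute _ (fun _ => Commute.all _ _) t).symm

lemma π_chT (χ : C →* Kˣ) (c : C) : (rd p K δ).π (chT p K δ χ c) = chE K δ χ c := by
  rw [chT_apply, chE_apply]
  ext1 i j
  show mapL WittVector.constantCoeff (Matrix.scalar δ (HahnSeries.C _) i j) = _
  rw [Matrix.scalar_apply, Matrix.scalar_apply, Matrix.diagonal_apply, Matrix.diagonal_apply]
  split_ifs with h
  · ext n
    rw [mapL_coeff, HahnSeries.C_apply, HahnSeries.C_apply, HahnSeries.coeff_single,
      HahnSeries.coeff_single]
    split_ifs
    · exact WittVector.teichmuller_coeff_zero p _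
    · exact map_zero _
  · exact map_zero _

lemma der_C {A : Type w} [CommRing A] (a : A) : der (HahnSeries.C a : LaurentSeries A) = 0 := by
  ext n
  rw [der_coeff, HahnSeries.C_apply, HahnSeries.coeff_single]
  split_ifs with h
  · rw [h, zero_smul]
    rfl
  · rw [smul_zero]
    rfl

lemma θ_chT (χ : C →* Kˣ) (c : C) : (rd p K δ).θ (chT p K δ χ c) = 0 := by
  rw [chT_apply]
  ext1 i j
  show der (Matrix.scalar δ (HahnSeries.C _) i j) = 0
  rw [Matrix.scalar_apply, Matrix.diagonal_apply]
  split_ifs with h
  · exact der_C _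
  · exact map_zero _

lemma ε_chT (χ : C →* Kˣ) (c : C) (t : TT p K δ) :
    (rd p K δ).ε (chT p K δ χ c * t) = WittVector.teichmuller p (χ c : K) * (rd p K δ).ε t := by
  show (Matrix.trace (chT p K δ χ c * t)).coeff 0 = _ * (Matrix.trace t).coeff 0
  have h1 : Matrix.scalar δ (HahnSeries.C (WittVector.teichmuller p (χ c : K)) :
      LaurentSeries (WittVector p K)) * t =
      (HahnSeries.C (WittVector.teichmuller p (χ c : K)) : LaurentSeries (WittVector p K)) • t := by
    rw [Matrix.scalar_apply, Matrix.smul_eq_diagonal_mul]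
  rw [chT_apply, h1, Matrix.trace_smul, smul_eq_mul, HahnSeries.C_apply]
  exact HahnSeries.coeff_single_zero_mul

lemma ε_chT' (χ : C →* Kˣ) (c : C) (t : TT p K δ) :
    (rd p K δ).ε (t * chT p K δ χ c) = WittVector.teichmuller p (χ c : K) * (rd p K δ).ε t := by
  rw [(rd p K δ).tr, ε_chT]

/-! ### The variable -/

/-- the variable as a unit -/
def sv (A : Type w) [CommRing A] : (LaurentSeries A)ˣ where
  val := HahnSeries.single (1 : ℤ) (1 : A)
  inv := HahnSeries.single (-1 : ℤ) (1 : A)
  val_inv := by rw [HahnSeries.single_mul_single, mul_one, add_neg_cancel]; rfl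
  inv_val := by rw [HahnSeries.single_mul_single, mul_one, neg_add_cancel]; rfl

/-- the scalar matrix of the variable -/
def sT (A : Type w) [CommRing A] : (Matrix δ δ (LaurentSeries A))ˣ :=
  Units.map (Matrix.scalar δ).toMonoidHom (sv A)

lemma sT_val (A : Type w) [CommRing A] : (sT δ A : Matrix δ δ (LaurentSeries A)) =
    (HahnSeries.single (1 : ℤ) (1 : A) : LaurentSeries A) • 1 := by
  show Matrix.scalar δ (HahnSeries.single (1 : ℤ) (1 : A)) = _
  rw [Matrix.scalar_apply, Matrix.smul_one_eq_diagonal]

omit hp [CharP K p] [PerfectRing K p] in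
lemma chE_smul (χ : C →* Kˣ) (c : C) (t : EE K δ) : t * chE K δ χ c =
    (HahnSeries.C (χ c : K) : LaurentSeries K) • t := by
  rw [(chE_comm K δ χ c t).eq, chE_apply, Matrix.scalar_apply, Matrix.smul_eq_diagonal_mul]

lemma π_sT : (rd p K δ).π (sT δ (WittVector p K) : TT p K δ) = (sT δ K : EE K δ) := by
  ext1 i j
  show mapL WittVector.constantCoeff (Matrix.scalar δ (HahnSeries.single (1 : ℤ) 1) i j) =
    Matrix.scalar δ (HahnSeries.single (1 : ℤ) (1 : K)) i j
  rw [Matrix.scalar_apply, Matrix.scalar_apply, Matrix.diagonal_apply, Matrix.diagonal_apply]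
  split_ifs with h
  · ext n
    rw [mapL_coeff, HahnSeries.coeff_single, HahnSeries.coeff_single]
    split_ifs
    · exact map_one _
    · exact map_zero _
  · exact map_zero _

lemma θ_sT : (rd p K δ).θ (sT δ (WittVector p K) : TT p K δ) = (sT δ (WittVector p K) : TT p K δ) := by
  ext1 i j
  show der (Matrix.scalar δ (HahnSeries.single (1 : ℤ) 1) i j) =
    Matrix.scalar δ (HahnSeries.single (1 : ℤ) 1) i j
  rw [Matrix.scalar_apply, Matrix.diagonal_apply]
  split_ifs with h
  · ext1
    funext n
    rw [der_coeff, HahnSeries.coeff_single]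
    split_ifs with h
    · rw [h, one_smul]
    · rw [smul_zero]
  · exact map_zero _

/-- The residue of `s⁻¹ ds` is the size of the matrices. -/
lemma ε_sT : (rd p K δ).ε (((sT δ (WittVector p K))⁻¹ : (TT p K δ)ˣ) *
    (rd p K δ).θ (sT δ (WittVector p K) : TT p K δ)) = (Fintype.card δ : WittVector p K) := by
  rw [θ_sT, Units.inv_mul]
  show (Matrix.trace (1 : TT p K δ)).coeff 0 = _
  rw [Matrix.trace_one, ← map_natCast (HahnSeries.C : WittVector p K →+* LaurentSeries _),
    HahnSeries.C_apply, HahnSeries.coeff_single, if_pos rfl]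

end data

end RDM

end Pool.Agent.Lib.MPb6f35e.WH
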