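import Pool.Agent.Lib.MP_b6f35e_al.P.Log1
import Pool.Agent.Lib.MP_b6f35e_al.P.Pt
import Pool.Agent.Lib.MP_b6f35e_al.P.RDM
import Pool.Agent.Lib.MP_b6f35e_al.P.Fin

/-!
# Hive 30, line P, module Log: the system of logarithms in characteristic `p`  (MP_b6f35e_al)

Index set: the ring homomorphisms `h : R → M_n(K((s)))`, `K` the algebraic closure of `F_p`, which
factor through a field.  Values in the Witt vectors of `K`.
-/

set_option autoImplicit false

noncomputable section

namespace Pool.Agent.Lib.MPb6f35e.P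

open WH WH.PA WH.P

universe u v w

/-- The index set: matrix points which factor through a field. -/
structure Idx (p : ℕ) [Fact p.Prime] (R : Type u) [CommRing R] : Type u where
  /-- the size -/
  n : ℕ
  /-- the point -/
  h : R →+* Matrix (Fin n) (Fin n) (LaurentSeries (KK p))
  fac : ∃ (L : Type) (_ : Field L) (h₁ : R →+* L)
    (h₂ : L →+* Matrix (Fin n) (Fin n) (LaurentSeries (KK p))), h = h₂.comp h₁

section one

variable {p : ℕ} [Fact p.Prime] {R : Type u} [CommRing R] (i : Idx p R)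

/-- The logarithm for one index. -/
def lgI (C : Type v) [Group C] : Additive (MonoidAlgebra R C)ˣ →+ (C → WittVector p (KK p)) :=
  Log.lg (RDM.rd p (KK p) (Fin i.n)) i.h C

lemma lgI_map {C C' : Type v} [CommGroup C] [CommGroup C'] [Finite C] (f : C →* C')
    (hf : Function.Injective f) (x : (MonoidAlgebra R C)ˣ) (c : C) :
    lgI i C' (Additive.ofMul (F1.mU R f x)) (f c) = lgI i C (Additive.ofMul x) c :=
  Log.lg_map (RDM.rd p (KK p) (Fin i.n)) i.h f hf x c

lemma lgI_map_not {C C' : Type v} [CommGroup C] [CommGroup C'] [Finite C] (f : C →* C')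
    (x : (MonoidAlgebra R C)ˣ) (c' : C') (hc : c' ∉ Set.range f) :
    lgI i C' (Additive.ofMul (F1.mU R f x)) c' = 0 :=
  Log.lg_map_not (RDM.rd p (KK p) (Fin i.n)) i.h f x c' hc

lemma lgI_norm {C : Type v} [CommGroup C] [Finite C] (D : Subgroup C)
    (x : (MonoidAlgebra R C)ˣ) (y : D) :
    lgI i D (Additive.ofMul (L2.nrm R D x)) y = D.index • lgI i C (Additive.ofMul x) (y : C) := by
  obtain ⟨n, h, L, hL, h₁, h₂, rfl⟩ := i
  exact Log.lg_norm (RDM.rd p (KK p) (Fin n)) h₁ h₂ D x y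

open Classical in
lemma lgI_relation {G : Type v} [Group G] {m : ℕ} (C : Fin m → Type v) [∀ i, CommGroup (C i)]
    [∀ i, Fintype (C i)] (φ : ∀ i, C i →* G) (x : ∀ i, (MonoidAlgebra R (C i))ˣ)
    (hx : IsOfFinAddOrder (QuotientAddGroup.mk' (trivialUnits R G)
      (∑ i, K1.unit (F1.mU R (φ i) (x i))) : Wh R G)) (κ : ConjClasses G) :
    ∑ j, ∑ c : C j, (if ConjClasses.mk (φ j c) = κ then
      lgI i (C j) (Additive.ofMul (x j)) c else 0) = 0 :=
  Log.relation (RDM.rd p (KK p) (Fin i.n)) i.h C φ x hx κ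

end one

lemma lgI_detect {p : ℕ} [Fact p.Prime] {R : Type u} [CommRing R] [IsDomain R] [CharP R p]
    [Algebra.FiniteType ℤ R] {C : Type v} [CommGroup C] [Finite C] (hC : (Nat.card C).Coprime p)
    (x : (MonoidAlgebra R C)ˣ) (hx : ∀ (i : Idx p R) (c : C), lgI i C (Additive.ofMul x) c = 0) :
    IsOfFinOrder x := by
  by_contra hfin
  have : Fintype C := Fintype.ofFinite C
  obtain ⟨n, hn, χ, L, hL, h₁, h₂, hs⟩ := exists_point' hC.symm x hfin
  have h1 : ∑ c : C, (h₂.comp h₁) ((x : MonoidAlgebra R C).coeff c) * RDM.chE (KK p) (Fin n) χ c =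
      (RDM.rd p (KK p) (Fin n)).π (RDM.sT (Fin n) (WittVector p (KK p))) := by
    rw [RDM.π_sT, RDM.sT_val, ← hs]
    exact Finset.sum_congr rfl fun c _ => RDM.chE_smul (KK p) (Fin n) χ c _
  have h2 : (RDM.rd p (KK p) (Fin n)).ε
      (((RDM.sT (Fin n) (WittVector p (KK p)))⁻¹ : (RDM.TT p (KK p) (Fin n))ˣ) *
      (RDM.rd p (KK p) (Fin n)).θ (RDM.sT (Fin n) (WittVector p (KK p)) :
        RDM.TT p (KK p) (Fin n))) ≠ 0 := by
    rw [RDM.ε_sT, Fintype.card_fin]
    exact RDM.natCast_ne_zero p (KK p) n hn.ne'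
  obtain ⟨c, hc⟩ := Log.detect (RDM.rd p (KK p) (Fin n)) (h₂.comp h₁) (RDM.chT p (KK p) (Fin n) χ)
    (fun a c => RDM.chT_comm p (KK p) (Fin n) χ c a) (RDM.θ_chT p (KK p) (Fin n) χ)
    (fun c => AddMonoidHom.mulLeft (WittVector.teichmuller p (χ c : KK p)))
    (fun t c => RDM.ε_chT' p (KK p) (Fin n) χ c t) (RDM.chE (KK p) (Fin n) χ)
    (fun a c => RDM.chE_comm (KK p) (Fin n) χ c a) (RDM.π_chT p (KK p) (Fin n) χ) x
    (RDM.sT (Fin n) (WittVector p (KK p))) h1 h2
  exact hc (hx ⟨n, h₂.comp h₁, L, hL, h₁, h₂, rfl⟩ c)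

/-- All logarithms together. -/
def lgA (p : ℕ) [Fact p.Prime] (R : Type u) [CommRing R] (C : Type v) [Group C] :
    Additive (MonoidAlgebra R C)ˣ →+ (C → (Idx p R → WittVector p (KK p))) where
  toFun x c i := lgI i C x c
  map_zero' := by
    funext c i
    exact congrFun (map_zero (lgI i C)) c
  map_add' x y := by
    funext c i
    exact congrFun (map_add (lgI i C) x y) c

lemma lgA_apply (p : ℕ) [Fact p.Prime] (R : Type u) [CommRing R] (C : Type v) [Group C]
    (x : Additive (MonoidAlgebra R C)ˣ) (c : C) (i : Idx p R) :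
    lgA p R C x c i = lgI i C x c := rfl

/-- The system of logarithms. -/
def sys (p : ℕ) [Fact p.Prime] (R : Type u) [CommRing R] [IsDomain R] [CharP R p]
    [Algebra.FiniteType ℤ R] :
    LogSys.{u, v, u} R (Idx p R → WittVector p (KK p)) (fun n => n.Coprime p) where
  L C _ _ := lgA p R C
  map _ _ _ _ _ _ _ _ f hf x c := funext fun i => lgI_map i f hf x c
  map_not _ _ _ _ _ _ _ _ f _ x c' hc := funext fun i => lgI_map_not i f x c' hc
  norm _ _ _ _ D x := ⟨L2.nrm R D x, fun y => funext fun i => lgI_norm i D x y⟩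
  inj _ _ _ hC x hx := lgI_detect hC x fun i c => congrFun (hx c) i

theorem specLogP : SpecLogP.{u, v, u} := by
  classical
  intro p _ R _ _ _ _
  refine ⟨Idx p R → WittVector p (KK p), inferInstance, sys p R, ?_⟩
  intro G _ m C _ _ _ φ x hx
  refine Finsupp.ext fun κ => funext fun i => ?_
  have h1 := lgI_relation i C φ x hx κ
  rw [Finsupp.finsetSum_apply, Finset.sum_apply]
  refine Eq.trans ?_ h1
  refine Finset.sum_congr rfl fun j _ => ?_
  unfold WH.pushV
  rw [Finsupp.finsetSum_apply, Finset.sum_apply]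
  refine Finset.sum_congr rfl fun c _ => ?_
  rw [Finsupp.single_apply]
  split_ifs
  · rfl
  · rfl

theorem specMainP (hGen : SpecGenP.{u, v}) : SpecMainP.{u, v} := mainP_of hGen specLogP

end Pool.Agent.Lib.MPb6f35e.P
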