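import Pool.Agent.Lib.MP_b6f35e_al.WH.F1a
import Pool.Agent.Lib.MP_b6f35e_al.WH.SpecR

/-!
# Specification of the modules of P (characteristic `p`, hive 30, MP_b6f35e_al)

Target (`SpecMainP`): `R` a commutative domain of characteristic `p` with `R/(a)` finite for all
`a ≠ 0` (for example a field), `G` any group: the kernel of `ColimK1 R G → Wh R G` is torsion.
-/

set_option autoImplicit false

noncomputable section

namespace Pool.Agent.Lib.MPb6f35e.P

open WH

universe u v w z

/-- Commutative domains of characteristic `p` with `R/(a)` finite for all `a ≠ 0`. -/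
class FinQuotP (p : ℕ) (R : Type u) [CommRing R] : Prop where
  dom : IsDomain R
  char : CharP R p
  fin : ∀ a : R, a ≠ 0 → Finite (R ⧸ Ideal.span {a})

/-! ### SRp: generation by cyclic subgroups -/

/-- SRp: `K_1(R[H])` is generated up to torsion by the images of `K_1(R[C])`, `C` cyclic of order
prime to `p`. -/
def SpecSRp : Prop :=
  ∀ (p : ℕ) [Fact p.Prime] (R : Type u) [CommRing R] [CharP R p] (H : Type v) [Group H] [Finite H]
    (x : K1 (MonoidAlgebra R H)),
    ∃ (m : ℕ) (_ : 0 < m) (a : ℕ) (C : Fin a → Subgroup H) (_ : ∀ i, IsCyclic (C i))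
      (_ : ∀ i, Nat.Coprime p (Nat.card (C i))) (y : ∀ i, K1 (MonoidAlgebra R (C i))),
      m • x = ∑ i, K1.map (MonoidAlgebra.mapDomainRingHom R (C i).subtype) (y i)

/-! ### ERp, GENp -/

/-- ERp: `K_1(R[C])` is `R[C]ˣ` up to torsion. -/
def SpecERp : Prop :=
  ∀ (p : ℕ) [Fact p.Prime] (R : Type u) [CommRing R] [FinQuotP p R] (C : Type v) [CommGroup C]
    [Finite C] (x : K1 (MonoidAlgebra R C)),
    ∃ (m : ℕ) (_ : 0 < m) (y : (MonoidAlgebra R C)ˣ), m • x = K1.unit y

/-- GENp (from SRp and ERp): generation by the units of `R[C]`, `C` cyclic of order prime to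
`p`. -/
def SpecGenP : Prop :=
  ∀ (p : ℕ) [Fact p.Prime] (R : Type u) [CommRing R] [FinQuotP p R] (G : Type v) [Group G]
    (x : ColimK1 R G),
    ∃ (m : ℕ) (_ : 0 < m) (k : ℕ) (C : Fin k → FinSub G) (_ : ∀ j, IsCyclic (C j).1)
      (_ : ∀ j, (Nat.card (C j).1).Coprime p) (y : ∀ j, (MonoidAlgebra R (C j).1)ˣ),
      m • x = ∑ j, ColimK1.ofSub (C j) (K1.unit (y j))

/-! ### F1V: abstract form of F1 -/

/-- Push forward of a function. -/
def pushV {V : Type w} [AddCommGroup V] {C : Type v} {G : Type z} [Group C] [Fintype C] [Group G]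
    (φ : C →* G) (f : C → V) : ConjClasses G →₀ V :=
  ∑ c : C, Finsupp.single (ConjClasses.mk (φ c)) (f c)

/-- Logarithms of the units of `R[C]`, `C` a finite group, with values in `V`; the properties are
required for commutative groups of order prime to `p`. -/
structure LogTh (p : ℕ) (R : Type u) [CommRing R] (V : Type w) [AddCommGroup V] where
  LL : ∀ (C : Type v) [Group C] [Finite C], Additive (MonoidAlgebra R C)ˣ →+ (C → V)
  map : ∀ (C C' : Type v) [CommGroup C] [CommGroup C'] [Finite C] [Finite C']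
    (_ : (Nat.card C').Coprime p) (f : C →* C') (_ : Function.Injective f)
    (x : (MonoidAlgebra R C)ˣ),
    (∀ c, LL C' (Additive.ofMul (F1.mU R f x)) (f c) = LL C (Additive.ofMul x) c) ∧
      ∀ c' ∉ Set.range f, LL C' (Additive.ofMul (F1.mU R f x)) c' = 0
  norm : ∀ (C : Type v) [CommGroup C] [Finite C] (_ : (Nat.card C).Coprime p) (D : Subgroup C)
    (x : (MonoidAlgebra R C)ˣ), ∃ y : (MonoidAlgebra R D)ˣ,
      ∀ d : D, LL D (Additive.ofMul y) d = D.index • LL C (Additive.ofMul x) (d : C)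
  inj : ∀ (C : Type v) [CommGroup C] [Finite C] (_ : (Nat.card C).Coprime p)
    (x : (MonoidAlgebra R C)ˣ) (_ : ∀ c, LL C (Additive.ofMul x) c = 0), IsOfFinOrder x

/-- F1V: vanishing sum of the logarithms implies torsion in the colimit. -/
def SpecF1V : Prop :=
  ∀ (p : ℕ) (R : Type u) [CommRing R] (V : Type w) [AddCommGroup V] [Module ℚ V]
    (T : LogTh.{u, v, w} p R V) (G : Type v) [Group G] (m : ℕ) (C : Fin m → FinSub G)
    (_ : ∀ j, IsCyclic (C j).1) (_ : ∀ j, (Nat.card (C j).1).Coprime p) [∀ j, Finite (C j).1]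
    [∀ j, Fintype (C j).1] (x : ∀ j, (MonoidAlgebra R (C j).1)ˣ)
    (_ : ∑ j, pushV (C j).1.subtype (T.LL (C j).1 (Additive.ofMul (x j))) = 0),
    IsOfFinAddOrder (∑ j, ColimK1.ofSub (R := R) (C j) (K1.unit (x j)))

/-! ### PA: the residue homomorphism, abstract form -/

/-- A derivation of the coefficients, on the group ring. -/
def dG {O : Type w} [CommRing O] (D : O →+ O) {C : Type v} [Group C] (x : MonoidAlgebra O C) :
    MonoidAlgebra O C :=
  MonoidAlgebra.ofCoeff (x.coeff.mapRange D (map_zero D))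

/-- `V Σ_{j < n} (-p B)^j dU`, the logarithmic derivative of `U` modulo `p^n`, if `U V = 1 + p B`. -/
def dlg (p n : ℕ) {O : Type w} [CommRing O] (D : O →+ O) {C : Type v} [Group C]
    (U V B : MonoidAlgebra O C) : MonoidAlgebra O C :=
  V * (∑ j ∈ Finset.range n, (-(p • B)) ^ j) * dG D U

/-- PA: `O`, `W` domains of characteristic `0`, `D` a derivation, `Res (D x) = 0`, `E = O/p`: the
homomorphism `K_1(E[G]) → functions on conjugacy classes with values in W/p^n`. -/
def SpecPA : Prop :=
  ∀ (p : ℕ) [Fact p.Prime] (O : Type w) [CommRing O] [IsDomain O] [CharZero O]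
    (D : O →+ O) (_ : ∀ x y, D (x * y) = x * D y + y * D x)
    (W : Type w) [CommRing W] [IsDomain W] [CharZero W] (Res : O →+ W)
    (_ : ∀ x, Res (D x) = 0) (E : Type w) [CommRing E] (π : O →+* E) (_ : Function.Surjective π)
    (_ : ∀ x, π x = 0 → ∃ y, x = p * y) (_ : (p : E) = 0) (G : Type v) [Group G] (n : ℕ),
    ∃ Θ : K1 (MonoidAlgebra E G) →+ (ConjClasses G →₀ (W ⧸ Ideal.span {(p : W) ^ n})),
      (∀ g : G, Θ (K1.unit (gUnit E g)) = 0 ∧ Θ (K1.unit (-gUnit E g)) = 0) ∧
      ∀ (C : Type v) [CommGroup C] [Fintype C] (φ : C →* G) (x : (MonoidAlgebra E C)ˣ)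
        (U V B : MonoidAlgebra O C)
        (_ : MonoidAlgebra.mapRingHom C π U = (x : MonoidAlgebra E C))
        (_ : MonoidAlgebra.mapRingHom C π V = ((x⁻¹ : (MonoidAlgebra E C)ˣ) : MonoidAlgebra E C))
        (_ : U * V = 1 + p • B),
        Θ (K1.unit (F1.mU E φ x)) =
          pushV φ fun c => Ideal.Quotient.mk (Ideal.span {(p : W) ^ n})
            (Res ((dlg p n D U V B).coeff c))

/-! ### The residue functions of units -/

instance finite_chars (C : Type v) [Group C] [Finite C] (k : Type w) [Field k] :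
    Finite (C →* kˣ) := by
  have h : ∀ (ψ : C →* kˣ) (c : C), ψ c ∈ rootsOfUnity (Nat.card C) k := by
    intro ψ c
    rw [mem_rootsOfUnity, ← map_pow, pow_card_eq_one', map_one]
  have : NeZero (Nat.card C) := ⟨Nat.card_pos.ne'⟩
  refine Finite.of_injective
    (fun (ψ : C →* kˣ) (c : C) => (⟨ψ c, h ψ c⟩ : rootsOfUnity (Nat.card C) k)) ?_
  intro ψ ψ' hψ
  ext c
  have h1 := congrArg Subtype.val (congrFun hψ c)
  exact congrArg Units.val h1

instance fintype_chars (C : Type v) [Group C] [Finite C] (k : Type w) [Field k] :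
    Fintype (C →* kˣ) := Fintype.ofFinite _

/-- The evaluation `R[C] → k((s))` at `σ : R → k((s))` and a character `ψ`. -/
def evl {R : Type u} [CommRing R] {k : Type w} [Field k] (σ : R →+* LaurentSeries k) {C : Type v}
    [Group C] (ψ : C →* kˣ) : MonoidAlgebra R C →+* LaurentSeries k :=
  MonoidAlgebra.liftNCRingHom σ
    (((HahnSeries.C : k →+* LaurentSeries k).toMonoidHom.comp (Units.coeHom k)).comp ψ)
    (fun _ _ => Commute.all _ _)

/-- The residue function of a unit:
`c ↦ |C|⁻¹ Σ_ψ ord(ψ(x)) ψ(c⁻¹)` in the field of fractions of the Witt vectors. -/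
def rs (p : ℕ) [Fact p.Prime] {k : Type w} [Field k] [CharP k p] {R : Type u} [CommRing R]
    (σ : R →+* LaurentSeries k) (C : Type v) [Group C] [Finite C] (x : (MonoidAlgebra R C)ˣ)
    (c : C) : FractionRing (WittVector p k) :=
  (Nat.card C : FractionRing (WittVector p k))⁻¹ *
    ∑ ψ : C →* kˣ, ((evl σ ψ (x : MonoidAlgebra R C)).order : FractionRing (WittVector p k)) *
      algebraMap (WittVector p k) (FractionRing (WittVector p k))
        (WittVector.teichmuller p ((ψ c⁻¹ : kˣ) : k))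

/-- LV (from PA with `O = (W k)((s))`, `D = s d/ds`, `Res` = coefficient of `s^0`): if the product
of the units has finite order in `K_1(R[G])/(±g)` then the sum of the residue functions is zero. -/
def SpecLV : Prop :=
  ∀ (p : ℕ) [Fact p.Prime] (k : Type w) [Field k] [IsAlgClosed k] [CharP k p] (R : Type u)
    [CommRing R] (σ : R →+* LaurentSeries k) (G : Type v) [Group G] (m : ℕ) (C : Fin m → Type v)
    [∀ i, CommGroup (C i)] [∀ i, Finite (C i)] [∀ i, Fintype (C i)]
    (_ : ∀ i, (Nat.card (C i)).Coprime p) (φ : ∀ i, C i →* G) (x : ∀ i, (MonoidAlgebra R (C i))ˣ)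
    (_ : IsOfFinAddOrder (QuotientAddGroup.mk' (trivialUnits R G)
      (∑ i, K1.unit (F1.mU R (φ i) (x i))) : Wh R G)),
    ∑ i, pushV (φ i) (rs p σ (C i) (x i)) = 0

/-- LL: the residue functions: additivity, injections, norms, and: if the residue function is zero
then all orders are zero. -/
structure SpecLL : Prop where
  mul : ∀ (p : ℕ) [Fact p.Prime] (k : Type w) [Field k] [IsAlgClosed k] [CharP k p] (R : Type u)
    [CommRing R] (σ : R →+* LaurentSeries k) (C : Type v) [Group C] [Finite C]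
    (x y : (MonoidAlgebra R C)ˣ) (c : C), rs p σ C (x * y) c = rs p σ C x c + rs p σ C y c
  map : ∀ (p : ℕ) [Fact p.Prime] (k : Type w) [Field k] [IsAlgClosed k] [CharP k p] (R : Type u)
    [CommRing R] (σ : R →+* LaurentSeries k) (C C' : Type v) [CommGroup C] [CommGroup C']
    [Finite C] [Finite C'] (_ : (Nat.card C').Coprime p) (f : C →* C') (_ : Function.Injective f)
    (x : (MonoidAlgebra R C)ˣ),
    (∀ c, rs p σ C' (F1.mU R f x) (f c) = rs p σ C x c) ∧
      ∀ c' ∉ Set.range f, rs p σ C' (F1.mU R f x) c' = 0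
  norm : ∀ (p : ℕ) [Fact p.Prime] (k : Type w) [Field k] [IsAlgClosed k] [CharP k p] (R : Type u)
    [CommRing R] (C : Type v) [CommGroup C] [Finite C] (_ : (Nat.card C).Coprime p)
    (D : Subgroup C) (x : (MonoidAlgebra R C)ˣ), ∃ y : (MonoidAlgebra R D)ˣ,
      ∀ (σ : R →+* LaurentSeries k) (d : D), rs p σ D y d = D.index • rs p σ C x (d : C)
  orders : ∀ (p : ℕ) [Fact p.Prime] (k : Type w) [Field k] [IsAlgClosed k] [CharP k p]
    (R : Type u) [CommRing R] (σ : R →+* LaurentSeries k) (C : Type v) [CommGroup C] [Finite C]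
    (_ : (Nat.card C).Coprime p) (x : (MonoidAlgebra R C)ˣ) (_ : ∀ c, rs p σ C x c = 0)
    (ψ : C →* kˣ), (evl σ ψ (x : MonoidAlgebra R C)).order = 0

/-! ### Detection -/

/-- CURVE: a finite extension `L` of `k(a)`, `k` algebraically closed, has a homomorphism to `k((s))`
for which `a` has order `≠ 0`. -/
def SpecCurve : Prop :=
  ∀ (p : ℕ) [Fact p.Prime] (k : Type u) [Field k] [IsAlgClosed k] [CharP k p] (L : Type v) [Field L]
    [Algebra k L] (a : L) (_ : Transcendental k a)
    (_ : FiniteDimensional (IntermediateField.adjoin k ({a} : Set L)) L),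
    ∃ σ : L →+* LaurentSeries k, (σ a).order ≠ 0

/-- PDR (from CURVE and Zariski's lemma): `k` algebraically closed of characteristic `p`, `x ∈ k`
not a root of unity: a
finitely generated subring has a homomorphism to `k((s))` for which `x` has order `≠ 0`. -/
def SpecPDR : Prop :=
  ∀ (p : ℕ) [Fact p.Prime] (k : Type u) [Field k] [IsAlgClosed k] [CharP k p] (S : Finset k)
    (x : k) (_ : ∀ n : ℕ, 0 < n → x ^ n ≠ 1) (_ : x ≠ 0),
    ∃ σ : Algebra.adjoin ℤ (S : Set k) →+* LaurentSeries k,
      ∀ hx : x ∈ Algebra.adjoin ℤ (S : Set k), (σ ⟨x, hx⟩).order ≠ 0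

/-- DET: a unit of `R[C]` whose orders are all zero has finite order. -/
def SpecDet : Prop :=
  ∀ (p : ℕ) [Fact p.Prime] (R : Type u) [CommRing R] [IsDomain R] [CharP R p]
    (_ : Algebra.FiniteType ℤ R) (C : Type v) [CommGroup C] [Finite C]
    (_ : (Nat.card C).Coprime p) (x : (MonoidAlgebra R C)ˣ)
    (_ : ∀ (σ : R →+* LaurentSeries (AlgebraicClosure (FractionRing R)))
      (ψ : C →* (AlgebraicClosure (FractionRing R))ˣ),
      (evl σ ψ (x : MonoidAlgebra R C)).order = 0), IsOfFinOrder x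

/-- The theorem for coefficients of characteristic `p`. -/
def SpecMainP : Prop :=
  ∀ (p : ℕ) [Fact p.Prime] (R : Type u) [CommRing R] [FinQuotP p R] (G : Type v) [Group G]
    (x : ColimK1 R G), IsOfFinAddOrder (toWh R G x) → IsOfFinAddOrder x

end Pool.Agent.Lib.MPb6f35e.P
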