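import Pool.Agent.Lib.MP_b6f35e_al.P.SRp
import Pool.Agent.Lib.MP_b6f35e_al.P.Spec
import Pool.Agent.Lib.MP_b6f35e_al.WH.K
import Pool.Agent.Lib.MP_b6f35e_al.WH.R

/-!
# SRp in the form of `P/Spec.lean` (hive 30, MP_b6f35e_al, line P)
-/

set_option autoImplicit false

namespace Pool.Agent.Lib.MPb6f35e.P

open WH

universe u v

/-- SRp. -/
theorem specSRp : SpecSRp.{u, v} := by
  intro p hp R _ _ H _ _ x
  exact WH.specSRp specK specK specR p hp.out R (CharP.cast_eq_zero R p) H x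

end Pool.Agent.Lib.MPb6f35e.P
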