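import Pool.Agent.Lib.MP_b6f35e_al.P.Spec
import Pool.Agent.Lib.MP_b6f35e_al.WH.E5
import Pool.Agent.Lib.MP_b6f35e_al.WH.F2

/-!
# Modules ERp and GENp of line P (hive 30, MP_b6f35e_al)
-/

set_option autoImplicit false

noncomputable section

namespace Pool.Agent.Lib.MPb6f35e.P

open WH

universe u v w z

theorem specERp (hK : SpecK.{max u v, 0}) : SpecERp.{u, v} := by
  intro p _ R _ hR C _ _ x
  have hdom : IsDomain R := FinQuotP.dom p
  exact EM.er_gen (FinQuotP.fin p) hK x

namespace Gen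

variable (p : ℕ) (R : Type u) [CommRing R] (G : Type v) [Group G]

/-- The classes in the colimit of units of group rings of finite cyclic subgroups of order prime to
`p`. -/
def cycSet : Set (ColimK1 R G) :=
  {z | ∃ C : FinSub G, IsCyclic C.1 ∧ (Nat.card C.1).Coprime p ∧ ∃ y : (MonoidAlgebra R C.1)ˣ,
    z = ColimK1.ofSub C (K1.unit y)}

/-- The elements with a positive multiple in the subgroup generated by `cycSet`. -/
def rad : AddSubgroup (ColimK1 R G) where
  carrier := {x | ∃ m : ℕ, 0 < m ∧ m • x ∈ AddSubgroup.closure (cycSet p R G)}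
  zero_mem' := ⟨1, one_pos, by rw [smul_zero]; exact zero_mem _⟩
  add_mem' := by
    rintro x y ⟨m, hm, hx⟩ ⟨n, hn, hy⟩
    refine ⟨m * n, Nat.mul_pos hm hn, ?_⟩
    rw [smul_add]
    refine add_mem ?_ ?_
    · rw [mul_comm, mul_smul]; exact nsmul_mem hx n
    · rw [mul_smul]; exact nsmul_mem hy m
  neg_mem' := by
    rintro x ⟨m, hm, hx⟩
    exact ⟨m, hm, by rw [smul_neg]; exact neg_mem hx⟩

variable {p R G}

theorem mem_rad_of_nsmul {m : ℕ} (hm : 0 < m) {x : ColimK1 R G} (h : m • x ∈ rad p R G) :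
    x ∈ rad p R G := by
  obtain ⟨n, hn, h⟩ := h
  exact ⟨n * m, Nat.mul_pos hn hm, by rw [mul_smul]; exact h⟩

theorem sub_cyc (H : FinSub G) (C : Subgroup H.1) (hC : IsCyclic C) (hCp : (Nat.card C).Coprime p)
    (u : (MonoidAlgebra R C)ˣ) :
    ColimK1.ofSub H (K1.map (MonoidAlgebra.mapDomainRingHom R C.subtype) (K1.unit u)) ∈
      AddSubgroup.closure (cycSet p R G) := by
  have := H.2
  let K₀ : Subgroup G := C.map H.1.subtype
  let e : C ≃* K₀ := C.equivMapOfInjective H.1.subtype H.1.subtype_injective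
  have : Finite K₀ := Finite.of_equiv C e.toEquiv
  let K : FinSub G := ⟨K₀, inferInstance⟩
  have hK : IsCyclic K.1 := isCyclic_of_surjective e.toMonoidHom e.surjective
  have hKp : (Nat.card K.1).Coprime p := by
    rw [← Nat.card_congr e.toEquiv]
    exact hCp
  have hle : ∀ x ∈ K.1, 1 * x * (1 : G)⁻¹ ∈ H.1 := by
    intro x hx
    obtain ⟨y, hy, rfl⟩ := hx
    simp
  have h1 := F2.ofSub_rel (R := R) K H 1 hle
    (K1.unit (Units.map (MonoidAlgebra.mapDomainRingHom R e.toMonoidHom).toMonoidHom u))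
  have h2 : K1.map (MonoidAlgebra.mapDomainRingHom R (conjHom 1 K.1 H.1 hle))
      (K1.unit (Units.map (MonoidAlgebra.mapDomainRingHom R e.toMonoidHom).toMonoidHom u)) =
      K1.map (MonoidAlgebra.mapDomainRingHom R C.subtype) (K1.unit u) := by
    rw [Desc.map_unit, Desc.map_unit]
    congr 1
    apply Units.ext
    show MonoidAlgebra.mapDomainRingHom R (conjHom 1 K.1 H.1 hle)
      (MonoidAlgebra.mapDomainRingHom R e.toMonoidHom (u : MonoidAlgebra R C)) =
      MonoidAlgebra.mapDomainRingHom R C.subtype (u : MonoidAlgebra R C)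
    rw [← RingHom.comp_apply, ← MonoidAlgebra.mapDomainRingHom_comp]
    congr 2
    ext x
    simp [conjHom, e]
    exact Subgroup.coe_equivMapOfInjective_apply C _ _ x
  rw [← h2, h1]
  exact AddSubgroup.subset_closure ⟨K, hK, hKp, _, rfl⟩

theorem all_rad [Fact p.Prime] (hSR : SpecSRp.{u, v}) (hER : SpecERp.{u, v}) [FinQuotP p R]
    (x : ColimK1 R G) : x ∈ rad p R G := by
  have hchar : CharP R p := FinQuotP.char
  induction x using F2.colim_induction with
  | h0 => exact zero_mem _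
  | hadd x y hx hy => exact add_mem hx hy
  | hof H a =>
    have := H.2
    obtain ⟨m, hm, k, C, hC, hCp, y, hy⟩ := hSR p R H.1 a
    apply mem_rad_of_nsmul hm
    rw [← map_nsmul, hy, map_sum]
    refine sum_mem (fun i _ => ?_)
    have := hC i
    let _ : CommGroup (C i) := IsCyclic.commGroup
    obtain ⟨n, hn, u, hu⟩ := hER p R (C i) (y i)
    apply mem_rad_of_nsmul hn
    rw [← map_nsmul, ← map_nsmul]
    rw [hu]
    exact ⟨1, one_pos, by rw [one_smul]; exact sub_cyc H (C i) (hC i) (hCp i).symm u⟩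

open Pointwise in
theorem cycSet_neg : - cycSet p R G ⊆ cycSet p R G := by
  intro x hx
  obtain ⟨C, hC, hCp, y, hy⟩ := hx
  refine ⟨C, hC, hCp, y⁻¹, ?_⟩
  rw [F2.unit_inv, map_neg, ← hy, neg_neg]

end Gen

open Gen in
theorem specGenP_of (hSR : SpecSRp.{u, v}) (hER : SpecERp.{u, v}) : SpecGenP.{u, v} := by
  intro p _ R _ _ G _ x
  obtain ⟨m, hm, h⟩ := all_rad (p := p) hSR hER x
  refine ⟨m, hm, ?_⟩
  have h1 : m • x ∈ AddSubmonoid.closure (cycSet p R G) := by
    have h2 : m • x ∈ (AddSubgroup.closure (cycSet p R G)).toAddSubmonoid := h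
    rw [AddSubgroup.closure_toAddSubmonoid] at h2
    refine AddSubmonoid.closure_mono ?_ h2
    exact Set.union_subset le_rfl cycSet_neg
  obtain ⟨l, hl, hs⟩ := AddSubmonoid.exists_list_of_mem_closure h1
  choose C hC hCp y hy using fun j : Fin l.length => hl (l.get j) (List.get_mem l j)
  refine ⟨l.length, C, hC, hCp, y, ?_⟩
  rw [← hs, ← List.sum_ofFn]
  congr 1
  conv_lhs => rw [← List.ofFn_get l]
  congr 1
  funext j
  exact hy j

end Pool.Agent.Lib.MPb6f35e.P
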