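import Pool.Agent.Lib.MP_b6f35e_al.P.PA
import Pool.Agent.Lib.MP_b6f35e_al.WH.F1a
import Pool.Agent.Lib.MP_b6f35e_al.WH.L2

/-!
# Module PA2: naturality of the residue homomorphism

Push forward, restriction to a subgroup, characters, and the value on a unit of the coefficients.
-/

set_option autoImplicit false

noncomputable section

namespace Pool.Agent.Lib.MPb6f35e.WH

namespace PA

universe u u' v v' w x

/-- A matrix valued ring homomorphism, on square matrices. -/
def blk {A : Type u} {B : Type u'} [Ring A] [Ring B] {κ : Type w} [Fintype κ] [DecidableEq κ]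
    (f : A →+* Matrix κ κ B) (ι : Type x) [Fintype ι] [DecidableEq ι] :
    Matrix ι ι A →+* Matrix (ι × κ) (ι × κ) B :=
  (Matrix.compRingEquiv ι κ B).toRingHom.comp f.mapMatrix

theorem blk_apply {A : Type u} {B : Type u'} [Ring A] [Ring B] {κ : Type w} [Fintype κ]
    [DecidableEq κ] (f : A →+* Matrix κ κ B) {ι : Type x} [Fintype ι] [DecidableEq ι]
    (X : Matrix ι ι A) (i j : ι × κ) : blk f ι X i j = f (X i.1 j.1) i.2 j.2 := rfl

variable {p : ℕ} {T : Type u} [Ring T] {E : Type u'} [Ring E] {M : Type w} [AddCommGroup M]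

namespace RD

variable (d : RD p T E M) {G : Type v} [Group G] {G' : Type v'} [Group G']

/-- General naturality, matrix valued. -/
theorem val_blk {κ : Type x} [Fintype κ] [DecidableEq κ]
    (Φ : MonoidAlgebra T G →+* Matrix κ κ (MonoidAlgebra T G'))
    (φ : MonoidAlgebra E G →+* Matrix κ κ (MonoidAlgebra E G'))
    (hφ : ∀ a, d.red (Φ a) = φ (MonoidAlgebra.mapRingHom G d.π a))
    (hθ : ∀ a, d.Θ (Φ a) = Φ (d.θG G a))
    {J : Type*} [Fintype J] (k : J → ConjClasses G) (Λ : J → M →+ M) (c' : ConjClasses G')
    (hΛ : ∀ a, d.Tr (Φ a) c' = ∑ j, Λ j (d.cl G a (k j)))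
    {ι : Type} [Fintype ι] [DecidableEq ι] (u : (Matrix ι ι (MonoidAlgebra E G))ˣ) :
    d.val (Units.map (blk φ ι).toMonoidHom u) c' = ∑ j, Λ j (d.val u (k j)) := by
  apply d.eq_of_cg
  intro m
  obtain ⟨U, U', hU, hP⟩ := d.exists_pair u m
  have hB : ∀ {X Y : Matrix ι ι (MonoidAlgebra T G)}, Cg p m X Y →
      Cg p m (blk Φ ι X) (blk Φ ι Y) := fun h => h.map (blk Φ ι).toAddMonoidHom
  have h1 := d.val_spec (Units.map (blk φ ι).toMonoidHom u) c' m (blk Φ ι U) (blk Φ ι U') (by
      ext1 i j
      show MonoidAlgebra.mapRingHom G' d.π (Φ (U i.1 j.1) i.2 j.2) =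
        φ ((u : Matrix ι ι (MonoidAlgebra E G)) i.1 j.1) i.2 j.2
      rw [← hU]
      exact congrFun (congrFun (hφ (U i.1 j.1)) i.2) j.2) (by
      constructor
      · rw [← map_mul, ← map_one (blk Φ ι)]
        exact hB hP.1
      · rw [← map_mul, ← map_one (blk Φ ι)]
        exact hB hP.2)
  refine h1.trans ?_
  have h2 : d.D (blk Φ ι U') (blk Φ ι U) c' = ∑ j, Λ j (d.D U' U (k j)) := by
    unfold D
    have e1 : d.Θ (blk Φ ι U) = blk Φ ι (d.Θ U) := by
      ext1 i j
      exact congrFun (congrFun (hθ (U i.1 j.1)) i.2) j.2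
    rw [e1, ← map_mul]
    set X := U' * d.Θ U
    have e2 : d.Tr (blk Φ ι X) = ∑ i, d.Tr (Φ (X i i)) := by
      rw [Tr_def, Fintype.sum_prod_type]
      refine Finset.sum_congr rfl fun i _ => ?_
      rw [Tr_def]
      rfl
    rw [e2, Finsupp.finsetSum_apply]
    simp only [hΛ]
    rw [Finset.sum_comm]
    refine Finset.sum_congr rfl fun j _ => ?_
    rw [Tr_def, Finsupp.finsetSum_apply, map_sum]
  rw [h2]
  have h3 : ∀ s : Finset J, Cg p m (∑ j ∈ s, Λ j (d.D U' U (k j)))
      (∑ j ∈ s, Λ j (d.val u (k j))) := by
    intro s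
    classical
    induction s using Finset.induction_on with
    | empty => exact Cg.refl _
    | insert a s ha ih =>
      rw [Finset.sum_insert ha, Finset.sum_insert ha]
      exact ((d.val_spec u (k a) m U U' hU hP).symm.map (Λ a)).add ih
  exact h3 Finset.univ

/-- General naturality. -/
theorem val_map (Φ : MonoidAlgebra T G →+* MonoidAlgebra T G')
    (φ : MonoidAlgebra E G →+* MonoidAlgebra E G')
    (hφ : ∀ a, MonoidAlgebra.mapRingHom G' d.π (Φ a) = φ (MonoidAlgebra.mapRingHom G d.π a))
    (hθ : ∀ a, d.θG G' (Φ a) = Φ (d.θG G a))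
    {J : Type*} [Fintype J] (k : J → ConjClasses G) (Λ : J → M →+ M) (c' : ConjClasses G')
    (hΛ : ∀ a, d.cl G' (Φ a) c' = ∑ j, Λ j (d.cl G a (k j)))
    {ι : Type} [Fintype ι] [DecidableEq ι] (u : (Matrix ι ι (MonoidAlgebra E G))ˣ) :
    d.val (Units.map φ.mapMatrix.toMonoidHom u) c' = ∑ j, Λ j (d.val u (k j)) := by
  apply d.eq_of_cg
  intro m
  obtain ⟨U, U', hU, hP⟩ := d.exists_pair u m
  have hB : ∀ {X Y : Matrix ι ι (MonoidAlgebra T G)}, Cg p m X Y →
      Cg p m (Φ.mapMatrix X) (Φ.mapMatrix Y) := fun h => h.map Φ.mapMatrix.toAddMonoidHom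
  have h1 := d.val_spec (Units.map φ.mapMatrix.toMonoidHom u) c' m (Φ.mapMatrix U)
    (Φ.mapMatrix U') (by
      ext1 i j
      show MonoidAlgebra.mapRingHom G' d.π (Φ (U i j)) =
        φ ((u : Matrix ι ι (MonoidAlgebra E G)) i j)
      rw [← hU]
      exact hφ (U i j)) (by
      constructor
      · rw [← map_mul, ← map_one Φ.mapMatrix]
        exact hB hP.1
      · rw [← map_mul, ← map_one Φ.mapMatrix]
        exact hB hP.2)
  refine h1.trans ?_
  have h2 : d.D (Φ.mapMatrix U') (Φ.mapMatrix U) c' = ∑ j, Λ j (d.D U' U (k j)) := by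
    unfold D
    have e1 : d.Θ (Φ.mapMatrix U) = Φ.mapMatrix (d.Θ U) := by
      ext1 i j
      exact hθ (U i j)
    rw [e1, ← map_mul]
    set X := U' * d.Θ U
    have e2 : d.Tr (Φ.mapMatrix X) = ∑ i, d.cl G' (Φ (X i i)) := by
      rw [Tr_def]
      rfl
    rw [e2, Finsupp.finsetSum_apply]
    simp only [hΛ]
    rw [Finset.sum_comm]
    refine Finset.sum_congr rfl fun j _ => ?_
    rw [Tr_def, Finsupp.finsetSum_apply, map_sum]
  rw [h2]
  have h3 : ∀ s : Finset J, Cg p m (∑ j ∈ s, Λ j (d.D U' U (k j)))
      (∑ j ∈ s, Λ j (d.val u (k j))) := by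
    intro s
    classical
    induction s using Finset.induction_on with
    | empty => exact Cg.refl _
    | insert a s ha ih =>
      rw [Finset.sum_insert ha, Finset.sum_insert ha]
      exact ((d.val_spec u (k a) m U U' hU hP).symm.map (Λ a)).add ih
  exact h3 Finset.univ

/-- Two additive maps on `K_1`. -/
theorem k1_induct {A : Type x} [Ring A] {H : Type*} [AddCommGroup H] (f g : K1 A →+ H)
    (h : ∀ (n : ℕ) (u : (Matrix (Fin n) (Fin n) A)ˣ), f (K1.cls u) = g (K1.cls u)) (y : K1 A) :
    f y = g y := by rw [K1.ext h]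

/-- General naturality on `K_1`. -/
theorem rho_map (Φ : MonoidAlgebra T G →+* MonoidAlgebra T G')
    (φ : MonoidAlgebra E G →+* MonoidAlgebra E G')
    (hφ : ∀ a, MonoidAlgebra.mapRingHom G' d.π (Φ a) = φ (MonoidAlgebra.mapRingHom G d.π a))
    (hθ : ∀ a, d.θG G' (Φ a) = Φ (d.θG G a))
    {J : Type*} [Fintype J] (k : J → ConjClasses G) (Λ : J → M →+ M) (c' : ConjClasses G')
    (hΛ : ∀ a, d.cl G' (Φ a) c' = ∑ j, Λ j (d.cl G a (k j))) (y : K1 (MonoidAlgebra E G)) :
    d.rho G' (K1.map φ y) c' = ∑ j, Λ j (d.rho G y (k j)) := by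
  have h := k1_induct
    ((Pi.evalAddMonoidHom (fun _ : ConjClasses G' => M) c').comp ((d.rho G').comp (K1.map φ)))
    (∑ j, (Λ j).comp ((Pi.evalAddMonoidHom (fun _ : ConjClasses G => M) (k j)).comp (d.rho G)))
    (by
      intro n u
      rw [AddMonoidHom.finset_sum_apply]
      show d.rho G' (K1.map φ (K1.cls u)) c' = ∑ j, Λ j (d.rho G (K1.cls u) (k j))
      rw [K1.map_cls, rho_cls, rho_cls]
      exact d.val_map Φ φ hφ hθ k Λ c' hΛ u) y
  rw [AddMonoidHom.finset_sum_apply] at h
  exact h

/-! ### push forward -/

theorem map_mapDomain (f : G →* G') (a : MonoidAlgebra T G) :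
    MonoidAlgebra.mapRingHom G' d.π (MonoidAlgebra.mapDomainRingHom T f a) =
      MonoidAlgebra.mapDomainRingHom E f (MonoidAlgebra.mapRingHom G d.π a) := by
  induction a using MonoidAlgebra.induction_linear with
  | zero => simp
  | add y z hy hz => simp only [map_add, hy, hz]
  | single g t => simp [MonoidAlgebra.mapDomain_single]

theorem θG_mapDomain (f : G →* G') (a : MonoidAlgebra T G) :
    d.θG G' (MonoidAlgebra.mapDomainRingHom T f a) =
      MonoidAlgebra.mapDomainRingHom T f (d.θG G a) := by
  induction a using MonoidAlgebra.induction_linear with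
  | zero => simp
  | add y z hy hz => simp only [map_add, hy, hz]
  | single g t =>
    rw [θG_single, MonoidAlgebra.mapDomainRingHom_apply, MonoidAlgebra.mapDomainRingHom_apply,
      MonoidAlgebra.mapDomain_single, MonoidAlgebra.mapDomain_single, θG_single]

open Classical in
/-- Push forward from a finite commutative group. -/
theorem rho_push {C : Type v} [CommGroup C] [Fintype C] (f : C →* G')
    (y : K1 (MonoidAlgebra E C)) (κ : ConjClasses G') :
    d.rho G' (K1.map (MonoidAlgebra.mapDomainRingHom E f) y) κ =
      ∑ c : C, if ConjClasses.mk (f c) = κ then d.rho C y (ConjClasses.mk c) else 0 := by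
  have h := d.rho_map (MonoidAlgebra.mapDomainRingHom T f) (MonoidAlgebra.mapDomainRingHom E f)
    (d.map_mapDomain f) (d.θG_mapDomain f) (fun c : C => ConjClasses.mk c)
    (fun c => if ConjClasses.mk (f c) = κ then AddMonoidHom.id M else 0) κ (by
      intro a
      induction a using MonoidAlgebra.induction_linear with
      | zero => simp
      | add y z hy hz =>
        rw [map_add, map_add, Finsupp.add_apply, hy, hz, ← Finset.sum_add_distrib]
        refine Finset.sum_congr rfl fun c _ => ?_
        rw [map_add, Finsupp.add_apply, map_add]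
      | single g t =>
        rw [MonoidAlgebra.mapDomainRingHom_apply, MonoidAlgebra.mapDomain_single, cl_single,
          cl_single, Finset.sum_eq_single_of_mem g (Finset.mem_univ g)]
        · rw [Finsupp.single_apply, Finsupp.single_eq_same]
          split_ifs <;> rfl
        · intro c _ hc
          have h0 : (Finsupp.single (ConjClasses.mk g) (d.ε t)) (ConjClasses.mk c) = 0 := by
            rw [Finsupp.single_apply, if_neg]
            intro h
            exact hc (ConjClasses.mk_bijective.1 h).symm
          rw [h0, map_zero]) y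
  rw [h]
  refine Finset.sum_congr rfl fun c _ => ?_
  split_ifs <;> rfl

/-- Injective homomorphisms of finite commutative groups: the value in the image. -/
theorem rho_inj {C : Type v} [CommGroup C] [Fintype C] {C' : Type v'} [CommGroup C'] (f : C →* C')
    (hf : Function.Injective f) (y : K1 (MonoidAlgebra E C)) (c : C) :
    d.rho C' (K1.map (MonoidAlgebra.mapDomainRingHom E f) y) (ConjClasses.mk (f c)) =
      d.rho C y (ConjClasses.mk c) := by
  classical
  rw [rho_push, Finset.sum_eq_single_of_mem c (Finset.mem_univ c)]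
  · rw [if_pos rfl]
  · intro b _ hb
    rw [if_neg]
    intro h
    exact hb (hf (ConjClasses.mk_bijective.1 h))

/-- Injective homomorphisms of finite commutative groups: the value outside the image. -/
theorem rho_not {C : Type v} [CommGroup C] [Fintype C] {C' : Type v'} [CommGroup C'] (f : C →* C')
    (y : K1 (MonoidAlgebra E C)) (c' : C') (hc : c' ∉ Set.range f) :
    d.rho C' (K1.map (MonoidAlgebra.mapDomainRingHom E f) y) (ConjClasses.mk c') = 0 := by
  classical
  rw [rho_push]
  refine Finset.sum_eq_zero fun c _ => if_neg fun h => hc ⟨c, ConjClasses.mk_bijective.1 h⟩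

/-! ### characters -/

/-- `c ↦ χ(c)`, `t ↦ t`, with values in `A ⊂ A[G']`. -/
def evc {A : Type x} [Ring A] {C : Type v} [Group C] (G' : Type v') [Group G'] (χ : C →* A)
    (hχ : ∀ (a : A) (c : C), Commute a (χ c)) : MonoidAlgebra A C →+* MonoidAlgebra A G' :=
  MonoidAlgebra.singleOneRingHom.comp
    (MonoidAlgebra.liftNCRingHom (RingHom.id A) χ hχ)

theorem evc_single {A : Type x} [Ring A] {C : Type v} [Group C] (χ : C →* A)
    (hχ : ∀ (a : A) (c : C), Commute a (χ c)) (c : C) (a : A) :
    evc G' χ hχ (MonoidAlgebra.single c a) = MonoidAlgebra.single 1 (a * χ c) := by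
  show MonoidAlgebra.single 1 (MonoidAlgebra.liftNCRingHom (RingHom.id A) χ hχ
    (MonoidAlgebra.single c a)) = _
  congr 1
  exact MonoidAlgebra.liftNC_single _ _ _ _

/-- Characters. -/
theorem rho_evc {C : Type v} [CommGroup C] [Fintype C] (χ : C →* T)
    (hχ : ∀ (a : T) (c : C), Commute a (χ c)) (hθχ : ∀ c, d.θ (χ c) = 0) (χ' : C →* E)
    (hχ' : ∀ (a : E) (c : C), Commute a (χ' c)) (hπ : ∀ c, d.π (χ c) = χ' c)
    (s : C → M →+ M) (hs : ∀ t c, d.ε (t * χ c) = s c (d.ε t)) (y : K1 (MonoidAlgebra E C)) :
    d.rho G' (K1.map (evc G' χ' hχ') y) (ConjClasses.mk 1) =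
      ∑ c : C, s c (d.rho C y (ConjClasses.mk c)) := by
  classical
  refine d.rho_map (evc G' χ hχ) (evc G' χ' hχ') ?_ ?_ (fun c : C => ConjClasses.mk c) s
    (ConjClasses.mk 1) ?_ y
  · intro a
    induction a using MonoidAlgebra.induction_linear with
    | zero => simp
    | add y z hy hz => simp only [map_add, hy, hz]
    | single g t =>
      rw [evc_single, MonoidAlgebra.mapRingHom_single, MonoidAlgebra.mapRingHom_single, evc_single,
        map_mul, hπ]
  · intro a
    induction a using MonoidAlgebra.induction_linear with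
    | zero => simp
    | add y z hy hz => simp only [map_add, hy, hz]
    | single g t =>
      rw [evc_single, θG_single, θG_single, evc_single, d.leib, hθχ, mul_zero, add_zero]
  · intro a
    induction a using MonoidAlgebra.induction_linear with
    | zero => simp
    | add y z hy hz =>
      rw [map_add, map_add, Finsupp.add_apply, hy, hz, ← Finset.sum_add_distrib]
      refine Finset.sum_congr rfl fun c _ => ?_
      rw [map_add, Finsupp.add_apply, map_add]
    | single g t =>
      rw [evc_single, cl_single, cl_single, Finsupp.single_eq_same,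
        Finset.sum_eq_single_of_mem g (Finset.mem_univ g)]
      · rw [Finsupp.single_eq_same, hs]
      · intro c _ hc
        rw [Finsupp.single_apply, if_neg, map_zero]
        intro h
        exact hc (ConjClasses.mk_bijective.1 h).symm

/-! ### the value on a unit of the coefficients -/

/-- The value on a unit of the coefficients. -/
theorem rho_unit (s : Tˣ) (z : (MonoidAlgebra E G)ˣ)
    (hz : (z : MonoidAlgebra E G) = MonoidAlgebra.single 1 (d.π s)) :
    d.rho G (K1.unit z) = ⇑(Finsupp.single (ConjClasses.mk (1 : G))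
      (d.ε (((s⁻¹ : Tˣ) : T) * d.θ s))) := by
  unfold K1.unit
  rw [rho_cls]
  funext c
  apply d.eq_of_cg
  intro m
  have h1 : ∀ a b : T, (Matrix.of fun (_ _ : Fin 1) => (MonoidAlgebra.single (1 : G) a)) *
      (Matrix.of fun (_ _ : Fin 1) => (MonoidAlgebra.single (1 : G) b)) =
      Matrix.of fun (_ _ : Fin 1) => (MonoidAlgebra.single (1 : G) (a * b)) := by
    intro a b
    ext1 i j
    rw [Matrix.mul_apply]
    simp [MonoidAlgebra.single_mul_single]
  have h2 : (Matrix.of fun (_ _ : Fin 1) => (MonoidAlgebra.single (1 : G) (1 : T))) = 1 := by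
    ext1 i j
    fin_cases i; fin_cases j
    rfl
  have h := d.val_spec (oneByOne z) c m
    (Matrix.of fun _ _ => (MonoidAlgebra.single (1 : G) (s : T)))
    (Matrix.of fun _ _ => (MonoidAlgebra.single (1 : G) ((s⁻¹ : Tˣ) : T))) (by
      ext1 i j
      show MonoidAlgebra.mapRingHom G d.π (MonoidAlgebra.single (1 : G) (s : T)) =
        (z : MonoidAlgebra E G)
      rw [hz, MonoidAlgebra.mapRingHom_single]) (by
      constructor
      · rw [h1, Units.mul_inv, h2]
        exact Cg.refl _
      · rw [h1, Units.inv_mul, h2]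
        exact Cg.refl _)
  refine h.trans (Cg.of_eq ?_)
  unfold D
  have h3 : d.Θ (Matrix.of fun (_ _ : Fin 1) => (MonoidAlgebra.single (1 : G) (s : T))) =
      Matrix.of fun (_ _ : Fin 1) => (MonoidAlgebra.single (1 : G) (d.θ s)) := by
    ext1 i j
    exact d.θG_single _ _
  rw [h3, h1, Tr_def]
  simp only [Finset.univ_unique, Finset.sum_singleton, Matrix.of_apply, cl_single]

/-! ### restriction to a subgroup -/

open Classical in
/-- The regular representation of `A[C]` over `A[D]`, `A` not necessarily commutative. -/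
def res (A : Type x) [Ring A] {C : Type v} [CommGroup C] [Finite C] (D : Subgroup C) :
    MonoidAlgebra A C →+* Matrix (C ⧸ D) (C ⧸ D) (MonoidAlgebra A D) :=
  MonoidAlgebra.liftNCRingHom
    ((Matrix.scalar (C ⧸ D)).comp MonoidAlgebra.singleOneRingHom)
    (((MonoidAlgebra.mapRingHom D (Int.castRingHom A)).mapMatrix.toMonoidHom).comp
      (L2.pmHom ℤ D))
    (by
      intro a c
      have h : ∀ b : MonoidAlgebra ℤ D, Commute (MonoidAlgebra.single (1 : D) a)
          (MonoidAlgebra.mapRingHom D (Int.castRingHom A) b) := by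
        intro b
        induction b using MonoidAlgebra.induction_linear with
        | zero => rw [map_zero]; exact Commute.zero_right _
        | add y z hy hz => rw [map_add]; exact hy.add_right hz
        | single g n =>
          rw [MonoidAlgebra.mapRingHom_single]
          show MonoidAlgebra.single (1 : D) a * MonoidAlgebra.single g _ =
            MonoidAlgebra.single g _ * MonoidAlgebra.single (1 : D) a
          rw [MonoidAlgebra.single_mul_single, MonoidAlgebra.single_mul_single, one_mul, mul_one]
          congr 1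
          exact (Int.cast_commute n a).eq.symm
      show Matrix.scalar (C ⧸ D) (MonoidAlgebra.single (1 : D) a) *
        (L2.pm ℤ D c).map (MonoidAlgebra.mapRingHom D (Int.castRingHom A)) =
          (L2.pm ℤ D c).map (MonoidAlgebra.mapRingHom D (Int.castRingHom A)) *
          Matrix.scalar (C ⧸ D) (MonoidAlgebra.single (1 : D) a)
      ext1 i j
      rw [Matrix.scalar_apply, Matrix.diagonal_mul, Matrix.mul_diagonal]
      exact (h (L2.pm ℤ D c i j)).eq)

open Classical in
theorem res_single (A : Type x) [Ring A] {C : Type v} [CommGroup C] [Finite C] (D : Subgroup C)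
    (c : C) (a : A) (i j : C ⧸ D) : res A D (MonoidAlgebra.single c a) i j =
      if h : (QuotientGroup.mk c : C ⧸ D) * j = i then
        MonoidAlgebra.single (⟨(L2.rp D i)⁻¹ * c * L2.rp D j, L2.mem_of_eq D h⟩ : D) a else 0 := by
  have h1 : res A D (MonoidAlgebra.single c a) = Matrix.scalar (C ⧸ D)
      (MonoidAlgebra.single (1 : D) a) *
        (L2.pm ℤ D c).map (MonoidAlgebra.mapRingHom D (Int.castRingHom A)) :=
    MonoidAlgebra.liftNC_single _ _ _ _
  rw [h1, Matrix.scalar_apply, Matrix.diagonal_mul, Matrix.map_apply]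
  simp only [L2.pm, Matrix.of_apply]
  split_ifs with h
  · rw [MonoidAlgebra.mapRingHom_single, MonoidAlgebra.single_mul_single, one_mul]
    congr 1
    simp
  · rw [map_zero, mul_zero]

/-- Compatibility of `res` with a change of coefficients. -/
theorem res_map {A : Type x} [Ring A] {B : Type u} [Ring B] (f : A →+* B) {C : Type v}
    [CommGroup C] [Finite C] (D : Subgroup C) (a : MonoidAlgebra A C) :
    res B D (MonoidAlgebra.mapRingHom C f a) = (res A D a).map (MonoidAlgebra.mapRingHom D f) := by
  classical
  induction a using MonoidAlgebra.induction_linear with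
  | zero => simp
  | add y z hy hz =>
    rw [map_add, map_add, hy, hz, map_add, Matrix.map_add]
    intro y z
    rw [map_add]
  | single c z =>
    ext1 i j
    rw [MonoidAlgebra.mapRingHom_single, Matrix.map_apply, res_single, res_single]
    split_ifs with h
    · rw [MonoidAlgebra.mapRingHom_single]
    · rw [map_zero]

/-- `res` for commutative coefficients is `L2.rho`. -/
theorem res_eq (A : Type x) [CommRing A] {C : Type v}
    [CommGroup C] [Finite C] (D : Subgroup C) (a : MonoidAlgebra A C) :
    res A D a = L2.rho A D a := by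
  classical
  induction a using MonoidAlgebra.induction_linear with
  | zero => simp
  | add y z hy hz => rw [map_add, map_add, hy, hz]
  | single c z =>
    ext1 i j
    rw [res_single, L2.rho_single, Matrix.smul_apply]
    simp only [L2.pm, Matrix.of_apply]
    split_ifs with h
    · rw [MonoidAlgebra.smul_single, smul_eq_mul, mul_one]
    · rw [smul_zero]

theorem θG_zero : d.θG G 0 = 0 := map_zero _

open Classical in
/-- Restriction to a subgroup. -/
theorem val_res {C : Type v} [CommGroup C] [Fintype C] (D : Subgroup C) (y : D)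
    {ι : Type} [Fintype ι] [DecidableEq ι] (u : (Matrix ι ι (MonoidAlgebra E C))ˣ) :
    d.val (Units.map (blk (res E D) ι).toMonoidHom u) (ConjClasses.mk y) =
      D.index • d.val u (ConjClasses.mk (y : C)) := by
  have h := d.val_blk (res T D) (res E D) (fun a => (res_map d.π D a).symm) (by
      intro a
      induction a using MonoidAlgebra.induction_linear with
      | zero => simp only [map_zero]; exact (d.Θhom (C ⧸ D) (C ⧸ D)).map_zero
      | add y z hy hz =>
        rw [map_add, map_add, map_add, ← hy, ← hz]
        exact (d.Θhom (C ⧸ D) (C ⧸ D)).map_add _ _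
      | single g t =>
        rw [θG_single]
        ext1 i j
        show d.θG D (res T D (MonoidAlgebra.single g t) i j) = _
        rw [res_single, res_single]
        split_ifs with h
        · rw [θG_single]
        · rw [map_zero]) (fun _ : Unit => ConjClasses.mk (y : C))
    (fun _ => D.index • AddMonoidHom.id M) (ConjClasses.mk y) (by
      intro a
      rw [Fintype.sum_unique]
      show _ = D.index • d.cl C a (ConjClasses.mk (y : C))
      induction a using MonoidAlgebra.induction_linear with
      | zero => simp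
      | add z z' hz hz' =>
        rw [map_add, map_add, map_add, Finsupp.add_apply, Finsupp.add_apply, hz, hz', smul_add]
      | single c t =>
        rw [Tr_def, cl_single, Finsupp.finsetSum_apply]
        by_cases hc : c ∈ D
        · have h1 : ∀ i : C ⧸ D, res T D (MonoidAlgebra.single c t) i i =
              MonoidAlgebra.single (⟨c, hc⟩ : D) t := by
            intro i
            have h2 : (QuotientGroup.mk c : C ⧸ D) * i = i := by
              rw [(QuotientGroup.eq_one_iff c).2 hc, one_mul]
            rw [res_single, dif_pos h2]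
            congr 1
            apply Subtype.ext
            show (L2.rp D i)⁻¹ * c * L2.rp D i = c
            rw [mul_comm (L2.rp D i)⁻¹ c, inv_mul_cancel_right]
          simp only [h1, cl_single]
          rw [Finset.sum_const, Finset.card_univ, Subgroup.index, Nat.card_eq_fintype_card]
          congr 1
          rw [Finsupp.single_apply, Finsupp.single_apply]
          congr 1
          rw [eq_iff_iff, ConjClasses.mk_bijective.1.eq_iff, ConjClasses.mk_bijective.1.eq_iff,
            Subtype.ext_iff]
        · have h1 : ∀ i : C ⧸ D, res T D (MonoidAlgebra.single c t) i i = 0 := by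
            intro i
            rw [res_single]
            refine dif_neg fun h2 => hc ?_
            rw [← QuotientGroup.eq_one_iff]
            exact mul_eq_right.1 h2
          have h3 : ¬ c = (y : C) := fun h => hc (by rw [h]; exact y.2)
          simp only [h1, map_zero]
          rw [Finsupp.single_apply, if_neg, smul_zero]
          · exact Finset.sum_const_zero
          · exact fun h => h3 (ConjClasses.mk_bijective.1 h)) u
  rw [h, Fintype.sum_unique]
  rfl

end RD

end PA

end Pool.Agent.Lib.MPb6f35e.WH
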