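import Pool.Agent.Lib.MP_b6f35e_al.P.SRpB

/-!
# Characteristic p: `K_1 (R[H])` comes from cyclic subgroups of order prime to p, up to torsion
(hive 30, MP_b6f35e_al, line P)

`R` is any commutative ring with `p = 0` in `R`.
-/

set_option autoImplicit false

noncomputable section

namespace Pool.Agent.Lib.MPb6f35e.WH

universe u v w

open Matrix Finset

/-- SRp: if `p = 0` in `R`, then `K_1(R[H])` is generated up to torsion by the images of
`K_1(R[C])`, `C` cyclic of order prime to `p`. -/
def SpecSRp : Prop :=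
  ∀ (p : ℕ) (_ : p.Prime) (R : Type u) [CommRing R] (_ : (p : R) = 0) (H : Type v) [Group H]
    [Finite H] (x : K1 (MonoidAlgebra R H)),
    ∃ (m : ℕ) (_ : 0 < m) (a : ℕ) (C : Fin a → Subgroup H) (_ : ∀ i, IsCyclic (C i))
      (_ : ∀ i, Nat.Coprime p (Nat.card (C i))) (y : ∀ i, K1 (MonoidAlgebra R (C i))),
      m • x = ∑ i, K1.map (MonoidAlgebra.mapDomainRingHom R (C i).subtype) (y i)

namespace SP

open SM

variable {R : Type u} [CommRing R]

/-- up to torsion from cyclic subgroups (as `specSR`, in characteristic `p`) -/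
theorem good_of (hK0 : SpecK.{max u v, 0}) (hK : SpecK.{max u v, v}) (hR : SpecR.{v}) {p : ℕ}
    (hp : p.Prime) (h0 : (p : R) = 0) {H : Type v} [Group H] [Finite H]
    (x : K1 (MonoidAlgebra R H)) : ∃ m : ℕ, 0 < m ∧ Good (m • x) := by
  -- matrices
  have hmat : ∀ (n : ℕ) (A : (Matrix (Fin n) (Fin n) (MonoidAlgebra R H))ˣ),
      ∃ m : ℕ, 0 < m ∧ Good (m • K1.cls A) := by
    intro n A
    obtain ⟨m, hm, a, b, C, C', hC, hC', X, Y, _, _, _, _, _, _, eX, eY, heX, heY, F, F', d, hd,
      hF1, hF2, hF⟩ := hR H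
    obtain ⟨k, hk, h⟩ := T_interP (R := R) hK hp h0 (MulAction.toPermHom H X)
      (MulAction.toPermHom H Y) F F' d hd hF1 hF2 (fun h y x => hF h y x) A
    refine ⟨k * m, Nat.mul_pos hk hm, ?_⟩
    -- decomposition of X
    letI : Fintype (Σ j, H ⧸ C' j) := Fintype.ofFinite _
    letI : DecidableEq (Σ j, H ⧸ C' j) := Classical.decEq _
    let τ : H →* Equiv.Perm (Σ j, H ⧸ C' j) :=
      { toFun := fun h => Equiv.sigmaCongrRight fun j => MulAction.toPermHom H (H ⧸ C' j) h
        map_one' := by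
          ext1 ⟨j, z⟩
          simp
        map_mul' := by
          intro h h'
          ext1 ⟨j, z⟩
          simp [mul_smul] }
    let ρ : H →* Equiv.Perm (ULift.{v} (Fin m) ⊕ Σ j, H ⧸ C' j) :=
      { toFun := fun h => Equiv.sumCongr (Equiv.refl _) (τ h)
        map_one' := by
          ext1 (z | z) <;> simp
        map_mul' := by
          intro h h'
          ext1 (z | z) <;> simp [mul_smul] }
    have hX : T (MulAction.toPermHom H X) A = m • K1.cls A + ∑ j, TQ (C' j) A := by
      rw [T_equiv hK _ ρ (eX.trans (Equiv.sumCongr Equiv.ulift.symm (Equiv.refl _))) (by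
        intro h z
        have h3 : eX ((MulAction.toPermHom H X) h z)
            = Sum.map id (fun z => ⟨z.1, h • z.2⟩) (eX z) := heX h z
        rw [Equiv.trans_apply, Equiv.trans_apply, h3]
        rcases eX z with s | s <;> rfl),
        T_sum hK (1 : H →* Equiv.Perm (ULift.{v} (Fin m))) τ ρ (fun _ _ => rfl) (fun _ _ => rfl),
        T_triv hK0 hK m _ 1 (fun _ _ => rfl) Equiv.ulift,
        T_sigma hK b C' _ τ (Equiv.refl _) (fun _ _ => rfl)]
    have hY : T (MulAction.toPermHom H Y) A = ∑ i, TQ (C i) A :=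
      T_sigma hK a C _ _ eY (fun h z => heY h z) A
    rw [hX, hY, smul_add, ← eq_sub_iff_add_eq, ← mul_nsmul'] at h
    rw [h, sub_eq_add_neg]
    refine Good.add (Good.nsmul (Good.sum fun i => Good.of (hC i) (TQ_mem hK _ A)) k)
      (Good.neg (Good.nsmul (Good.sum fun j => Good.of (hC' j) (TQ_mem hK _ A)) k))
  -- all elements
  induction x using QuotientAddGroup.induction_on with
  | _ z =>
    induction z using FreeAbelianGroup.induction_on with
    | zero =>
      refine ⟨1, one_pos, ?_⟩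
      have : (1 : ℕ) • ((QuotientAddGroup.mk (0 : FreeAbelianGroup (K1Gen (MonoidAlgebra R H)))) :
        K1 (MonoidAlgebra R H)) = 0 := smul_zero _
      change Good ((1 : ℕ) • ((QuotientAddGroup.mk (0 : FreeAbelianGroup (K1Gen (MonoidAlgebra R H)))) :
        K1 (MonoidAlgebra R H)))
      rw [this]
      exact Good.zero
    | of g =>
      obtain ⟨n, A⟩ := g
      exact hmat n A
    | neg g h =>
      obtain ⟨m, hm, h⟩ := h
      refine ⟨m, hm, ?_⟩
      have e : m • ((QuotientAddGroup.mk (-(FreeAbelianGroup.of g))) : K1 (MonoidAlgebra R H))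
          = -(m • (QuotientAddGroup.mk (FreeAbelianGroup.of g) : K1 (MonoidAlgebra R H))) :=
        smul_neg m (QuotientAddGroup.mk (FreeAbelianGroup.of g) : K1 (MonoidAlgebra R H))
      change Good (m • ((QuotientAddGroup.mk (-(FreeAbelianGroup.of g))) : K1 (MonoidAlgebra R H)))
      rw [e]
      exact h.neg
    | add a b ha hb =>
      obtain ⟨m, hm, h⟩ := ha
      obtain ⟨m', hm', h'⟩ := hb
      refine ⟨m * m', Nat.mul_pos hm hm', ?_⟩
      have e : (m * m') • ((QuotientAddGroup.mk (a + b)) : K1 (MonoidAlgebra R H))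
          = m' • (m • (QuotientAddGroup.mk a : K1 (MonoidAlgebra R H)))
            + m • (m' • (QuotientAddGroup.mk b : K1 (MonoidAlgebra R H))) := by
        rw [← mul_nsmul, ← mul_nsmul']
        exact nsmul_add (QuotientAddGroup.mk a : K1 (MonoidAlgebra R H))
          (QuotientAddGroup.mk b : K1 (MonoidAlgebra R H)) (m * m')
      change Good ((m * m') • ((QuotientAddGroup.mk (a + b)) : K1 (MonoidAlgebra R H)))
      rw [e]
      exact (h.nsmul m').add (h'.nsmul m)

/-- induction for `K_1` -/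
theorem k1_mem {A : Type w} [Ring A] (S : AddSubgroup (K1 A))
    (h : ∀ (n : ℕ) (u : (Matrix (Fin n) (Fin n) A)ˣ), K1.cls u ∈ S) (x : K1 A) : x ∈ S := by
  have h1 : QuotientAddGroup.mk' S = 0 := K1.ext fun n u => (QuotientAddGroup.eq_zero_iff _).2 (h n u)
  exact (QuotientAddGroup.eq_zero_iff x).1 (DFunLike.congr_fun h1 x)

/-! ### nilpotent kernels -/

/-- a matrix which is `1` modulo nilpotent elements has class of finite order -/
theorem cls_torsion (hK0 : SpecK.{w, 0}) {A : Type w} [CommRing A] {p : ℕ} (hp : p.Prime)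
    (h0 : (p : A) = 0) {n : ℕ} (B : (Matrix (Fin n) (Fin n) A)ˣ)
    (hB : ∀ i j, IsNilpotent ((B.val - 1) i j)) : ∃ k : ℕ, p ^ k • K1.cls B = 0 := by
  set N : Matrix (Fin n) (Fin n) A := B.val - 1 with hN
  set J : Ideal A := Ideal.span (Set.range fun ij : Fin n × Fin n => N ij.1 ij.2) with hJ
  have hJfg : J.FG := ⟨(Set.finite_range fun ij : Fin n × Fin n => N ij.1 ij.2).toFinset, by
    rw [Set.Finite.coe_toFinset]⟩
  have hJnil : IsNilpotent J := by
    rw [hJfg.isNilpotent_iff_le_nilradical, hJ, Ideal.span_le]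
    rintro _ ⟨⟨i, j⟩, rfl⟩
    exact hB i j
  obtain ⟨m, hm⟩ := hJnil
  have hpow : ∀ (k : ℕ) (i j : Fin n), (N ^ k) i j ∈ J ^ k := by
    intro k
    induction k with
    | zero => intro i j; rw [pow_zero, pow_zero, Ideal.one_eq_top]; exact Submodule.mem_top
    | succ k ih =>
      intro i j
      rw [pow_succ, pow_succ, Matrix.mul_apply]
      refine Ideal.sum_mem _ fun l _ => Ideal.mul_mem_mul (ih i l) ?_
      exact Ideal.subset_span ⟨(l, j), rfl⟩
  have hmp : m ≤ p ^ m := (Nat.lt_pow_self hp.one_lt).le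
  have hN0 : N ^ p ^ m = 0 := by
    ext i j
    have h1 := Ideal.pow_le_pow_right hmp (hpow (p ^ m) i j)
    rw [hm] at h1
    exact h1
  refine ⟨m, ?_⟩
  have h2 : B ^ p ^ m = 1 := by
    apply Units.ext
    have h3 : B.val = 1 + N := by rw [hN]; abel
    rw [Units.val_pow_eq_pow_val, h3, one_add_pow hp (mat_zero h0), hN0, add_zero, Units.val_one]
  rw [← hK0.cls, ← clsF_pow hK0, h2, clsF_one hK0]

/-- reduction of a cyclic group to its part prime to `p` -/
theorem cyc_part (hK0 : SpecK.{max u v, 0}) {p : ℕ}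
    (hp : p.Prime) (h0 : (p : R) = 0) {C : Type v} [CommGroup C] [Finite C] :
    ∃ (D : Subgroup C) (_ : Nat.Coprime p (Nat.card D)) (q : C →* D),
      ∀ x : K1 (MonoidAlgebra R C), ∃ k : ℕ, p ^ k • x = p ^ k • K1.map
        (MonoidAlgebra.mapDomainRingHom R D.subtype)
        (K1.map (MonoidAlgebra.mapDomainRingHom R q) x) := by
  set c := Nat.card C with hc
  have hc0 : c ≠ 0 := Nat.card_pos.ne'
  obtain ⟨e, s, hs, hes⟩ := Nat.exists_eq_pow_mul_and_not_dvd hc0 p hp.ne_one
  have hcop : Nat.Coprime (p ^ e) s := Nat.Coprime.pow_left e ((Nat.Prime.coprime_iff_not_dvd hp).2 hs)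
  obtain ⟨t, ht1, ht2⟩ := Nat.chineseRemainder hcop 0 1
  -- the subgroup
  set D : Subgroup C := (powMonoidHom s : C →* C).ker with hD
  have hmem : ∀ x : C, x ^ t ∈ D := by
    intro x
    rw [hD, MonoidHom.mem_ker]
    change (x ^ t) ^ s = 1
    have h1 : p ^ e ∣ t := (Nat.modEq_zero_iff_dvd).1 ht1
    have h2 : c ∣ t * s := by rw [hes]; exact Nat.mul_dvd_mul_right h1 s
    obtain ⟨r, hr⟩ := h2
    rw [← pow_mul, hr, pow_mul, hc, pow_card_eq_one', one_pow]
  have hDc : Nat.Coprime p (Nat.card D) := by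
    rw [Nat.Prime.coprime_iff_not_dvd hp]
    intro h
    haveI := Fact.mk hp
    obtain ⟨x, hx⟩ := exists_prime_orderOf_dvd_card' (G := D) p h
    have h1 : (x : D) ^ s = 1 := Subtype.ext (MonoidHom.mem_ker.1 x.2)
    have h2 := orderOf_dvd_of_pow_eq_one h1
    rw [hx] at h2
    exact hs h2
  let q : C →* D :=
    { toFun := fun x => ⟨x ^ t, hmem x⟩
      map_one' := by apply Subtype.ext; simp
      map_mul' := by intro x y; apply Subtype.ext; simp [mul_pow] }
  refine ⟨D, hDc, q, ?_⟩
  -- the composition on the group ring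
  set f : MonoidAlgebra R C →+* MonoidAlgebra R C :=
    (MonoidAlgebra.mapDomainRingHom R D.subtype).comp (MonoidAlgebra.mapDomainRingHom R q) with hf
  have hf1 : ∀ (x : C) (r : R), f (MonoidAlgebra.single x r) = MonoidAlgebra.single (x ^ t) r := by
    intro x r
    rw [hf]
    simp [q]
  have hp0 : ((p : ℕ) : MonoidAlgebra R C) = 0 := by
    have h1 : ((p : ℕ) : MonoidAlgebra R C) = algebraMap R (MonoidAlgebra R C) (p : R) := by
      rw [map_natCast]
    rw [h1, h0, map_zero]
  have hfr : ∀ a b : MonoidAlgebra R C, (a + b) ^ p ^ e = a ^ p ^ e + b ^ p ^ e := by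
    intro a b
    obtain ⟨z, hz⟩ := (Commute.all a b).exists_add_pow_prime_pow_eq hp e
    rw [hz, hp0, zero_mul, zero_mul, zero_mul, add_zero]
  have hxt : ∀ x : C, (x ^ t) ^ p ^ e = x ^ p ^ e := by
    intro x
    have h1 : t * p ^ e ≡ p ^ e [MOD c] := by
      have h2 : t * p ^ e ≡ 1 * p ^ e [MOD s * p ^ e] := Nat.ModEq.mul_right' (p ^ e) ht2
      rw [one_mul, mul_comm s] at h2
      rwa [hes]
    rw [← pow_mul]
    exact (pow_eq_pow_iff_modEq).2 (h1.of_dvd (by rw [hc]; exact orderOf_dvd_natCard x))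
  have hpe : ∀ a : MonoidAlgebra R C, (f a) ^ p ^ e = a ^ p ^ e := by
    intro a
    induction a using MonoidAlgebra.induction_linear with
    | zero => simp
    | add a b ha hb => rw [map_add, hfr, hfr, ha, hb]
    | single x r => rw [hf1, MonoidAlgebra.single_pow, MonoidAlgebra.single_pow, hxt]
  have hff : ∀ a : MonoidAlgebra R C, IsNilpotent (a - f a) := by
    intro a
    refine ⟨p ^ e, ?_⟩
    have h1 := hfr (a - f a) (f a)
    rw [sub_add_cancel, hpe] at h1
    exact (add_eq_right.1 h1.symm)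
  -- matrices
  have hmat : ∀ (n : ℕ) (A : (Matrix (Fin n) (Fin n) (MonoidAlgebra R C))ˣ),
      ∃ k : ℕ, p ^ k • K1.cls A = p ^ k • K1.map f (K1.cls A) := by
    intro n A
    set A' : (Matrix (Fin n) (Fin n) (MonoidAlgebra R C))ˣ :=
      Units.map f.mapMatrix.toMonoidHom A with hA'
    obtain ⟨k, hk⟩ := cls_torsion hK0 hp hp0 (A * A'⁻¹) (by
      intro i j
      have h1 : ((A * A'⁻¹).val - 1) = (A.val - A'.val) * (A'⁻¹).val := by
        rw [Matrix.sub_mul, Units.mul_inv, Units.val_mul]
      rw [h1, Matrix.mul_apply]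
      have h2 : ∀ l, (A.val - A'.val) i l * (A'⁻¹).val l j ∈ nilradical (MonoidAlgebra R C) := by
        intro l
        refine Ideal.mul_mem_right _ _ ?_
        exact hff (A.val i l)
      exact Ideal.sum_mem _ fun l _ => h2 l)
    refine ⟨k, ?_⟩
    have h3 : K1.cls A = K1.cls (A * A'⁻¹) + K1.cls A' := by
      rw [← K1.cls_mul, inv_mul_cancel_right]
    rw [K1.map_cls, ← hA', h3, smul_add, hk, zero_add]
  have hcomp : ∀ x : K1 (MonoidAlgebra R C), K1.map (MonoidAlgebra.mapDomainRingHom R D.subtype)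
        (K1.map (MonoidAlgebra.mapDomainRingHom R q) x) = K1.map f x := by
    intro x
    have h1 : (K1.map (MonoidAlgebra.mapDomainRingHom R D.subtype)).comp
        (K1.map (MonoidAlgebra.mapDomainRingHom R q)) = K1.map f := by
      apply K1.ext
      intro n u
      rw [AddMonoidHom.comp_apply, K1.map_cls, K1.map_cls, K1.map_cls]
      rfl
    exact DFunLike.congr_fun h1 x
  intro x
  rw [hcomp]
  let S : AddSubgroup (K1 (MonoidAlgebra R C)) :=
    { carrier := {x | ∃ k : ℕ, p ^ k • x = p ^ k • K1.map f x}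
      zero_mem' := ⟨0, by rw [map_zero]⟩
      add_mem' := by
        rintro a b ⟨k, h⟩ ⟨k', h'⟩
        refine ⟨k + k', ?_⟩
        rw [map_add, smul_add, smul_add]
        congr 1
        · rw [pow_add, mul_comm, mul_nsmul', mul_nsmul', h]
        · rw [pow_add, mul_nsmul', mul_nsmul', h']
      neg_mem' := by
        rintro a ⟨k, h⟩
        refine ⟨k, ?_⟩
        rw [map_neg, smul_neg, smul_neg, h] }
  exact k1_mem S hmat x

theorem map_map' {A : Type u} {B : Type v} {C : Type w} [Ring A] [Ring B] [Ring C] (f : A →+* B)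
    (g : B →+* C) (x : K1 A) : K1.map g (K1.map f x) = K1.map (g.comp f) x := by
  have h1 : (K1.map g).comp (K1.map f) = K1.map (g.comp f) := by
    apply K1.ext
    intro n u
    rw [AddMonoidHom.comp_apply, K1.map_cls, K1.map_cls, K1.map_cls]
    rfl
  exact DFunLike.congr_fun h1 x

/-- one cyclic subgroup -/
theorem cyc_sub (hK0 : SpecK.{max u v, 0}) {p : ℕ} (hp : p.Prime) (h0 : (p : R) = 0) {H : Type v}
    [Group H] [Finite H] (C : Subgroup H) (hC : IsCyclic C) (y : K1 (MonoidAlgebra R C)) :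
    ∃ (D : Subgroup H) (_ : IsCyclic D) (_ : Nat.Coprime p (Nat.card D)) (k : ℕ)
      (z : K1 (MonoidAlgebra R D)),
      p ^ k • K1.map (MonoidAlgebra.mapDomainRingHom R C.subtype) y =
        K1.map (MonoidAlgebra.mapDomainRingHom R D.subtype) z := by
  letI : CommGroup C := IsCyclic.commGroup
  obtain ⟨D, hD, q, h⟩ := cyc_part (R := R) hK0 hp h0 (C := C)
  obtain ⟨k, hk⟩ := h y
  let e : D ≃* D.map C.subtype := D.equivMapOfInjective C.subtype C.subtype_injective
  have hDc : IsCyclic D := inferInstance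
  refine ⟨D.map C.subtype, isCyclic_of_surjective e e.surjective,
    by rwa [← Nat.card_congr e.toEquiv], k, K1.map (MonoidAlgebra.mapDomainRingHom R e.toMonoidHom)
      (p ^ k • K1.map (MonoidAlgebra.mapDomainRingHom R q) y), ?_⟩
  have h1 : ∀ z : K1 (MonoidAlgebra R D),
      K1.map (MonoidAlgebra.mapDomainRingHom R (D.map C.subtype).subtype)
        (K1.map (MonoidAlgebra.mapDomainRingHom R e.toMonoidHom) z) =
      K1.map (MonoidAlgebra.mapDomainRingHom R C.subtype)
        (K1.map (MonoidAlgebra.mapDomainRingHom R D.subtype) z) := by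
    intro z
    rw [map_map', map_map']
    congr 2
    apply RingHom.ext
    intro a
    induction a using MonoidAlgebra.induction_linear with
    | zero => simp
    | add a b ha hb => rw [map_add, map_add, ha, hb]
    | single x r => simp [e]
  rw [h1, map_nsmul, ← hk, map_nsmul]

end SP

open SM SP in
/-- SRp. -/
theorem specSRp (hK0 : SpecK.{max u v, 0}) (hK : SpecK.{max u v, v}) (hR : SpecR.{v}) :
    SpecSRp.{u, v} := by
  intro p hp R _ h0 H _ _ x
  obtain ⟨m, hm, hg⟩ := good_of hK0 hK hR hp h0 x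
  obtain ⟨a, C, hC, y, h⟩ := hg.fin
  have hex := fun i => cyc_sub hK0 hp h0 (C i) (hC i) (y i)
  choose D hD hDp k z hz using hex
  refine ⟨p ^ (∑ i, k i) * m, Nat.mul_pos (pow_pos hp.pos _) hm, a, D, hD, hDp,
    fun i => p ^ (∑ j ∈ Finset.univ.erase i, k j) • z i, ?_⟩
  rw [mul_nsmul', h, Finset.smul_sum]
  refine Finset.sum_congr rfl fun i _ => ?_
  rw [map_nsmul, ← hz i, ← Finset.sum_erase_add _ _ (Finset.mem_univ i), pow_add, mul_nsmul']

end Pool.Agent.Lib.MPb6f35e.WH
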