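import Pool.Agent.Lib.MP_b6f35e_al.P.F1V
import Pool.Agent.Lib.MP_b6f35e_al.P.PA2
import Pool.Agent.Lib.MP_b6f35e_al.P.SRp
import Pool.Agent.Lib.MP_b6f35e_al.WH.Cor
import Pool.Agent.Lib.MP_b6f35e_al.WH.E5
import Pool.Agent.Lib.MP_b6f35e_al.WH.K

/-!
# Hive 30, line P, module Log, part 1  (MP_b6f35e_al)

For residue data `d : RD p T E M` and a ring homomorphism `h : R → E` the functions
`c ↦ rho_C(h(x))(c)` of the units `x` of `R[C]`: push forward, injections, norms (if `h` factors
through a field), trivial units.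
-/

set_option autoImplicit false

noncomputable section

namespace Pool.Agent.Lib.MPb6f35e.WH

universe u u' v w y z

namespace Log

open F1 PA

/-! ### classes and determinants in `K_1(L[D])` -/

lemma det_clsF {A : Type u} [CommRing A] {ι : Type v} [Fintype ι] [DecidableEq ι]
    (x : (Matrix ι ι A)ˣ) : Cor.det A (K1.clsF x) = Additive.ofMul (Cor.detU x) := by
  unfold Cor.det K1.clsF
  rw [K1.lift_cls]
  congr 1
  apply Units.ext
  exact Matrix.det_reindex_self _ _

/-- In `K_1(L[D])` the class of an invertible matrix is the class of its determinant, up to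
torsion. -/
lemma cls_det {L : Type u} [Field L] {D : Type v} [CommGroup D] [Finite D] {ι : Type w}
    [Fintype ι] [DecidableEq ι] (x : (Matrix ι ι (MonoidAlgebra L D))ˣ) :
    ∃ (m : ℕ) (_ : 0 < m), m • K1.clsF x = m • K1.unit (Cor.detU x) := by
  have hfq : ∀ a : L, a ≠ 0 → Finite (L ⧸ Ideal.span {a}) := by
    intro a ha
    have h1 : Ideal.span {a} = ⊤ := Ideal.span_singleton_eq_top.2 (isUnit_iff_ne_zero.2 ha)
    rw [h1]
    have : Subsingleton (L ⧸ (⊤ : Ideal L)) := Ideal.Quotient.subsingleton_iff.2 rfl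
    exact Finite.of_subsingleton
  obtain ⟨m, hm, y, hy⟩ := EM.er_gen hfq specK (K1.clsF x)
  refine ⟨m, hm, ?_⟩
  have h1 := congrArg (Cor.det (MonoidAlgebra L D)) hy
  rw [map_nsmul, det_clsF, Cor.det_unit, ← ofMul_pow] at h1
  have h2 : Cor.detU x ^ m = y := Additive.ofMul.injective h1
  rw [hy, ← h2]
  exact map_nsmul (unitHom (MonoidAlgebra L D)) m (Additive.ofMul (Cor.detU x))

/-! ### the invariant -/

variable {p : ℕ} {T : Type y} [Ring T] {E : Type u'} [Ring E] {M : Type w} [AddCommGroup M]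
  (d : RD p T E M) {R : Type u} [CommRing R] (h : R →+* E)

/-- The invariant `K_1(R[G]) → (conj G → M)`. -/
def inv (G : Type v) [Group G] : K1 (MonoidAlgebra R G) →+ (ConjClasses G → M) :=
  (d.rho G).comp (K1.map (MonoidAlgebra.mapRingHom G h))

lemma inv_apply (G : Type v) [Group G] (y : K1 (MonoidAlgebra R G)) :
    inv d h G y = d.rho G (K1.map (MonoidAlgebra.mapRingHom G h) y) := rfl

/-- The logarithm of a unit. -/
def lg (C : Type v) [Group C] : Additive (MonoidAlgebra R C)ˣ →+ (C → M) where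
  toFun x := fun c => inv d h C (K1.unit x.toMul) (ConjClasses.mk c)
  map_zero' := by
    funext c
    have h1 : inv d h C (unitHom (MonoidAlgebra R C) 0) = 0 := by rw [map_zero, map_zero]
    exact congrFun h1 (ConjClasses.mk c)
  map_add' x y := by
    funext c
    have h1 : inv d h C (unitHom (MonoidAlgebra R C) (x + y)) =
        inv d h C (unitHom (MonoidAlgebra R C) x) + inv d h C (unitHom (MonoidAlgebra R C) y) := by
      rw [map_add, map_add]
    exact congrFun h1 (ConjClasses.mk c)

lemma lg_apply (C : Type v) [Group C] (x : Additive (MonoidAlgebra R C)ˣ) (c : C) :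
    lg d h C x c = inv d h C (K1.unit x.toMul) (ConjClasses.mk c) := rfl

lemma mapRing_mapDomain {C : Type v} {G : Type v} [Group C] [Group G] (f : C →* G)
    (a : MonoidAlgebra R C) :
    MonoidAlgebra.mapRingHom G h (MonoidAlgebra.mapDomainRingHom R f a) =
      MonoidAlgebra.mapDomainRingHom E f (MonoidAlgebra.mapRingHom C h a) := by
  induction a using MonoidAlgebra.induction_linear with
  | zero => simp
  | add y z hy hz => simp only [map_add, hy, hz]
  | single g t => simp [MonoidAlgebra.mapDomain_single]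

lemma map_mU {C : Type v} {G : Type v} [Group C] [Group G] (f : C →* G)
    (x : (MonoidAlgebra R C)ˣ) :
    K1.map (MonoidAlgebra.mapRingHom G h) (K1.unit (mU R f x)) =
      K1.map (MonoidAlgebra.mapDomainRingHom E f)
        (K1.map (MonoidAlgebra.mapRingHom C h) (K1.unit x)) := by
  rw [unit_map, unit_map, unit_map]
  congr 1
  apply Units.ext
  exact mapRing_mapDomain h f x

open Classical in
lemma inv_push {C : Type v} [CommGroup C] [Fintype C] {G : Type v} [Group G] (f : C →* G)
    (x : (MonoidAlgebra R C)ˣ) (κ : ConjClasses G) :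
    inv d h G (K1.unit (mU R f x)) κ =
      ∑ c : C, if ConjClasses.mk (f c) = κ then lg d h C (Additive.ofMul x) c else 0 := by
  rw [inv_apply, map_mU, d.rho_push]
  rfl

lemma lg_map {C C' : Type v} [CommGroup C] [CommGroup C'] [Finite C] (f : C →* C')
    (hf : Function.Injective f) (x : (MonoidAlgebra R C)ˣ) (c : C) :
    lg d h C' (Additive.ofMul (mU R f x)) (f c) = lg d h C (Additive.ofMul x) c := by
  have : Fintype C := Fintype.ofFinite C
  show inv d h C' (K1.unit (mU R f x)) (ConjClasses.mk (f c)) = _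
  rw [inv_apply, map_mU, d.rho_inj f hf]
  rfl

lemma lg_map_not {C C' : Type v} [CommGroup C] [CommGroup C'] [Finite C] (f : C →* C')
    (x : (MonoidAlgebra R C)ˣ) (c' : C') (hc : c' ∉ Set.range f) :
    lg d h C' (Additive.ofMul (mU R f x)) c' = 0 := by
  have : Fintype C := Fintype.ofFinite C
  show inv d h C' (K1.unit (mU R f x)) (ConjClasses.mk c') = _
  rw [inv_apply, map_mU, d.rho_not f _ c' hc]

/-! ### the norm -/

open Classical in
lemma lg_norm {L : Type z} [Field L] (h₁ : R →+* L) (h₂ : L →+* E) {C : Type v} [CommGroup C]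
    [Finite C] (D : Subgroup C) (x : (MonoidAlgebra R C)ˣ) (y : D) :
    lg d (h₂.comp h₁) D (Additive.ofMul (L2.nrm R D x)) y =
      D.index • lg d (h₂.comp h₁) C (Additive.ofMul x) (y : C) := by
  have : Fintype C := Fintype.ofFinite C
  -- the matrix over `L[D]`
  set X : (Matrix (C ⧸ D) (C ⧸ D) (MonoidAlgebra L D))ˣ :=
    Units.map (L2.rho L D).toMonoidHom (Units.map (MonoidAlgebra.mapRingHom C h₁).toMonoidHom x)
    with hX
  obtain ⟨m, hm, hmX⟩ := cls_det X
  have hdet : Cor.detU X = Units.map (MonoidAlgebra.mapRingHom D h₁).toMonoidHom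
      (L2.nrm R D x) := by
    apply Units.ext
    exact (L2.nrm_map D h₁ x).symm
  -- both sides in `M`
  have hcomp : ∀ (G : Type v) [Group G] (a : MonoidAlgebra R G),
      MonoidAlgebra.mapRingHom G h₂ (MonoidAlgebra.mapRingHom G h₁ a) =
        MonoidAlgebra.mapRingHom G (h₂.comp h₁) a := by
    intro G _ a
    induction a using MonoidAlgebra.induction_linear with
    | zero => simp
    | add y z hy hz => simp only [map_add, hy, hz]
    | single g t => simp
  have h1 : d.rho D (K1.map (MonoidAlgebra.mapRingHom D h₂) (K1.unit (Cor.detU X)))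
      (ConjClasses.mk y) = lg d (h₂.comp h₁) D (Additive.ofMul (L2.nrm R D x)) y := by
    have e0 : Units.map (MonoidAlgebra.mapRingHom D h₂).toMonoidHom
        (Units.map (MonoidAlgebra.mapRingHom D h₁).toMonoidHom (L2.nrm R D x)) =
        Units.map (MonoidAlgebra.mapRingHom D (h₂.comp h₁)).toMonoidHom (L2.nrm R D x) := by
      apply Units.ext
      exact hcomp D _
    rw [lg_apply, inv_apply, hdet, unit_map, unit_map, e0]
    rfl
  have h2 : d.rho D (K1.map (MonoidAlgebra.mapRingHom D h₂) (K1.clsF X))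
      (ConjClasses.mk y) = D.index • lg d (h₂.comp h₁) C (Additive.ofMul x) (y : C) := by
    set u : (Matrix (Fin 1) (Fin 1) (MonoidAlgebra E C))ˣ :=
      oneByOne (Units.map (MonoidAlgebra.mapRingHom C (h₂.comp h₁)).toMonoidHom x) with hu
    have e1 := d.val_res D y u
    have e2 : lg d (h₂.comp h₁) C (Additive.ofMul x) (y : C) =
        d.val u (ConjClasses.mk (y : C)) := by
      rw [lg_apply, inv_apply, unit_map]
      unfold K1.unit
      rw [RD.rho_cls]
      rfl
    rw [e2, ← e1]
    unfold K1.clsF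
    rw [K1.map_cls, RD.rho_cls]
    let e : Fin 1 × (C ⧸ D) ≃ Fin (Fintype.card (C ⧸ D)) :=
      (Equiv.uniqueProd (C ⧸ D) (Fin 1)).trans (Fintype.equivFin (C ⧸ D))
    rw [← d.val_reindex e]
    congr 1
    apply Units.ext
    ext1 i j
    show MonoidAlgebra.mapRingHom D h₂ (L2.rho L D (MonoidAlgebra.mapRingHom C h₁
        (x : MonoidAlgebra R C)) ((Fintype.equivFin (C ⧸ D)).symm i)
          ((Fintype.equivFin (C ⧸ D)).symm j)) =
      RD.res E D (MonoidAlgebra.mapRingHom C (h₂.comp h₁) (x : MonoidAlgebra R C))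
        ((Fintype.equivFin (C ⧸ D)).symm i) ((Fintype.equivFin (C ⧸ D)).symm j)
    rw [← hcomp, RD.res_map, RD.res_eq, Matrix.map_apply]
  rw [← h1, ← h2, ← sub_eq_zero]
  apply d.tf m hm.ne'
  rw [smul_sub, sub_eq_zero]
  have h3 := congrArg (fun z => d.rho D (K1.map (MonoidAlgebra.mapRingHom D h₂) z)
    (ConjClasses.mk y)) hmX
  simp only [map_nsmul, Pi.smul_apply] at h3
  exact h3.symm

/-! ### trivial units -/

lemma inv_gUnit {G : Type v} [Group G] (g : G) (κ : ConjClasses G) :
    inv d h G (K1.unit (gUnit R g)) κ = 0 := by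
  rw [inv_apply, unit_map]
  unfold K1.unit
  rw [RD.rho_cls]
  apply d.sep
  intro m
  have h1 : ∀ a b : G, (Matrix.of fun (_ _ : Fin 1) => (MonoidAlgebra.single a (1 : T))) *
      (Matrix.of fun (_ _ : Fin 1) => (MonoidAlgebra.single b (1 : T))) =
      Matrix.of fun (_ _ : Fin 1) => (MonoidAlgebra.single (a * b) (1 : T)) := by
    intro a b
    ext1 i j
    rw [Matrix.mul_apply]
    simp [MonoidAlgebra.single_mul_single]
  have h2 : (Matrix.of fun (_ _ : Fin 1) => (MonoidAlgebra.single (1 : G) (1 : T))) = 1 := by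
    ext1 i j
    fin_cases i; fin_cases j
    rfl
  refine (d.val_spec _ κ m (Matrix.of fun _ _ => (MonoidAlgebra.single g (1 : T)))
    (Matrix.of fun _ _ => (MonoidAlgebra.single g⁻¹ (1 : T))) ?_ ?_).trans (Cg.of_eq ?_)
  · ext1 i j
    show MonoidAlgebra.mapRingHom G d.π (MonoidAlgebra.single g (1 : T)) =
      MonoidAlgebra.mapRingHom G h (MonoidAlgebra.single g 1)
    rw [MonoidAlgebra.mapRingHom_single, MonoidAlgebra.mapRingHom_single, map_one, map_one]
  · constructor
    · rw [h1, mul_inv_cancel, h2]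
      exact Cg.refl _
    · rw [h1, inv_mul_cancel, h2]
      exact Cg.refl _
  · have hθ1 : d.θ 1 = 0 := by
      have := d.leib 1 1
      rw [mul_one, mul_one, one_mul] at this
      exact left_eq_add.1 this
    have h3 : d.Θ (Matrix.of fun (_ _ : Fin 1) => (MonoidAlgebra.single g (1 : T))) = 0 := by
      ext1 i j
      show d.θG G (MonoidAlgebra.single g (1 : T)) = 0
      rw [RD.θG_single, hθ1, MonoidAlgebra.single_zero]
    unfold RD.D
    rw [h3, Matrix.mul_zero, map_zero]
    rfl

lemma inv_neg_gUnit {G : Type v} [Group G] (g : G) (κ : ConjClasses G) :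
    inv d h G (K1.unit (-gUnit R g)) κ = 0 := by
  have h1 : 2 • K1.unit (-gUnit R g) = (2 • K1.unit (gUnit R g) : K1 (MonoidAlgebra R G)) := by
    rw [two_nsmul, two_nsmul, ← unit_mul, ← unit_mul]
    congr 1
    rw [neg_mul_neg]
  apply d.tf 2 (by norm_num)
  have h2 := congrArg (fun z => inv d h G z κ) h1
  simp only [map_nsmul, Pi.smul_apply] at h2
  rw [h2, inv_gUnit, smul_zero]

lemma inv_trivialUnits {G : Type v} [Group G] (z : K1 (MonoidAlgebra R G))
    (hz : z ∈ trivialUnits R G) : inv d h G z = 0 := by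
  have h1 : trivialUnits R G ≤ (inv d h G).ker := by
    unfold trivialUnits
    rw [AddSubgroup.closure_le]
    rintro y ⟨g, rfl | rfl⟩
    · funext κ
      exact inv_gUnit d h g κ
    · funext κ
      exact inv_neg_gUnit d h g κ
  exact h1 hz

lemma inv_torsion {G : Type v} [Group G] (z : K1 (MonoidAlgebra R G))
    (hz : IsOfFinAddOrder (QuotientAddGroup.mk' (trivialUnits R G) z : Wh R G)) :
    inv d h G z = 0 := by
  rw [isOfFinAddOrder_iff_nsmul_eq_zero] at hz
  obtain ⟨n, hn, h1⟩ := hz
  rw [← map_nsmul] at h1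
  have h2 : n • z ∈ trivialUnits R G := (QuotientAddGroup.eq_zero_iff _).1 h1
  have h3 := inv_trivialUnits d h _ h2
  funext κ
  apply d.tf n hn.ne'
  rw [map_nsmul] at h3
  exact congrFun h3 κ

open Classical in
/-- The relation. -/
lemma relation {G : Type v} [Group G] {m : ℕ} (C : Fin m → Type v) [∀ i, CommGroup (C i)]
    [∀ i, Fintype (C i)] (φ : ∀ i, C i →* G) (x : ∀ i, (MonoidAlgebra R (C i))ˣ)
    (hx : IsOfFinAddOrder (QuotientAddGroup.mk' (trivialUnits R G)
      (∑ i, K1.unit (mU R (φ i) (x i))) : Wh R G)) (κ : ConjClasses G) :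
    ∑ i, ∑ c : C i, (if ConjClasses.mk (φ i c) = κ then
      lg d h (C i) (Additive.ofMul (x i)) c else 0) = 0 := by
  have h1 := congrFun (inv_torsion d h _ hx) κ
  rw [map_sum, Finset.sum_apply] at h1
  refine Eq.trans ?_ h1
  exact Finset.sum_congr rfl fun i _ => (inv_push d h (φ i) (x i) κ).symm

/-! ### detection -/

lemma evc_mapRing {C : Type v} [CommGroup C] [Fintype C] (χ' : C →* E)
    (hχ' : ∀ (a : E) (c : C), Commute a (χ' c)) (a : MonoidAlgebra R C) :
    RD.evc PUnit.{1} χ' hχ' (MonoidAlgebra.mapRingHom C h a) =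
      MonoidAlgebra.single 1 (∑ c : C, h (a.coeff c) * χ' c) := by
  classical
  induction a using MonoidAlgebra.induction_linear with
  | zero => simp
  | add y z hy hz =>
    rw [map_add, map_add, hy, hz, ← MonoidAlgebra.single_add, ← Finset.sum_add_distrib]
    congr 1
    refine Finset.sum_congr rfl fun c _ => ?_
    rw [MonoidAlgebra.coeff_add, Finsupp.add_apply, map_add, add_mul]
  | single g t =>
    rw [MonoidAlgebra.mapRingHom_single, RD.evc_single, Finset.sum_eq_single g]
    · rw [MonoidAlgebra.coeff_single, Finsupp.single_eq_same]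
    · intro c _ hcg
      rw [MonoidAlgebra.coeff_single, Finsupp.single_apply, if_neg (fun h => hcg h.symm), map_zero,
        zero_mul]
    · intro h0
      exact absurd (Finset.mem_univ _) h0

/-- Detection: if a twisted augmentation of `h(x)` is `s` with `ε(s⁻¹ θ s) ≠ 0`, then the logarithm
of `x` is not zero. -/
lemma detect {C : Type v} [CommGroup C] [Fintype C] (χ : C →* T)
    (hχ : ∀ (a : T) (c : C), Commute a (χ c)) (hθχ : ∀ c, d.θ (χ c) = 0)
    (sm : C → M →+ M) (hs : ∀ t c, d.ε (t * χ c) = sm c (d.ε t))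
    (χ' : C →* E) (hχ' : ∀ (a : E) (c : C), Commute a (χ' c)) (hπ : ∀ c, d.π (χ c) = χ' c)
    (x : (MonoidAlgebra R C)ˣ) (s : Tˣ)
    (hx : ∑ c : C, h ((x : MonoidAlgebra R C).coeff c) * χ' c = d.π s)
    (hne : d.ε (((s⁻¹ : Tˣ) : T) * d.θ s) ≠ 0) :
    ∃ c, lg d h C (Additive.ofMul x) c ≠ 0 := by
  by_contra hcon
  push Not at hcon
  apply hne
  have h1 := d.rho_evc (G' := PUnit.{1}) χ hχ hθχ χ' hχ' hπ sm hs
    (K1.map (MonoidAlgebra.mapRingHom C h) (K1.unit x))
  have h2 : ∀ c ∈ (Finset.univ : Finset C), sm c (d.rho C (K1.map (MonoidAlgebra.mapRingHom C h)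
      (K1.unit x)) (ConjClasses.mk c)) = 0 := by
    intro c _
    have h3 := hcon c
    rw [lg_apply, inv_apply] at h3
    exact (congrArg (sm c) h3).trans (map_zero _)
  rw [Finset.sum_eq_zero h2, unit_map, unit_map, d.rho_unit s, Finsupp.single_eq_same] at h1
  · exact h1
  · rw [← hx]
    exact evc_mapRing h χ' hχ' x

end Log

end Pool.Agent.Lib.MPb6f35e.WH
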