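import Pool.Agent.Lib.MP_b6f35e_al.WH.K

/-!
# Module PA: the residue homomorphism on `K_1(E[G])`, `E = T/pT`

`T` a ring with a derivation `θ` and an additive map `ε : T → M` with `ε(ab) = ε(ba)`, `ε θ = 0`,
`M` a torsion free `p`-adically complete abelian group.  For `u` an invertible matrix over `E[G]` and
lifts `U`, `U'` of `u`, `u⁻¹` with `U U' = U' U = 1` modulo `p^m` the class of `ε tr(U' θ U)` in
`M[conj G]/p^m` depends only on the class of `u` in `K_1(E[G])`.
-/

set_option autoImplicit false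

noncomputable section

namespace Pool.Agent.Lib.MPb6f35e.WH

namespace PA

universe u u' v w

/-! ### congruences -/

/-- `x = y` modulo `p^m` -/
def Cg (p m : ℕ) {X : Type w} [AddCommGroup X] (x y : X) : Prop := ∃ z : X, x - y = p ^ m • z

section cg

variable {p m : ℕ} {X : Type w} [AddCommGroup X]

theorem Cg.refl (x : X) : Cg p m x x := ⟨0, by simp⟩

theorem Cg.of_eq {x y : X} (h : x = y) : Cg p m x y := h ▸ Cg.refl x

theorem Cg.symm {x y : X} (h : Cg p m x y) : Cg p m y x := by
  obtain ⟨z, hz⟩ := h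
  exact ⟨-z, by rw [smul_neg, ← hz, neg_sub]⟩

theorem Cg.trans {x y z : X} (h : Cg p m x y) (h' : Cg p m y z) : Cg p m x z := by
  obtain ⟨a, ha⟩ := h
  obtain ⟨b, hb⟩ := h'
  exact ⟨a + b, by rw [smul_add, ← ha, ← hb, sub_add_sub_cancel]⟩

theorem Cg.add {x y x' y' : X} (h : Cg p m x y) (h' : Cg p m x' y') :
    Cg p m (x + x') (y + y') := by
  obtain ⟨a, ha⟩ := h
  obtain ⟨b, hb⟩ := h'
  exact ⟨a + b, by rw [smul_add, ← ha, ← hb, add_sub_add_comm]⟩

theorem Cg.mono {m' : ℕ} (hm : m' ≤ m) {x y : X} (h : Cg p m x y) : Cg p m' x y := by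
  obtain ⟨a, ha⟩ := h
  exact ⟨p ^ (m - m') • a, by rw [ha, smul_smul, ← pow_add, Nat.add_sub_cancel' hm]⟩

theorem Cg.map {Y : Type u} [AddCommGroup Y] (f : X →+ Y) {x y : X} (h : Cg p m x y) :
    Cg p m (f x) (f y) := by
  obtain ⟨a, ha⟩ := h
  exact ⟨f a, by rw [← map_sub, ha, map_nsmul]⟩

end cg

section cgmul

variable {p m : ℕ} {A : Type w} [Ring A] {ι κ τ : Type*} [Fintype κ]

theorem Cg.mulM {x y : Matrix ι κ A} {x' y' : Matrix κ τ A}
    (h : Cg p m x y) (h' : Cg p m x' y') : Cg p m (x * x') (y * y') := by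
  obtain ⟨a, ha⟩ := h
  obtain ⟨b, hb⟩ := h'
  refine ⟨a * x' + y * b, ?_⟩
  have h1 : x * x' - y * y' = (x - y) * x' + y * (x' - y') := by
    rw [Matrix.sub_mul, Matrix.mul_sub]
    abel
  rw [h1, ha, hb, smul_add, Matrix.smul_mul, Matrix.mul_smul]

end cgmul

/-! ### the data -/

/-- The data: `π : T → E` surjective with kernel `pT`, a derivation `θ` of `T`, an additive map
`ε : T → M` with `ε(ab) = ε(ba)` and `ε θ = 0`; `M` torsion free and `p`-adically complete.  The
rings `T`, `E` need not be commutative. -/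
structure RD (p : ℕ) (T : Type u) [Ring T] (E : Type u') [Ring E] (M : Type w)
    [AddCommGroup M] where
  /-- the projection -/
  π : T →+* E
  surj : Function.Surjective π
  ker : ∀ t, π t = 0 → ∃ s, t = p • s
  /-- the derivation -/
  θ : T →+ T
  leib : ∀ a b, θ (a * b) = θ a * b + a * θ b
  /-- the residue -/
  ε : T →+ M
  tr : ∀ a b, ε (a * b) = ε (b * a)
  εθ : ∀ t, ε (θ t) = 0
  tf : ∀ n : ℕ, n ≠ 0 → ∀ y : M, n • y = 0 → y = 0
  sep : ∀ y : M, (∀ m, Cg p m y 0) → y = 0
  compl : ∀ f : ℕ → M, (∀ m, Cg p m (f (m + 1)) (f m)) → ∃ y, ∀ m, Cg p m y (f m)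

variable {p : ℕ} {T : Type u} [Ring T] {E : Type u'} [Ring E] {M : Type w}
  [AddCommGroup M] (d : RD p T E M) {G : Type v} [Group G]

namespace RD

/-! ### the derivation on the group ring and on matrices -/

/-- `θ` on `T[G]`, coefficientwise -/
def θG (G : Type v) [Group G] : MonoidAlgebra T G →+ MonoidAlgebra T G :=
  (MonoidAlgebra.coeffAddEquiv.symm.toAddMonoidHom).comp
    ((Finsupp.mapRange.addMonoidHom d.θ).comp MonoidAlgebra.coeffAddEquiv.toAddMonoidHom)

theorem θG_single (g : G) (c : T) :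
    d.θG G (MonoidAlgebra.single g c) = MonoidAlgebra.single g (d.θ c) := by
  ext x
  show (Finsupp.mapRange d.θ d.θ.map_zero (Finsupp.single g c)) x = _
  rw [Finsupp.mapRange_single]
  rfl

theorem θG_mul (a b : MonoidAlgebra T G) : d.θG G (a * b) = d.θG G a * b + a * d.θG G b := by
  induction a using MonoidAlgebra.induction_linear with
  | zero => simp
  | add x y hx hy => rw [add_mul, map_add, map_add, hx, hy, add_mul, add_mul]; abel
  | single g c =>
    induction b using MonoidAlgebra.induction_linear with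
    | zero => simp
    | add x y hx hy => rw [mul_add, map_add, map_add, hx, hy, mul_add, mul_add]; abel
    | single h c' =>
      rw [MonoidAlgebra.single_mul_single, θG_single, θG_single, θG_single, d.leib,
        MonoidAlgebra.single_mul_single, MonoidAlgebra.single_mul_single,
        ← MonoidAlgebra.single_add]

/-- `θ` on matrices -/
def Θ {ι κ : Type*} (X : Matrix ι κ (MonoidAlgebra T G)) : Matrix ι κ (MonoidAlgebra T G) :=
  X.map (d.θG G)

variable {ι κ τ : Type*}

/-- `θ` on matrices, additive -/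
def Θhom (ι κ : Type*) :
    Matrix ι κ (MonoidAlgebra T G) →+ Matrix ι κ (MonoidAlgebra T G) where
  toFun := d.Θ
  map_zero' := by ext1 i j; exact (d.θG G).map_zero
  map_add' X Y := by ext1 i j; exact (d.θG G).map_add _ _

theorem Θ_mul [Fintype κ] (X : Matrix ι κ (MonoidAlgebra T G)) (Y : Matrix κ τ (MonoidAlgebra T G)) :
    d.Θ (X * Y) = d.Θ X * Y + X * d.Θ Y := by
  ext1 i j
  show d.θG G ((X * Y) i j) = (d.Θ X * Y) i j + (X * d.Θ Y) i j
  rw [Matrix.mul_apply, Matrix.mul_apply, Matrix.mul_apply, map_sum, ← Finset.sum_add_distrib]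
  exact Finset.sum_congr rfl fun k _ => d.θG_mul _ _

/-! ### the trace -/

/-- to the conjugacy classes -/
def cl (G : Type v) [Group G] : MonoidAlgebra T G →+ (ConjClasses G →₀ M) :=
  (Finsupp.liftAddHom (fun g : G => (Finsupp.singleAddHom (ConjClasses.mk g)).comp d.ε)).comp
    MonoidAlgebra.coeffAddEquiv.toAddMonoidHom

theorem cl_single (g : G) (c : T) :
    d.cl G (MonoidAlgebra.single g c) = Finsupp.single (ConjClasses.mk g) (d.ε c) := by
  show (Finsupp.liftAddHom (fun g : G => (Finsupp.singleAddHom (ConjClasses.mk g)).comp d.ε))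
    (Finsupp.single g c) = _
  simp

theorem cl_mul_comm (a b : MonoidAlgebra T G) : d.cl G (a * b) = d.cl G (b * a) := by
  induction a using MonoidAlgebra.induction_linear with
  | zero => simp
  | add x y hx hy => rw [add_mul, mul_add, map_add, map_add, hx, hy]
  | single g c =>
    induction b using MonoidAlgebra.induction_linear with
    | zero => simp
    | add x y hx hy => rw [add_mul, mul_add, map_add, map_add, hx, hy]
    | single h c' =>
      rw [MonoidAlgebra.single_mul_single, MonoidAlgebra.single_mul_single, cl_single, cl_single,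
        d.tr c c']
      congr 1
      rw [ConjClasses.mk_eq_mk_iff_isConj, isConj_iff]
      exact ⟨h, by group⟩

theorem cl_θG (a : MonoidAlgebra T G) : d.cl G (d.θG G a) = 0 := by
  induction a using MonoidAlgebra.induction_linear with
  | zero => simp
  | add x y hx hy => rw [map_add, map_add, hx, hy, add_zero]
  | single g c => rw [θG_single, cl_single, d.εθ, Finsupp.single_zero]

/-- the trace of a matrix, in `M[conj G]` -/
def Tr [Fintype ι] : Matrix ι ι (MonoidAlgebra T G) →+ (ConjClasses G →₀ M) :=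
  (d.cl G).comp (Matrix.traceAddMonoidHom ι (MonoidAlgebra T G))

theorem Tr_def [Fintype ι] (X : Matrix ι ι (MonoidAlgebra T G)) :
    d.Tr X = ∑ i, d.cl G (X i i) := by
  show d.cl G (Matrix.trace X) = _
  rw [Matrix.trace, map_sum]
  rfl

theorem Tr_comm [Fintype ι] [Fintype κ] (X : Matrix ι κ (MonoidAlgebra T G))
    (Y : Matrix κ ι (MonoidAlgebra T G)) : d.Tr (X * Y) = d.Tr (Y * X) := by
  rw [Tr_def, Tr_def]
  simp only [Matrix.mul_apply, map_sum]
  rw [Finset.sum_comm]
  exact Finset.sum_congr rfl fun k _ => Finset.sum_congr rfl fun i _ => d.cl_mul_comm _ _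

theorem Tr_Θ [Fintype ι] (X : Matrix ι ι (MonoidAlgebra T G)) : d.Tr (d.Θ X) = 0 := by
  rw [Tr_def]
  exact Finset.sum_eq_zero fun i _ => d.cl_θG _

/-- `D(X, Y) = tr(X θ Y)` -/
def D [Fintype ι] [Fintype κ] (X : Matrix ι κ (MonoidAlgebra T G))
    (Y : Matrix κ ι (MonoidAlgebra T G)) : ConjClasses G →₀ M := d.Tr (X * d.Θ Y)

theorem D_mul [Fintype ι] [Fintype κ] [Fintype τ] (X : Matrix ι κ (MonoidAlgebra T G))
    (Y : Matrix κ τ (MonoidAlgebra T G)) (Z : Matrix τ ι (MonoidAlgebra T G)) :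
    d.D X (Y * Z) = d.D (Z * X) Y + d.D (X * Y) Z := by
  unfold D
  rw [Θ_mul, Matrix.mul_add, map_add, ← Matrix.mul_assoc, ← Matrix.mul_assoc, d.Tr_comm _ Z,
    Matrix.mul_assoc Z]

theorem D_add_left [Fintype ι] [Fintype κ] (X X' : Matrix ι κ (MonoidAlgebra T G))
    (Y : Matrix κ ι (MonoidAlgebra T G)) : d.D (X + X') Y = d.D X Y + d.D X' Y := by
  unfold D
  rw [Matrix.add_mul, map_add]

theorem D_add_right [Fintype ι] [Fintype κ] (X : Matrix ι κ (MonoidAlgebra T G))
    (Y Y' : Matrix κ ι (MonoidAlgebra T G)) : d.D X (Y + Y') = d.D X Y + d.D X Y' := by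
  unfold D
  rw [show d.Θ (Y + Y') = d.Θ Y + d.Θ Y' from (d.Θhom κ ι).map_add Y Y', Matrix.mul_add, map_add]

theorem D_cg [Fintype ι] [Fintype κ] {m : ℕ} {X X' : Matrix ι κ (MonoidAlgebra T G)}
    {Y Y' : Matrix κ ι (MonoidAlgebra T G)} (h : Cg p m X X') (h' : Cg p m Y Y') :
    Cg p m (d.D X Y) (d.D X' Y') :=
  (h.mulM (h'.map (d.Θhom κ ι))).map d.Tr

/-! ### powers -/

variable [Fintype ι] [DecidableEq ι]

theorem Θ_one : d.Θ (1 : Matrix ι ι (MonoidAlgebra T G)) = 0 := by
  have h := d.Θ_mul (1 : Matrix ι ι (MonoidAlgebra T G)) (1 : Matrix ι ι (MonoidAlgebra T G))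
  simp only [Matrix.mul_one, Matrix.one_mul] at h
  exact (left_eq_add.1 h)

theorem D_pow_aux (X : Matrix ι ι (MonoidAlgebra T G)) (k : ℕ) :
    ∀ Y : Matrix ι ι (MonoidAlgebra T G), Commute X Y →
      d.Tr (Y * d.Θ (X ^ (k + 1))) = (k + 1) • d.Tr (Y * X ^ k * d.Θ X) := by
  induction k with
  | zero => intro Y _; rw [zero_add, pow_one, pow_zero, Matrix.mul_one, one_smul]
  | succ k ih =>
    intro Y hY
    rw [pow_succ X (k + 1), Θ_mul, Matrix.mul_add, map_add, ← Matrix.mul_assoc, d.Tr_comm _ X,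
      ← Matrix.mul_assoc, ih (X * Y) ((Commute.refl X).mul_right hY), succ_nsmul (d.Tr _) (k + 1)]
    have h1 : X * Y * X ^ k = Y * X ^ (k + 1) := by
      rw [hY.eq, mul_assoc, ← pow_succ']
    rw [h1, ← Matrix.mul_assoc]

theorem D_pow (X : Matrix ι ι (MonoidAlgebra T G)) (k : ℕ) : d.D (X ^ k) X = 0 := by
  have h := d.D_pow_aux X k 1 (Commute.one_right X)
  rw [Matrix.one_mul, Tr_Θ, Matrix.one_mul] at h
  ext κ
  apply d.tf (k + 1) (Nat.succ_ne_zero k)
  have h2 := congrArg (fun f : ConjClasses G →₀ M => f κ) h.symm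
  exact h2

theorem D_geom (X : Matrix ι ι (MonoidAlgebra T G)) (m : ℕ) :
    d.D (∑ j ∈ Finset.range m, (-X) ^ j) X = 0 := by
  have hneg : ∀ Y : Matrix ι ι (MonoidAlgebra T G), d.D (-Y) X = -d.D Y X := by
    intro Y
    unfold D
    rw [Matrix.neg_mul, map_neg]
  induction m with
  | zero => unfold D; simp
  | succ m ih =>
    rw [Finset.sum_range_succ, D_add_left, ih, zero_add]
    rcases Nat.even_or_odd m with h | h
    · rw [h.neg_pow, D_pow]
    · rw [h.neg_pow, hneg, D_pow, neg_zero]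

/-! ### lifts -/

/-- the reduction of a matrix -/
def red {ι κ : Type*} (X : Matrix ι κ (MonoidAlgebra T G)) : Matrix ι κ (MonoidAlgebra E G) :=
  X.map (MonoidAlgebra.mapRingHom G d.π)

theorem map_surj (b : MonoidAlgebra E G) : ∃ a, MonoidAlgebra.mapRingHom G d.π a = b := by
  induction b using MonoidAlgebra.induction_linear with
  | zero => exact ⟨0, map_zero _⟩
  | add x y hx hy =>
    obtain ⟨a, rfl⟩ := hx
    obtain ⟨b, rfl⟩ := hy
    exact ⟨a + b, map_add _ _ _⟩
  | single g c =>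
    obtain ⟨t, rfl⟩ := d.surj c
    exact ⟨MonoidAlgebra.single g t, by simp⟩

theorem map_coeff (a : MonoidAlgebra T G) (g : G) :
    (MonoidAlgebra.mapRingHom G d.π a).coeff g = d.π (a.coeff g) := by
  induction a using MonoidAlgebra.induction_linear with
  | zero => simp
  | add x y hx hy =>
    rw [map_add, MonoidAlgebra.coeff_add, MonoidAlgebra.coeff_add, Finsupp.add_apply,
      Finsupp.add_apply, map_add, hx, hy]
  | single h c =>
    classical
    rw [show MonoidAlgebra.mapRingHom G d.π (MonoidAlgebra.single h c) =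
      MonoidAlgebra.single h (d.π c) by simp]
    rw [MonoidAlgebra.coeff_single, MonoidAlgebra.coeff_single, Finsupp.single_apply,
      Finsupp.single_apply]
    split_ifs
    · rfl
    · exact (map_zero d.π).symm

open Classical in
theorem map_ker (a : MonoidAlgebra T G) (h : MonoidAlgebra.mapRingHom G d.π a = 0) :
    ∃ b, a = p • b := by
  have h1 : ∀ g : G, ∃ s, a.coeff g = p • s := by
    intro g
    apply d.ker
    rw [← map_coeff, h]
    rfl
  choose s hs using h1
  refine ⟨∑ g ∈ a.coeff.support, MonoidAlgebra.single g (s g), ?_⟩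
  ext g
  rw [MonoidAlgebra.coeff_smul, Finsupp.smul_apply, MonoidAlgebra.coeff_sum,
    Finsupp.finsetSum_apply]
  by_cases hg : g ∈ a.coeff.support
  · rw [Finset.sum_eq_single_of_mem g hg]
    · rw [MonoidAlgebra.coeff_single, Finsupp.single_eq_same, hs]
    · intro b _ hb
      rw [MonoidAlgebra.coeff_single, Finsupp.single_apply, if_neg hb]
  · rw [Finset.sum_eq_zero, smul_zero]
    · rwa [Finsupp.notMem_support_iff] at hg
    · intro b hb
      rw [MonoidAlgebra.coeff_single, Finsupp.single_apply, if_neg]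
      rintro rfl
      exact hg hb

theorem red_surj {ι κ : Type*} (Y : Matrix ι κ (MonoidAlgebra E G)) : ∃ X, d.red X = Y := by
  choose f hf using fun i j => d.map_surj (Y i j)
  exact ⟨Matrix.of f, by ext1 i j; exact hf i j⟩

theorem red_ker {ι κ : Type*} (X : Matrix ι κ (MonoidAlgebra T G)) (h : d.red X = 0) :
    ∃ Y, X = p • Y := by
  choose f hf using fun i j => d.map_ker (X i j) (congrFun (congrFun h i) j)
  exact ⟨Matrix.of f, by ext1 i j; exact hf i j⟩

theorem red_mul {ι κ τ : Type*} [Fintype κ] (X : Matrix ι κ (MonoidAlgebra T G))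
    (Y : Matrix κ τ (MonoidAlgebra T G)) : d.red (X * Y) = d.red X * d.red Y :=
  Matrix.map_mul

theorem red_sub {ι κ : Type*} (X Y : Matrix ι κ (MonoidAlgebra T G)) :
    d.red (X - Y) = d.red X - d.red Y := by
  ext1 i j
  exact map_sub (MonoidAlgebra.mapRingHom G d.π) _ _

theorem red_one {ι : Type*} [DecidableEq ι] :
    d.red (1 : Matrix ι ι (MonoidAlgebra T G)) = 1 :=
  Matrix.map_one _ (map_zero _) (map_one _)

theorem geom_cg (X Y : Matrix ι ι (MonoidAlgebra T G)) (h : X = p • Y) (m : ℕ) :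
    Cg p m ((∑ j ∈ Finset.range m, (-X) ^ j) * (1 + X)) 1 ∧
      Cg p m ((1 + X) * ∑ j ∈ Finset.range m, (-X) ^ j) 1 := by
  have h1 : (1 + X) = 1 - (-X) := by rw [sub_neg_eq_add]
  have h2 : (-X) ^ m = p ^ m • (-Y) ^ m := by
    rw [h, ← smul_neg, smul_pow]
  constructor
  · rw [h1, geom_sum_mul_neg]
    exact ⟨-(-Y) ^ m, by rw [h2, smul_neg]; abel⟩
  · rw [h1, mul_neg_geom_sum]
    exact ⟨-(-Y) ^ m, by rw [h2, smul_neg]; abel⟩

/-- `U`, `U'` are inverse modulo `p^m`. -/
def Pair (p m : ℕ) {ι κ : Type*} [Fintype ι] [DecidableEq ι] [Fintype κ] [DecidableEq κ]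
    (U : Matrix ι κ (MonoidAlgebra T G)) (U' : Matrix κ ι (MonoidAlgebra T G)) : Prop :=
  Cg p m (U * U') 1 ∧ Cg p m (U' * U) 1

theorem exists_pair (u : (Matrix ι ι (MonoidAlgebra E G))ˣ) (m : ℕ) :
    ∃ U U' : Matrix ι ι (MonoidAlgebra T G),
      d.red U = (u : Matrix ι ι (MonoidAlgebra E G)) ∧ Pair p m U U' := by
  obtain ⟨U, hU⟩ := d.red_surj (u : Matrix ι ι (MonoidAlgebra E G))
  obtain ⟨W, hW⟩ := d.red_surj ((u⁻¹ : (Matrix ι ι (MonoidAlgebra E G))ˣ) :
    Matrix ι ι (MonoidAlgebra E G))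
  obtain ⟨Y, hY⟩ := d.red_ker (W * U - 1) (by
    rw [red_sub, red_mul, hU, hW, red_one, Units.inv_mul, sub_self])
  obtain ⟨Z, hZ⟩ := d.red_ker (U * W - 1) (by
    rw [red_sub, red_mul, hU, hW, red_one, Units.mul_inv, sub_self])
  set S := ∑ j ∈ Finset.range m, (-(W * U - 1)) ^ j with hS
  set S' := ∑ j ∈ Finset.range m, (-(U * W - 1)) ^ j with hS'
  have h1 : Cg p m (S * (W * U)) 1 := by
    have := (geom_cg (W * U - 1) Y hY m).1
    rwa [add_sub_cancel] at this
  have h2 : Cg p m (U * W * S') 1 := by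
    have := (geom_cg (U * W - 1) Z hZ m).2
    rwa [add_sub_cancel] at this
  refine ⟨U, S * W, hU, ?_, ?_⟩
  · have h3 : Cg p m (U * (S * W)) (U * (S * W) * (U * W * S')) := by
      have := ((Cg.refl (U * (S * W))).mulM h2).symm
      rwa [Matrix.mul_one] at this
    have h4 : U * (S * W) * (U * W * S') = U * (S * (W * U)) * (W * S') := by
      simp only [Matrix.mul_assoc]
    rw [h4] at h3
    have h5 : Cg p m (U * (S * (W * U)) * (W * S')) (U * 1 * (W * S')) :=
      ((Cg.refl U).mulM h1).mulM (Cg.refl _)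
    have h6 : U * 1 * (W * S') = U * W * S' := by rw [Matrix.mul_one, Matrix.mul_assoc]
    rw [h6] at h5
    exact (h3.trans h5).trans h2
  · rw [Matrix.mul_assoc]
    exact h1

theorem indep {m : ℕ} {U U' W W' : Matrix ι ι (MonoidAlgebra T G)} (hU : Pair p m U U')
    (hW : Pair p m W W') (h : d.red U = d.red W) : Cg p m (d.D U' U) (d.D W' W) := by
  set X := U' * (W - U) with hX
  obtain ⟨Y, hY⟩ : ∃ Y, X = p • Y := by
    apply d.red_ker
    rw [hX, red_mul, red_sub, h, sub_self, Matrix.mul_zero]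
  set S := ∑ j ∈ Finset.range m, (-X) ^ j with hS
  obtain ⟨hS1, hS2⟩ := geom_cg X Y hY m
  -- W = U (1 + X)
  have h1 : Cg p m W (U * (1 + X)) := by
    rw [Matrix.mul_add, Matrix.mul_one, hX, ← Matrix.mul_assoc]
    have := (Cg.refl U).add ((hU.1.symm).mulM (Cg.refl (W - U)))
    rwa [Matrix.one_mul, add_sub_cancel] at this
  -- W' = S U'
  have h2 : Cg p m W' (S * U') := by
    have e1 : Cg p m W' (W' * (U * ((1 + X) * S) * U')) := by
      have a1 : Cg p m (U * ((1 + X) * S) * U') 1 := by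
        have := (((Cg.refl U).mulM hS2).mulM (Cg.refl U'))
        rw [Matrix.mul_one] at this
        exact this.trans hU.1
      have := ((Cg.refl W').mulM a1).symm
      rwa [Matrix.mul_one] at this
    have e2 : W' * (U * ((1 + X) * S) * U') = W' * (U * (1 + X)) * (S * U') := by
      simp only [Matrix.mul_assoc]
    rw [e2] at e1
    have e3 : Cg p m (W' * (U * (1 + X))) 1 :=
      ((Cg.refl W').mulM h1.symm).trans hW.2
    have e4 := e3.mulM (Cg.refl (S * U'))
    rw [Matrix.one_mul] at e4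
    exact e1.trans e4
  have h3 : Cg p m (d.D W' W) (d.D (S * U') (U * (1 + X))) := d.D_cg h2 h1
  rw [D_mul] at h3
  have h4 : Cg p m (d.D ((1 + X) * (S * U')) U) (d.D U' U) := by
    apply d.D_cg _ (Cg.refl U)
    rw [← Matrix.mul_assoc]
    have := hS2.mulM (Cg.refl U')
    rwa [Matrix.one_mul] at this
  have h5 : Cg p m (d.D (S * U' * U) (1 + X)) 0 := by
    have e1 : Cg p m (d.D (S * U' * U) (1 + X)) (d.D S (1 + X)) := by
      apply d.D_cg _ (Cg.refl _)
      rw [Matrix.mul_assoc]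
      have := (Cg.refl S).mulM hU.2
      rwa [Matrix.mul_one] at this
    refine e1.trans (Cg.of_eq ?_)
    rw [D_add_right, hS, D_geom, add_zero]
    unfold D
    rw [Θ_one, Matrix.mul_zero, map_zero]
  have h6 := h3.trans (h4.add h5)
  rw [add_zero] at h6
  exact h6.symm

/-! ### the value -/

theorem exists_val (u : (Matrix ι ι (MonoidAlgebra E G))ˣ) (κ : ConjClasses G) :
    ∃ y : M, ∀ (m : ℕ) (U U' : Matrix ι ι (MonoidAlgebra T G)),
      d.red U = (u : Matrix ι ι (MonoidAlgebra E G)) → Pair p m U U' →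
        Cg p m y (d.D U' U κ) := by
  choose U U' hU hP using fun m => d.exists_pair u m
  have hev : ∀ {m : ℕ} {x y : ConjClasses G →₀ M}, Cg p m x y → Cg p m (x κ) (y κ) := by
    intro m x y h
    exact h.map (Finsupp.applyAddHom κ)
  have hmono : ∀ {m m' : ℕ} {U U' : Matrix ι ι (MonoidAlgebra T G)}, m' ≤ m → Pair p m U U' →
      Pair p m' U U' := fun h hp => ⟨hp.1.mono h, hp.2.mono h⟩
  obtain ⟨y, hy⟩ := d.compl (fun m => d.D (U' m) (U m) κ) (fun m =>
    hev (d.indep (hmono (Nat.le_succ m) (hP (m + 1))) (hP m) ((hU _).trans (hU m).symm)))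
  refine ⟨y, fun m W W' hW hPW => (hy m).trans (hev (d.indep (hP m) hPW ((hU m).trans hW.symm)))⟩

/-- The value. -/
def val (u : (Matrix ι ι (MonoidAlgebra E G))ˣ) (κ : ConjClasses G) : M :=
  (d.exists_val u κ).choose

theorem val_spec (u : (Matrix ι ι (MonoidAlgebra E G))ˣ) (κ : ConjClasses G) (m : ℕ)
    (U U' : Matrix ι ι (MonoidAlgebra T G))
    (hU : d.red U = (u : Matrix ι ι (MonoidAlgebra E G))) (hP : Pair p m U U') :
    Cg p m (d.val u κ) (d.D U' U κ) := (d.exists_val u κ).choose_spec m U U' hU hP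

include d in
theorem eq_of_cg {y y' : M} (h : ∀ m, Cg p m y y') : y = y' := by
  rw [← sub_eq_zero]
  apply d.sep
  intro m
  obtain ⟨z, hz⟩ := h m
  exact ⟨z, by rw [sub_zero, hz]⟩

theorem ev_cg {m : ℕ} {x y : ConjClasses G →₀ M} (h : Cg p m x y) (κ : ConjClasses G) :
    Cg p m (x κ) (y κ) := h.map (Finsupp.applyAddHom κ)

theorem Pair.mul {m : ℕ} {U U' W W' : Matrix ι ι (MonoidAlgebra T G)} (hU : Pair p m U U')
    (hW : Pair p m W W') : Pair p m (U * W) (W' * U') := by
  constructor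
  · have h1 : U * W * (W' * U') = U * (W * W') * U' := by simp only [Matrix.mul_assoc]
    rw [h1]
    have := ((Cg.refl U).mulM hW.1).mulM (Cg.refl U')
    rw [Matrix.mul_one] at this
    exact this.trans hU.1
  · have h1 : W' * U' * (U * W) = W' * (U' * U) * W := by simp only [Matrix.mul_assoc]
    rw [h1]
    have := ((Cg.refl W').mulM hU.2).mulM (Cg.refl W)
    rw [Matrix.mul_one] at this
    exact this.trans hW.2

theorem val_mul (u w : (Matrix ι ι (MonoidAlgebra E G))ˣ) (κ : ConjClasses G) :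
    d.val (u * w) κ = d.val u κ + d.val w κ := by
  apply d.eq_of_cg
  intro m
  obtain ⟨U, U', hU, hPU⟩ := d.exists_pair u m
  obtain ⟨W, W', hW, hPW⟩ := d.exists_pair w m
  have h1 := d.val_spec (u * w) κ m (U * W) (W' * U') (by rw [red_mul, hU, hW]; rfl)
    (Pair.mul hPU hPW)
  have h2 := (d.val_spec u κ m U U' hU hPU).add (d.val_spec w κ m W W' hW hPW)
  refine h1.trans (Cg.trans ?_ h2.symm)
  rw [D_mul]
  show Cg p m ((d.D (W * (W' * U')) U) κ + (d.D (W' * U' * U) W) κ) _
  apply Cg.add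
  · apply ev_cg
    apply d.D_cg _ (Cg.refl U)
    rw [← Matrix.mul_assoc]
    have := hPW.1.mulM (Cg.refl U')
    rwa [Matrix.one_mul] at this
  · apply ev_cg
    apply d.D_cg _ (Cg.refl W)
    rw [Matrix.mul_assoc]
    have := (Cg.refl W').mulM hPU.2
    rwa [Matrix.mul_one] at this

/-- Reindexing. -/
theorem Tr_reindex {κ : Type*} [Fintype κ] (e : ι ≃ κ) (X : Matrix ι ι (MonoidAlgebra T G)) :
    d.Tr (Matrix.reindex e e X) = d.Tr X := by
  rw [Tr_def, Tr_def]
  exact Fintype.sum_equiv e.symm _ _ fun i => rfl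

theorem val_reindex {κ : Type*} [Fintype κ] [DecidableEq κ] (e : ι ≃ κ)
    (u : (Matrix ι ι (MonoidAlgebra E G))ˣ) (c : ConjClasses G) :
    d.val (Units.map (Matrix.reindexRingEquiv (MonoidAlgebra E G) e).toMonoidHom u) c =
      d.val u c := by
  apply d.eq_of_cg
  intro m
  obtain ⟨U, U', hU, hPU⟩ := d.exists_pair u m
  have hre : ∀ {X Y : Matrix ι ι (MonoidAlgebra T G)}, Cg p m X Y →
      Cg p m (Matrix.reindex e e X) (Matrix.reindex e e Y) := fun h =>
    h.map (Matrix.reindexRingEquiv (MonoidAlgebra T G) e).toRingHom.toAddMonoidHom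
  have hmul : ∀ X Y : Matrix ι ι (MonoidAlgebra T G),
      Matrix.reindex e e (X * Y) = Matrix.reindex e e X * Matrix.reindex e e Y :=
    (Matrix.reindexRingEquiv (MonoidAlgebra T G) e).map_mul
  have hone : Matrix.reindex e e (1 : Matrix ι ι (MonoidAlgebra T G)) = 1 :=
    (Matrix.reindexRingEquiv (MonoidAlgebra T G) e).map_one
  have h1 := d.val_spec (Units.map (Matrix.reindexRingEquiv (MonoidAlgebra E G) e).toMonoidHom u)
    c m (Matrix.reindex e e U) (Matrix.reindex e e U') (by
      ext1 i j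
      exact congrFun (congrFun hU _) _) (by
      constructor
      · rw [← hmul, ← hone]
        exact hre hPU.1
      · rw [← hmul, ← hone]
        exact hre hPU.2)
  refine h1.trans (Cg.trans (Cg.of_eq ?_) (d.val_spec u c m U U' hU hPU).symm)
  unfold D
  have h2 : d.Θ (Matrix.reindex e e U) = Matrix.reindex e e (d.Θ U) := rfl
  rw [h2, ← hmul, Tr_reindex]

/-- Block triangular matrices. -/
theorem val_block {κ : Type*} [Fintype κ] [DecidableEq κ] (u : (Matrix ι ι (MonoidAlgebra E G))ˣ)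
    (w : (Matrix κ κ (MonoidAlgebra E G))ˣ) (b : Matrix ι κ (MonoidAlgebra E G))
    (z : (Matrix (ι ⊕ κ) (ι ⊕ κ) (MonoidAlgebra E G))ˣ)
    (hz : (z : Matrix (ι ⊕ κ) (ι ⊕ κ) (MonoidAlgebra E G)) =
      Matrix.fromBlocks (u : Matrix ι ι (MonoidAlgebra E G)) b 0
        (w : Matrix κ κ (MonoidAlgebra E G))) (c : ConjClasses G) :
    d.val z c = d.val u c + d.val w c := by
  apply d.eq_of_cg
  intro m
  obtain ⟨U, U', hU, hPU⟩ := d.exists_pair u m
  obtain ⟨W, W', hW, hPW⟩ := d.exists_pair w m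
  obtain ⟨B, hB⟩ := d.red_surj b
  have hfb : ∀ {X X' : Matrix ι ι (MonoidAlgebra T G)} {Y Y' : Matrix ι κ (MonoidAlgebra T G)}
      {Z Z' : Matrix κ κ (MonoidAlgebra T G)}, Cg p m X X' → Cg p m Y Y' → Cg p m Z Z' →
      Cg p m (Matrix.fromBlocks X Y 0 Z) (Matrix.fromBlocks X' Y' 0 Z') := by
    rintro X X' Y Y' Z Z' ⟨a, ha⟩ ⟨a', ha'⟩ ⟨a'', ha''⟩
    refine ⟨Matrix.fromBlocks a a' 0 a'', ?_⟩
    rw [Matrix.fromBlocks_smul, smul_zero, ← ha, ← ha', ← ha'']
    ext1 i j
    rcases i with i | i <;> rcases j with j | j <;> simp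
  have h1 := d.val_spec z c m (Matrix.fromBlocks U B 0 W)
    (Matrix.fromBlocks U' (-(U' * B * W')) 0 W') (by
      rw [hz, ← hU, ← hW, ← hB]
      ext1 i j
      rcases i with i | i <;> rcases j with j | j <;> simp [red]) (by
      constructor
      · rw [Matrix.fromBlocks_multiply, ← Matrix.fromBlocks_one]
        simp only [Matrix.mul_zero, Matrix.zero_mul, add_zero, zero_add]
        apply hfb hPU.1 _ hPW.1
        have e1 : U * -(U' * B * W') + B * W' = -(U * U' * (B * W')) + B * W' := by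
          rw [Matrix.mul_neg]
          simp only [Matrix.mul_assoc]
        rw [e1]
        have e2 := (hPU.1.mulM (Cg.refl (B * W')))
        rw [Matrix.one_mul] at e2
        have e3 : Cg p m (-(U * U' * (B * W'))) (-(B * W')) := e2.map (negAddMonoidHom)
        have e4 := e3.add (Cg.refl (B * W'))
        rwa [neg_add_cancel] at e4
      · rw [Matrix.fromBlocks_multiply, ← Matrix.fromBlocks_one]
        simp only [Matrix.mul_zero, Matrix.zero_mul, add_zero, zero_add]
        apply hfb hPU.2 _ hPW.2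
        have e1 : U' * B + -(U' * B * W') * W = U' * B + -(U' * B * (W' * W)) := by
          rw [Matrix.neg_mul]
          simp only [Matrix.mul_assoc]
        rw [e1]
        have e2 := ((Cg.refl (U' * B)).mulM hPW.2)
        rw [Matrix.mul_one] at e2
        have e3 : Cg p m (-(U' * B * (W' * W))) (-(U' * B)) := e2.map (negAddMonoidHom)
        have e4 := (Cg.refl (U' * B)).add e3
        rwa [add_neg_cancel] at e4)
  have h2 := (d.val_spec u c m U U' hU hPU).add (d.val_spec w c m W W' hW hPW)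
  refine h1.trans (Cg.trans (Cg.of_eq ?_) h2.symm)
  unfold D
  have h3 : d.Θ (Matrix.fromBlocks U B 0 W) = Matrix.fromBlocks (d.Θ U) (d.Θ B) 0 (d.Θ W) := by
    ext1 i j
    rcases i with i | i <;> rcases j with j | j <;> simp [Θ]
  rw [h3, Matrix.fromBlocks_multiply]
  simp only [Matrix.mul_zero, Matrix.zero_mul, add_zero, zero_add]
  rw [Tr_def, Tr_def, Tr_def, Fintype.sum_sum_type]
  rfl

/-- The residue homomorphism. -/
def rho (G : Type v) [Group G] : K1 (MonoidAlgebra E G) →+ (ConjClasses G → M) :=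
  K1.lift (fun _ u => d.val u)
    (by
      rintro x (⟨n, u, w⟩ | ⟨m, n, u, w, z, y, h⟩)
      · simp only [map_sub, FreeAbelianGroup.lift_apply_of]
        funext c
        show d.val (u * w) c - d.val u c - d.val w c = 0
        rw [val_mul]
        abel
      · simp only [map_sub, FreeAbelianGroup.lift_apply_of]
        funext c
        show d.val z c - d.val u c - d.val w c = 0
        let e : Fin m ⊕ Fin n ≃ Fin (m + n) := finSumFinEquiv
        have h1 := d.val_reindex e.symm z c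
        have h2 := d.val_block u w y
          (Units.map (Matrix.reindexRingEquiv (MonoidAlgebra E G) e.symm).toMonoidHom z) (by
            show Matrix.reindex e.symm e.symm
              (z : Matrix (Fin (m + n)) (Fin (m + n)) (MonoidAlgebra E G)) = _
            rw [h]
            ext1 i j
            simp [e]) c
        rw [← h1, h2]
        abel)

theorem rho_cls {n : ℕ} (u : (Matrix (Fin n) (Fin n) (MonoidAlgebra E G))ˣ) :
    d.rho G (K1.cls u) = d.val u := by
  unfold rho
  rw [K1.lift_cls]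

theorem rho_clsF (u : (Matrix ι ι (MonoidAlgebra E G))ˣ) : d.rho G (K1.clsF u) = d.val u := by
  unfold K1.clsF
  rw [rho_cls]
  funext c
  exact d.val_reindex _ u c

end RD

end PA

end Pool.Agent.Lib.MPb6f35e.WH
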