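import Pool.Agent.Lib.MP_b6f35e_al.WH.S

/-!
# Characteristic p: permutation modules and `K_1` (hive 30, MP_b6f35e_al, line P)

Part A: the map on `K_1` given by a matrix representation over `R`; conjugation; triangular
representations.
-/

set_option autoImplicit false

noncomputable section

namespace Pool.Agent.Lib.MPb6f35e.WH

universe u v w

open Matrix Finset

namespace SP

open SM

variable {R : Type u} [CommRing R] {H : Type v} [Group H]

section rep

variable {X : Type w} [Fintype X] [DecidableEq X]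

/-- the matrix of `h` -/
def rm (ρ : H →* Matrix X X R) : H →* Matrix X X (MonoidAlgebra R H) where
  toFun h := Matrix.of fun x x' => MonoidAlgebra.single h (ρ h x x')
  map_one' := by
    ext1 x x'
    simp only [Matrix.of_apply, map_one, Matrix.one_apply]
    split_ifs
    · rfl
    · exact MonoidAlgebra.single_zero _
  map_mul' h h' := by
    ext1 x x'
    rw [Matrix.mul_apply]
    simp only [Matrix.of_apply, map_mul, Matrix.mul_apply, MonoidAlgebra.single_mul_single]
    exact map_sum (MonoidAlgebra.singleAddHom (h * h')) _ _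

/-- the ring homomorphism of a representation -/
def psiM (ρ : H →* Matrix X X R) : MonoidAlgebra R H →+* Matrix X X (MonoidAlgebra R H) :=
  (MonoidAlgebra.lift R (Matrix X X (MonoidAlgebra R H)) H (rm ρ)).toRingHom

theorem psiM_single (ρ : H →* Matrix X X R) (h : H) (r : R) (x x' : X) :
    psiM ρ (MonoidAlgebra.single h r) x x' = MonoidAlgebra.single h (r * ρ h x x') := by
  have e : psiM ρ (MonoidAlgebra.single h r) = r • rm ρ h := MonoidAlgebra.lift_single _ _ _
  rw [e, Matrix.smul_apply]
  change r • (MonoidAlgebra.single h (ρ h x x') : MonoidAlgebra R H) = _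
  rw [MonoidAlgebra.smul_single, smul_eq_mul]

/-- the ring homomorphism on matrices -/
def PsiM (ρ : H →* Matrix X X R) (n : ℕ) :
    Matrix (Fin n) (Fin n) (MonoidAlgebra R H) →+*
      Matrix (Fin n × X) (Fin n × X) (MonoidAlgebra R H) :=
  (Matrix.compRingEquiv (Fin n) X (MonoidAlgebra R H)).toRingHom.comp (psiM ρ).mapMatrix

theorem PsiM_apply (ρ : H →* Matrix X X R) {n : ℕ}
    (M : Matrix (Fin n) (Fin n) (MonoidAlgebra R H)) (i j : Fin n) (x x' : X) :
    PsiM ρ n M (i, x) (j, x') = psiM ρ (M i j) x x' := rfl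

/-- the class of the image -/
def TM (ρ : H →* Matrix X X R) {n : ℕ}
    (A : (Matrix (Fin n) (Fin n) (MonoidAlgebra R H))ˣ) : K1 (MonoidAlgebra R H) :=
  K1.clsF (Units.map (PsiM ρ n).toMonoidHom A)

/-- the permutation representation -/
def permRep (σ : H →* Equiv.Perm X) : H →* Matrix X X R where
  toFun h := Matrix.of fun x x' => if x = σ h x' then 1 else 0
  map_one' := by
    ext1 x x'
    simp only [Matrix.of_apply, map_one, Equiv.Perm.coe_one, id_eq, Matrix.one_apply]
  map_mul' h h' := by
    ext1 x x'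
    rw [Matrix.mul_apply]
    simp only [Matrix.of_apply, map_mul, Equiv.Perm.coe_mul, Function.comp_apply]
    rw [Finset.sum_eq_single (σ h' x')]
    · rw [if_pos rfl, mul_one]
    · intro y _ hy
      rw [if_neg hy, mul_zero]
    · intro h0
      exact absurd (mem_univ _) h0

theorem psiM_perm (σ : H →* Equiv.Perm X) : psiM (permRep (R := R) σ) = psi σ := by
  apply RingHom.ext
  intro a
  ext1 x x'
  induction a using MonoidAlgebra.induction_linear with
  | zero => simp
  | add a b ha hb => rw [map_add, map_add, Matrix.add_apply, Matrix.add_apply, ha, hb]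
  | single h r =>
    rw [psiM_single, psi_single]
    change MonoidAlgebra.single h (r * (if x = σ h x' then 1 else 0)) = _
    split_ifs
    · rw [mul_one]
    · rw [mul_zero]; exact MonoidAlgebra.single_zero _

theorem TM_perm (σ : H →* Equiv.Perm X) {n : ℕ}
    (A : (Matrix (Fin n) (Fin n) (MonoidAlgebra R H))ˣ) : TM (permRep (R := R) σ) A = T σ A := by
  have e : PsiM (permRep (R := R) σ) n = Psi σ n := by
    unfold PsiM Psi
    rw [psiM_perm]
  unfold TM T
  rw [e]

end rep

/-! ### conjugation by a rectangular matrix -/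

section conj

variable {X Y : Type w} [Fintype X] [DecidableEq X] [Fintype Y] [DecidableEq Y]

/-- the matrix `1 ⊗ Q` over `R[H]` -/
def bg (R : Type u) [CommRing R] (H : Type v) [Group H] {X Y : Type w} (n : ℕ) (F : Matrix X Y R) :
    Matrix (Fin n × X) (Fin n × Y) (MonoidAlgebra R H) :=
  Matrix.of fun i j => if i.1 = j.1 then MonoidAlgebra.single 1 (F i.2 j.2) else 0

theorem bg_mul {X Y Z : Type w} [Fintype Y] {n : ℕ}
    (F : Matrix X Y R) (F' : Matrix Y Z R) : bg R H n F * bg R H n F' = bg R H n (F * F') := by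
  ext1 ⟨i, x⟩ ⟨j, z⟩
  rw [Matrix.mul_apply, Fintype.sum_prod_type]
  simp only [bg, Matrix.of_apply]
  rw [Finset.sum_eq_single i]
  · by_cases h : i = j
    · simp only [h, if_true, Matrix.mul_apply, MonoidAlgebra.single_mul_single, mul_one]
      exact (map_sum (MonoidAlgebra.singleAddHom (1 : H)) _ _).symm
    · simp only [if_neg h, mul_zero, Finset.sum_const_zero]
  · intro k _ hk
    apply Finset.sum_eq_zero
    intro y _
    rw [if_neg (Ne.symm hk), zero_mul]
  · intro h0; exact absurd (mem_univ _) h0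

theorem bg_one {X : Type w} [DecidableEq X] {n : ℕ} :
    bg R H n (1 : Matrix X X R) = 1 := by
  ext1 ⟨i, x⟩ ⟨j, z⟩
  simp only [bg, Matrix.of_apply, Matrix.one_apply, Prod.mk.injEq]
  by_cases h : i = j <;> by_cases h' : x = z
  · simp [h, h']; rfl
  · simp [h, h']
  · simp [h, h']
  · simp [h, h']

theorem bg_inter (ρ : H →* Matrix X X R) (ρ' : H →* Matrix Y Y R) (Q : Matrix X Y R)
    (hQ : ∀ h, ρ h * Q = Q * ρ' h) {n : ℕ} (M : Matrix (Fin n) (Fin n) (MonoidAlgebra R H)) :
    PsiM ρ n M * bg R H n Q = bg R H n Q * PsiM ρ' n M := by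
  have key : ∀ (a : MonoidAlgebra R H) (x : X) (y : Y),
      ∑ x', psiM ρ a x x' * MonoidAlgebra.single 1 (Q x' y) =
        ∑ y', MonoidAlgebra.single 1 (Q x y') * psiM ρ' a y' y := by
    intro a x y
    induction a using MonoidAlgebra.induction_linear with
    | zero => simp
    | add a b ha hb =>
      simp only [map_add, Matrix.add_apply, mul_add, add_mul, Finset.sum_add_distrib, ha, hb]
    | single h r =>
      simp only [psiM_single, MonoidAlgebra.single_mul_single, mul_one, one_mul]
      have e1 : ∑ x', (MonoidAlgebra.single h (r * ρ h x x' * Q x' y) : MonoidAlgebra R H) =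
          MonoidAlgebra.single h (∑ x', r * ρ h x x' * Q x' y) :=
        (map_sum (MonoidAlgebra.singleAddHom h) _ _).symm
      have e2 : ∑ y', (MonoidAlgebra.single h (Q x y' * (r * ρ' h y' y)) : MonoidAlgebra R H) =
          MonoidAlgebra.single h (∑ y', Q x y' * (r * ρ' h y' y)) :=
        (map_sum (MonoidAlgebra.singleAddHom h) _ _).symm
      rw [e1, e2]
      congr 1
      have h1 := congrFun (congrFun (hQ h) x) y
      rw [Matrix.mul_apply, Matrix.mul_apply] at h1
      calc ∑ x', r * ρ h x x' * Q x' y = r * ∑ x', ρ h x x' * Q x' y := by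
            rw [Finset.mul_sum]; exact Finset.sum_congr rfl fun _ _ => by ring
        _ = r * ∑ y', Q x y' * ρ' h y' y := by rw [h1]
        _ = _ := by rw [Finset.mul_sum]; exact Finset.sum_congr rfl fun _ _ => by ring
  ext1 ⟨i, x⟩ ⟨j, y⟩
  rw [Matrix.mul_apply, Matrix.mul_apply, Fintype.sum_prod_type, Fintype.sum_prod_type]
  rw [Finset.sum_eq_single j, Finset.sum_eq_single i]
  · simp only [bg, Matrix.of_apply, if_true, PsiM_apply]
    exact key _ x y
  · intro k _ hk
    apply Finset.sum_eq_zero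
    intro y' _
    simp only [bg, Matrix.of_apply]
    rw [if_neg (Ne.symm hk), zero_mul]
  · intro h0; exact absurd (mem_univ _) h0
  · intro k _ hk
    apply Finset.sum_eq_zero
    intro x _
    simp only [bg, Matrix.of_apply]
    rw [if_neg hk, mul_zero]
  · intro h0; exact absurd (mem_univ _) h0

/-- conjugate representations have the same class -/
theorem TM_conj (hK : SpecK.{max u v, w}) (ρ : H →* Matrix X X R) (ρ' : H →* Matrix Y Y R)
    (Q : Matrix X Y R) (Q' : Matrix Y X R) (h1 : Q * Q' = 1) (h2 : Q' * Q = 1)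
    (hQ : ∀ h, ρ h * Q = Q * ρ' h) {n : ℕ} (A : (Matrix (Fin n) (Fin n) (MonoidAlgebra R H))ˣ) :
    TM ρ A = TM ρ' A := by
  unfold TM
  have e1 : bg R H n Q * bg R H n Q' = 1 := by rw [bg_mul, h1, bg_one]
  have e2 : bg R H n Q' * bg R H n Q = 1 := by rw [bg_mul, h2, bg_one]
  have e3 := bg_inter ρ ρ' Q hQ A.val
  refine hK.oneAdd _ _ _ ((PsiM ρ n A.val - 1) * bg R H n Q) (bg R H n Q') _ _ ?_ ?_
  · rw [Matrix.mul_assoc, e1, Matrix.mul_one]
    change PsiM ρ n A.val = _
    abel
  · change PsiM ρ' n A.val = _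
    rw [Matrix.sub_mul, Matrix.one_mul, e3, Matrix.mul_sub, ← Matrix.mul_assoc, e2, Matrix.one_mul]
    abel

end conj

/-! ### triangular representations -/

section tri

variable {X : Type w} [Fintype X] [DecidableEq X]

theorem psiM_zero (ρ : H →* Matrix X X R) {x x' : X} (h0 : ∀ h, ρ h x x' = 0)
    (a : MonoidAlgebra R H) : psiM ρ a x x' = 0 := by
  induction a using MonoidAlgebra.induction_linear with
  | zero => simp
  | add a b ha hb => rw [map_add, Matrix.add_apply, ha, hb, add_zero]
  | single h r => rw [psiM_single, h0, mul_zero]; exact MonoidAlgebra.single_zero _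

theorem psiM_congr (ρ ρ' : H →* Matrix X X R) {x x' : X} (h0 : ∀ h, ρ h x x' = ρ' h x x')
    (a : MonoidAlgebra R H) : psiM ρ a x x' = psiM ρ' a x x' := by
  induction a using MonoidAlgebra.induction_linear with
  | zero => simp
  | add a b ha hb => rw [map_add, map_add, Matrix.add_apply, Matrix.add_apply, ha, hb]
  | single h r => rw [psiM_single, psiM_single, h0]

/-- the diagonal part of a triangular representation -/
def dg (a : X → ℕ) (ρ : H →* Matrix X X R) (hρ : ∀ h x y, a x < a y → ρ h x y = 0) :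
    H →* Matrix X X R where
  toFun h := Matrix.of fun x y => if a x = a y then ρ h x y else 0
  map_one' := by
    ext1 x y
    simp only [Matrix.of_apply, map_one, Matrix.one_apply]
    by_cases h : x = y
    · simp [h]
    · simp [h]
  map_mul' h h' := by
    ext1 x y
    rw [Matrix.mul_apply]
    simp only [Matrix.of_apply, map_mul]
    by_cases hxy : a x = a y
    · rw [if_pos hxy, Matrix.mul_apply]
      apply Finset.sum_congr rfl
      intro z _
      by_cases h1 : a x = a z
      · rw [if_pos h1, if_pos (h1.symm.trans hxy)]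
      · rw [if_neg h1, zero_mul]
        rcases lt_or_gt_of_ne h1 with h2 | h2
        · rw [hρ h x z h2, zero_mul]
        · rw [hρ h' z y (by omega), mul_zero]
    · rw [if_neg hxy]
      symm
      apply Finset.sum_eq_zero
      intro z _
      by_cases h1 : a x = a z
      · rw [if_neg (fun h2 => hxy (h1.trans h2)), mul_zero]
      · rw [if_neg h1, zero_mul]

/-- `(1 + N)^(p^k) = 1 + N^(p^k)` if `p = 0` -/
theorem one_add_pow {A : Type*} [Ring A] {p : ℕ} (hp : p.Prime) (h0 : (p : A) = 0) (N : A) (k : ℕ) :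
    (1 + N) ^ p ^ k = 1 + N ^ p ^ k := by
  obtain ⟨c, hc⟩ := (Commute.one_left N).exists_add_pow_prime_pow_eq hp k
  rw [hc, h0]
  simp

theorem mat_zero {A : Type*} [Ring A] {ι : Type*} [Fintype ι] [DecidableEq ι] {p : ℕ}
    (h0 : (p : A) = 0) : ((p : ℕ) : Matrix ι ι A) = 0 := by
  rw [← Matrix.diagonal_natCast, h0]
  exact Matrix.diagonal_zero

/-- a matrix which lowers a rank is nilpotent -/
theorem pow_zero_of_rank {A : Type*} [Ring A] {ι : Type*} [Fintype ι] [DecidableEq ι] (b : ι → ℕ)
    (m : ℕ) (hb : ∀ i, b i < m) (N : Matrix ι ι A) (hN : ∀ i j, b i ≤ b j → N i j = 0) (k : ℕ)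
    (hk : m ≤ k) : N ^ k = 0 := by
  have h1 : ∀ (k : ℕ) (i j : ι), b i < b j + k → (N ^ k) i j = 0 := by
    intro k
    induction k with
    | zero =>
      intro i j h
      rw [pow_zero, Matrix.one_apply, if_neg]
      rintro rfl
      omega
    | succ k ih =>
      intro i j h
      rw [pow_succ', Matrix.mul_apply]
      apply Finset.sum_eq_zero
      intro l _
      by_cases h2 : b i ≤ b l
      · rw [hN i l h2, zero_mul]
      · rw [ih l j (by omega), mul_zero]
  ext i j
  exact h1 k i j (by have := hb i; omega)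

theorem TM_dg (hK : SpecK.{max u v, w}) {p : ℕ} (hp : p.Prime) (h0 : (p : R) = 0) (a : X → ℕ)
    (ρ : H →* Matrix X X R) (hρ : ∀ h x y, a x < a y → ρ h x y = 0) {n : ℕ}
    (A : (Matrix (Fin n) (Fin n) (MonoidAlgebra R H))ˣ) :
    ∃ k : ℕ, 0 < k ∧ k • TM ρ A = k • TM (dg a ρ hρ) A := by
  set δ := dg a ρ hρ with hδ
  set U : (Matrix (Fin n × X) (Fin n × X) (MonoidAlgebra R H))ˣ :=
    Units.map (PsiM ρ n).toMonoidHom A with hU
  set V : (Matrix (Fin n × X) (Fin n × X) (MonoidAlgebra R H))ˣ :=
    Units.map (PsiM δ n).toMonoidHom A with hV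
  have hp0 : ((p : ℕ) : MonoidAlgebra R H) = 0 := by
    have h1 : ((p : ℕ) : MonoidAlgebra R H) = algebraMap R (MonoidAlgebra R H) (p : R) := by
      rw [map_natCast]
    rw [h1, h0, map_zero]
  -- entries
  have hUV : ∀ i j : Fin n × X, a i.2 ≤ a j.2 → U.val i j = V.val i j := by
    rintro ⟨i, x⟩ ⟨j, y⟩ h
    change psiM ρ (A.val i j) x y = psiM δ (A.val i j) x y
    apply psiM_congr
    intro g
    change ρ g x y = if a x = a y then ρ g x y else 0
    split_ifs with h1
    · rfl
    · exact hρ g x y (lt_of_le_of_ne h h1)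
  have hVi : ∀ i j : Fin n × X, a i.2 ≠ a j.2 → (V⁻¹).val i j = 0 := by
    rintro ⟨i, x⟩ ⟨j, y⟩ h
    have e : (V⁻¹).val = PsiM δ n (A⁻¹).val := by
      rw [hV, ← map_inv]
      rfl
    rw [e]
    change psiM δ ((A⁻¹).val i j) x y = 0
    apply psiM_zero
    intro g
    exact if_neg h
  set N : Matrix (Fin n × X) (Fin n × X) (MonoidAlgebra R H) := (U.val - V.val) * (V⁻¹).val with hN
  have hN0 : ∀ i j : Fin n × X, a i.2 ≤ a j.2 → N i j = 0 := by
    intro i j h
    rw [hN, Matrix.mul_apply]
    apply Finset.sum_eq_zero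
    intro l _
    by_cases h1 : a l.2 = a j.2
    · rw [Matrix.sub_apply, hUV i l (by omega), sub_self, zero_mul]
    · rw [hVi l j h1, mul_zero]
  have hN1 : (U * V⁻¹).val = 1 + N := by
    rw [hN, Matrix.sub_mul, Units.mul_inv, Units.val_mul]
    abel
  obtain ⟨m, hm⟩ : ∃ m : ℕ, ∀ i : Fin n × X, a i.2 < m :=
    ⟨(Finset.univ.sup fun x => a x) + 1, fun i =>
      Nat.lt_succ_of_le (Finset.le_sup (f := fun x => a x) (mem_univ i.2))⟩
  have hpm : m ≤ p ^ m := (Nat.lt_pow_self hp.one_lt).le
  have hN2 : N ^ p ^ m = 0 := pow_zero_of_rank (fun i : Fin n × X => a i.2) m hm N hN0 _ hpm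
  have hW : (U * V⁻¹) ^ p ^ m = 1 := by
    apply Units.ext
    rw [Units.val_pow_eq_pow_val, hN1, one_add_pow hp (mat_zero hp0), hN2, add_zero, Units.val_one]
  refine ⟨p ^ m, pow_pos hp.pos m, ?_⟩
  have h3 : p ^ m • K1.clsF (U * V⁻¹) = 0 := by
    rw [← clsF_pow hK, hW, clsF_one hK]
  have h4 : K1.clsF (U * V⁻¹) + K1.clsF V = K1.clsF U := by
    rw [← hK.mul, inv_mul_cancel_right]
  change p ^ m • K1.clsF U = p ^ m • K1.clsF V
  rw [← h4, smul_add, h3, zero_add]

end tri

end SP

end Pool.Agent.Lib.MPb6f35e.WH
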