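import Pool.Agent.Lib.MP_b6f35e_al.P.SRpA

/-!
# Characteristic p: permutation modules and `K_1` (hive 30, MP_b6f35e_al, line P)

Part B: rationally equivalent permutation modules have the same class up to torsion.
-/

set_option autoImplicit false

noncomputable section

namespace Pool.Agent.Lib.MPb6f35e.WH

universe u v w

open Matrix Finset

namespace SP

open SM

section smith

variable {X Y : Type w} [Fintype X] [DecidableEq X] [Fintype Y] [DecidableEq Y]

omit [DecidableEq Y] in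
theorem mulVec_inj {F : Matrix Y X ℤ} {F' : Matrix X Y ℤ} {d : ℤ} (hd : d ≠ 0)
    (h2 : F' * F = d • 1) : Function.Injective F.mulVecLin := by
  rw [← LinearMap.ker_eq_bot, LinearMap.ker_eq_bot']
  intro v hv
  have h3 : F'.mulVec (F.mulVec v) = 0 := by
    have : F.mulVec v = 0 := hv
    rw [this, Matrix.mulVec_zero]
  rw [Matrix.mulVec_mulVec, h2, Matrix.smul_mulVec, Matrix.one_mulVec] at h3
  ext x
  have h4 := congrFun h3 x
  simp only [Pi.smul_apply, Pi.zero_apply, smul_eq_mul, mul_eq_zero] at h4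
  rcases h4 with h4 | h4
  · exact absurd h4 hd
  · exact h4

/-- Smith normal form of an intertwiner -/
theorem smith (F : Matrix Y X ℤ) (F' : Matrix X Y ℤ) (d : ℤ) (hd : d ≠ 0) (h1 : F * F' = d • 1)
    (h2 : F' * F = d • 1) :
    ∃ (P P' : Matrix Y Y ℤ) (Q : Matrix X Y ℤ) (Q' : Matrix Y X ℤ) (a : Y → ℤ),
      P * P' = 1 ∧ P' * P = 1 ∧ Q * Q' = 1 ∧ Q' * Q = 1 ∧ (∀ y, a y ≠ 0) ∧
        F * Q = P * Matrix.diagonal a := by
  have hinj : Function.Injective F.mulVecLin := mulVec_inj hd h2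
  have hinj' : Function.Injective F'.mulVecLin := mulVec_inj hd h1
  have hc : Module.finrank ℤ (X → ℤ) = Module.finrank ℤ (Y → ℤ) :=
    le_antisymm (LinearMap.finrank_le_finrank_of_injective hinj)
      (LinearMap.finrank_le_finrank_of_injective hinj')
  have hN : Module.finrank ℤ (LinearMap.range F.mulVecLin) = Module.finrank ℤ (Y → ℤ) := by
    rw [← hc]
    exact (LinearEquiv.ofInjective F.mulVecLin hinj).finrank_eq.symm
  obtain ⟨b', a, ab', hab⟩ := Submodule.exists_smith_normal_form_of_rank_eq (Pi.basisFun ℤ Y) hN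
  set c : Module.Basis Y ℤ (X → ℤ) := ab'.map (LinearEquiv.ofInjective F.mulVecLin hinj).symm with hcdef
  refine ⟨(Pi.basisFun ℤ Y).toMatrix b', b'.toMatrix (Pi.basisFun ℤ Y),
    (Pi.basisFun ℤ X).toMatrix c, c.toMatrix (Pi.basisFun ℤ X), a,
    Module.Basis.toMatrix_mul_toMatrix_flip _ _, Module.Basis.toMatrix_mul_toMatrix_flip _ _,
    Module.Basis.toMatrix_mul_toMatrix_flip _ _, Module.Basis.toMatrix_mul_toMatrix_flip _ _, ?_, ?_⟩
  · intro y hy
    have h3 := hab y
    rw [hy, zero_smul] at h3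
    exact ab'.ne_zero y (Subtype.ext h3)
  · ext i j
    rw [Matrix.mul_apply, Matrix.mul_diagonal]
    simp only [Module.Basis.toMatrix_apply, Pi.basisFun_repr]
    have h3 : F.mulVecLin (c j) = (ab' j : Y → ℤ) := by
      rw [hcdef, Module.Basis.map_apply]
      exact congrArg Subtype.val ((LinearEquiv.ofInjective F.mulVecLin hinj).apply_symm_apply (ab' j))
    have h4 := congrFun h3 i
    rw [hab j] at h4
    change (F.mulVec (c j)) i = a j * b' j i at h4
    rw [mul_comm (b' j i)]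
    exact h4

end smith

variable {R : Type u} [CommRing R] {H : Type v} [Group H]

/-- conjugate of a representation -/
def cjRep {S : Type*} [CommRing S] {X Y : Type w} [Fintype X] [DecidableEq X] [Fintype Y]
    [DecidableEq Y] (ρ : H →* Matrix X X S) (Q : Matrix X Y S) (Q' : Matrix Y X S)
    (h1 : Q * Q' = 1) (h2 : Q' * Q = 1) : H →* Matrix Y Y S where
  toFun h := Q' * ρ h * Q
  map_one' := by rw [map_one, Matrix.mul_one, h2]
  map_mul' h h' := by
    rw [map_mul]
    calc Q' * (ρ h * ρ h') * Q = Q' * ρ h * (1 : Matrix X X S) * ρ h' * Q := by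
          rw [Matrix.mul_one]; simp only [Matrix.mul_assoc]
      _ = Q' * ρ h * (Q * Q') * ρ h' * Q := by rw [h1]
      _ = _ := by simp only [Matrix.mul_assoc]

/-- reduction of an integral representation -/
def castRep (R : Type u) [CommRing R] {Y : Type w} [Fintype Y] [DecidableEq Y]
    (ρ : H →* Matrix Y Y ℤ) : H →* Matrix Y Y R :=
  ((Int.castRingHom R).mapMatrix (m := Y)).toMonoidHom.comp ρ

theorem castRep_apply {Y : Type w} [Fintype Y] [DecidableEq Y]
    (ρ : H →* Matrix Y Y ℤ) (h : H) (i j : Y) : castRep R ρ h i j = (ρ h i j : R) := rfl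

theorem cast_mul' {X Y Z : Type w} [Fintype Y] (A : Matrix X Y ℤ) (B : Matrix Y Z ℤ) :
    (A * B).map (Int.castRingHom R) = A.map (Int.castRingHom R) * B.map (Int.castRingHom R) :=
  Matrix.map_mul

theorem TM_cj (hK : SpecK.{max u v, w}) {X Y : Type w} [Fintype X] [DecidableEq X] [Fintype Y]
    [DecidableEq Y] (ρ : H →* Matrix X X ℤ) (Q : Matrix X Y ℤ) (Q' : Matrix Y X ℤ)
    (h1 : Q * Q' = 1) (h2 : Q' * Q = 1) {n : ℕ} (A : (Matrix (Fin n) (Fin n) (MonoidAlgebra R H))ˣ) :
    TM (castRep R ρ) A = TM (castRep R (cjRep ρ Q Q' h1 h2)) A := by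
  refine TM_conj hK _ _ (Q.map (Int.castRingHom R)) (Q'.map (Int.castRingHom R)) ?_ ?_ ?_ A
  · rw [← cast_mul', h1, Matrix.map_one _ (map_zero _) (map_one _)]
  · rw [← cast_mul', h2, Matrix.map_one _ (map_zero _) (map_one _)]
  · intro h
    change (ρ h).map (Int.castRingHom R) * Q.map (Int.castRingHom R) =
      Q.map (Int.castRingHom R) * (Q' * ρ h * Q).map (Int.castRingHom R)
    rw [← cast_mul', ← cast_mul']
    congr 1
    rw [← Matrix.mul_assoc, ← Matrix.mul_assoc, h1, Matrix.one_mul]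

theorem castRep_perm {X : Type w} [Fintype X] [DecidableEq X] (σ : H →* Equiv.Perm X) :
    castRep R (permRep (R := ℤ) σ) = permRep (R := R) σ := by
  apply MonoidHom.ext
  intro h
  ext x x'
  rw [castRep_apply]
  change (((if x = σ h x' then 1 else 0 : ℤ)) : R) = if x = σ h x' then 1 else 0
  split_ifs <;> simp

theorem cast_zero_of_dvd {p : ℕ} (h0 : (p : R) = 0) {z : ℤ} (h : (p : ℤ) ∣ z) : (z : R) = 0 := by
  obtain ⟨c, rfl⟩ := h
  rw [Int.cast_mul, Int.cast_natCast, h0, zero_mul]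

/-- the classes of two rationally equivalent permutation modules agree up to torsion -/
theorem T_interP (hK : SpecK.{max u v, w}) {p : ℕ} (hp : p.Prime) (h0 : (p : R) = 0)
    {X Y : Type w} [Fintype X] [DecidableEq X] [Fintype Y] [DecidableEq Y]
    (σ : H →* Equiv.Perm X) (τ : H →* Equiv.Perm Y) (F : Matrix Y X ℤ) (F' : Matrix X Y ℤ) (d : ℤ)
    (hd : d ≠ 0) (h1 : F * F' = d • 1) (h2 : F' * F = d • 1)
    (hF : ∀ h y x, F (τ h y) (σ h x) = F y x) {n : ℕ}
    (A : (Matrix (Fin n) (Fin n) (MonoidAlgebra R H))ˣ) : ∃ k : ℕ, 0 < k ∧ k • T σ A = k • T τ A := by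
  obtain ⟨P, P', Q, Q', a, hP1, hP2, hQ1, hQ2, ha, hFQ⟩ := smith F F' d hd h1 h2
  -- the intertwining property
  have hint : ∀ h, F * permRep (R := ℤ) σ h = permRep (R := ℤ) τ h * F := by
    intro h
    ext y x'
    rw [Matrix.mul_apply, Matrix.mul_apply, Finset.sum_eq_single (σ h x'),
      Finset.sum_eq_single ((τ h).symm y)]
    · change F y (σ h x') * (if σ h x' = σ h x' then 1 else 0) =
        (if y = τ h ((τ h).symm y) then 1 else 0) * F ((τ h).symm y) x'
      rw [if_pos rfl, if_pos (by simp), mul_one, one_mul]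
      have h3 := hF h ((τ h).symm y) x'
      rwa [Equiv.apply_symm_apply] at h3
    · intro y' _ hy
      change (if y = τ h y' then (1 : ℤ) else 0) * _ = 0
      rw [if_neg, zero_mul]
      intro h3
      exact hy (by rw [h3, Equiv.symm_apply_apply])
    · intro h3; exact absurd (mem_univ _) h3
    · intro x _ hx
      change _ * (if x = σ h x' then (1 : ℤ) else 0) = 0
      rw [if_neg hx, mul_zero]
    · intro h3; exact absurd (mem_univ _) h3
  set ρ1 : H →* Matrix Y Y ℤ := cjRep (permRep (R := ℤ) σ) Q Q' hQ1 hQ2 with hρ1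
  set ρ2 : H →* Matrix Y Y ℤ := cjRep (permRep (R := ℤ) τ) P P' hP1 hP2 with hρ2
  have hrel : ∀ h, Matrix.diagonal a * ρ1 h = ρ2 h * Matrix.diagonal a := by
    intro h
    change Matrix.diagonal a * (Q' * permRep (R := ℤ) σ h * Q) =
      (P' * permRep (R := ℤ) τ h * P) * Matrix.diagonal a
    have e1 : P * (Matrix.diagonal a * (Q' * permRep (R := ℤ) σ h * Q)) =
        P * ((P' * permRep (R := ℤ) τ h * P) * Matrix.diagonal a) := by
      calc P * (Matrix.diagonal a * (Q' * permRep (R := ℤ) σ h * Q))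
          = (P * Matrix.diagonal a) * (Q' * permRep (R := ℤ) σ h * Q) := by
            simp only [Matrix.mul_assoc]
        _ = F * (Q * Q') * permRep (R := ℤ) σ h * Q := by
            rw [← hFQ]; simp only [Matrix.mul_assoc]
        _ = F * permRep (R := ℤ) σ h * Q := by rw [hQ1, Matrix.mul_one]
        _ = permRep (R := ℤ) τ h * (F * Q) := by rw [hint]; simp only [Matrix.mul_assoc]
        _ = permRep (R := ℤ) τ h * (P * Matrix.diagonal a) := by rw [hFQ]
        _ = (P * P') * permRep (R := ℤ) τ h * (P * Matrix.diagonal a) := by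
            rw [hP1, Matrix.one_mul]
        _ = _ := by simp only [Matrix.mul_assoc]
    have e2 := congrArg (fun Z => P' * Z) e1
    simp only [← Matrix.mul_assoc, hP2, Matrix.one_mul] at e2
    simpa only [← Matrix.mul_assoc] using e2
  have hrel' : ∀ h i j, a i * ρ1 h i j = ρ2 h i j * a j := by
    intro h i j
    have h3 := congrFun (congrFun (hrel h) i) j
    rwa [Matrix.diagonal_mul, Matrix.mul_diagonal] at h3
  -- valuations
  have hpZ : Prime (p : ℤ) := Nat.prime_iff_prime_int.1 hp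
  have hex : ∀ y, ∃ (v : ℕ) (c : ℤ), a y = (p : ℤ) ^ v * c ∧ ¬ (p : ℤ) ∣ c := by
    intro y
    have hfin : FiniteMultiplicity (p : ℤ) (a y) := by
      rw [Int.finiteMultiplicity_iff]
      exact ⟨by simpa using hp.ne_one, ha y⟩
    obtain ⟨c, hc1, hc2⟩ := hfin.exists_eq_pow_mul_and_not_dvd
    exact ⟨_, c, hc1, hc2⟩
  choose vv c hvc hc using hex
  have hpow : ∀ k : ℕ, (p : ℤ) ^ k ≠ 0 := fun k => pow_ne_zero k hpZ.ne_zero
  have r1 : ∀ h i j, vv i < vv j → castRep R ρ1 h i j = 0 := by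
    intro h i j hij
    rw [castRep_apply]
    apply cast_zero_of_dvd h0
    have h3 := hrel' h i j
    rw [hvc i, hvc j] at h3
    obtain ⟨k, hk⟩ := Nat.exists_eq_add_of_lt hij
    have h4 : (p : ℤ) ^ vv i * (c i * ρ1 h i j) =
        (p : ℤ) ^ vv i * ((p : ℤ) * ((p : ℤ) ^ k * ρ2 h i j * c j)) := by
      rw [hk] at h3
      calc (p : ℤ) ^ vv i * (c i * ρ1 h i j) = (p : ℤ) ^ vv i * c i * ρ1 h i j := by ring
        _ = _ := by rw [h3]; ring
    have h5 := mul_left_cancel₀ (hpow _) h4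
    have h6 : (p : ℤ) ∣ c i * ρ1 h i j := ⟨_, h5⟩
    exact (hpZ.dvd_or_dvd h6).resolve_left (hc i)
  have r2 : ∀ h i j, vv j < vv i → castRep R ρ2 h i j = 0 := by
    intro h i j hij
    rw [castRep_apply]
    apply cast_zero_of_dvd h0
    have h3 := hrel' h i j
    rw [hvc i, hvc j] at h3
    obtain ⟨k, hk⟩ := Nat.exists_eq_add_of_lt hij
    have h4 : (p : ℤ) ^ vv j * ((p : ℤ) * ((p : ℤ) ^ k * c i * ρ1 h i j)) =
        (p : ℤ) ^ vv j * (ρ2 h i j * c j) := by
      rw [hk] at h3
      calc (p : ℤ) ^ vv j * ((p : ℤ) * ((p : ℤ) ^ k * c i * ρ1 h i j)) =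
            (p : ℤ) ^ (vv j + k + 1) * c i * ρ1 h i j := by ring
        _ = _ := by rw [h3]; ring
    have h5 := mul_left_cancel₀ (hpow _) h4
    have h6 : (p : ℤ) ∣ ρ2 h i j * c j := ⟨_, h5.symm⟩
    exact (hpZ.dvd_or_dvd h6).resolve_right (hc j)
  have r3 : ∀ h i j, vv i = vv j → c i * ρ1 h i j = ρ2 h i j * c j := by
    intro h i j hij
    have h3 := hrel' h i j
    rw [hvc i, hvc j, hij] at h3
    apply mul_left_cancel₀ (hpow (vv j))
    calc (p : ℤ) ^ vv j * (c i * ρ1 h i j) = (p : ℤ) ^ vv j * c i * ρ1 h i j := by ring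
      _ = _ := by rw [h3]; ring
  -- inverses modulo p
  have hinv : ∀ y, ∃ w : ℤ, (c y : R) * (w : R) = 1 := by
    intro y
    have h3 : IsCoprime (p : ℤ) (c y) := (hpZ.coprime_iff_not_dvd).2 (hc y)
    obtain ⟨s, t, hst⟩ := h3
    refine ⟨t, ?_⟩
    have h4 := congrArg (fun z : ℤ => (z : R)) hst
    simp only [Int.cast_add, Int.cast_mul, Int.cast_natCast, Int.cast_one, h0, mul_zero,
      zero_add] at h4
    rw [mul_comm]
    exact h4
  choose w hw using hinv
  -- the upper bound of the valuations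
  obtain ⟨M, hM⟩ : ∃ M : ℕ, ∀ y, vv y ≤ M :=
    ⟨Finset.univ.sup vv, fun y => Finset.le_sup (mem_univ y)⟩
  have r2' : ∀ h i j, M - vv i < M - vv j → castRep R ρ2 h i j = 0 := by
    intro h i j hij
    exact r2 h i j (by have := hM i; have := hM j; omega)
  obtain ⟨k1, hk1, e1⟩ := TM_dg hK hp h0 vv (castRep R ρ1) r1 A
  obtain ⟨k2, hk2, e2⟩ := TM_dg hK hp h0 (fun y => M - vv y) (castRep R ρ2) r2' A
  have e3 : TM (dg vv (castRep R ρ1) r1) A = TM (dg (fun y => M - vv y) (castRep R ρ2) r2') A := by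
    refine TM_conj hK _ _ (Matrix.diagonal fun y => (w y : R)) (Matrix.diagonal fun y => (c y : R))
      ?_ ?_ ?_ A
    · rw [Matrix.diagonal_mul_diagonal, ← Matrix.diagonal_one]
      congr 1
      funext y
      rw [mul_comm]; exact hw y
    · rw [Matrix.diagonal_mul_diagonal, ← Matrix.diagonal_one]
      congr 1
      funext y
      exact hw y
    · intro h
      ext i j
      rw [Matrix.mul_diagonal, Matrix.diagonal_mul]
      change (if vv i = vv j then ((ρ1 h i j : ℤ) : R) else 0) * (w j : R) =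
        (w i : R) * (if M - vv i = M - vv j then ((ρ2 h i j : ℤ) : R) else 0)
      by_cases hij : vv i = vv j
      · rw [if_pos hij, if_pos (by rw [hij])]
        have h3 := congrArg (fun z : ℤ => (z : R)) (r3 h i j hij)
        simp only [Int.cast_mul] at h3
        calc ((ρ1 h i j : ℤ) : R) * (w j : R) = ((c i : R) * (w i : R)) * (ρ1 h i j : R) * (w j : R) := by
              rw [hw i, one_mul]
          _ = (w i : R) * ((c i : R) * (ρ1 h i j : R)) * (w j : R) := by ring
          _ = (w i : R) * (ρ2 h i j : R) * ((c j : R) * (w j : R)) := by rw [h3]; ring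
          _ = _ := by rw [hw j, mul_one]
      · rw [if_neg hij, if_neg (by have := hM i; have := hM j; omega), zero_mul, mul_zero]
  have f1 : T σ A = TM (castRep R ρ1) A := by
    rw [← TM_perm (R := R) σ A, ← castRep_perm, TM_cj hK (permRep (R := ℤ) σ) Q Q' hQ1 hQ2]
  have f2 : T τ A = TM (castRep R ρ2) A := by
    rw [← TM_perm (R := R) τ A, ← castRep_perm, TM_cj hK (permRep (R := ℤ) τ) P P' hP1 hP2]
  refine ⟨k1 * k2, Nat.mul_pos hk1 hk2, ?_⟩
  rw [f1, f2, mul_nsmul, e1, mul_nsmul', e2, e3, ← mul_nsmul, ← mul_nsmul']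

end SP

end Pool.Agent.Lib.MPb6f35e.WH
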